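import Pool.Agent.Q301.QM.Top

/-!
# Open sets of bounded depth in Cantor cubes
-/

set_option maxHeartbeats 1000000
set_option linter.all false
set_option synthInstance.maxSize 2000

namespace Pool.Agent.Q301.SZ

open FirstOrder FirstOrder.Language
open Pool.Agent.Helper672.ZFA
open Pool.Agent.Helper672.Plain (LSet)
open Pool.Agent.Helper672.ZFA.H635 (toL plainN_ordPair plainN_graph plainN_opGraph)
open Pool.Agent.H310 (instPEl)

universe u

attribute [local instance] toL instPEl

section

variable {N : Type u} [LSet.Structure N] [hM : IsModel N] {α β : Type u} [ITy N α] [ITy N β]

/-- Removal of an element. -/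
noncomputable def rm (S : IPow N β) (a : β) : IPow N β := sep N fun b => b ∈ S ∧ b ≠ a

theorem mem_rm {S : IPow N β} {a b : β} : b ∈ rm S a ↔ b ∈ S ∧ b ≠ a := mem_sep (by (repeat' (first | with_reducible exact IntF.id | with_reducible exact IntF.fst' | with_reducible exact IntF.snd' | with_reducible exact IntF.const _ | with_reducible exact Int.const _ | assumption | with_reducible apply Int.and | with_reducible apply Int.or | with_reducible apply Int.not | with_reducible apply Int.imp | with_reducible apply Int.iff | with_reducible apply Int.ne | with_reducible apply Int.eq | with_reducible apply Int.mem | with_reducible apply Int.subset | with_reducible apply Int.ltN | with_reducible apply Int.leN | with_reducible_and_instances apply Int.le | with_reducible_and_instances apply Int.lt | with_reducible apply Int.all | with_reducible apply Int.ex | with_reducible apply IntF.fst | with_reducible apply IntF.snd | with_reducible apply IntF.app | with_reducible apply IntF.inl | with_reducible apply IntF.inr | with_reducible_and_instances apply IntF.mul | with_reducible_and_instances apply IntF.inv | with_reducible_and_instances apply IntF.add | with_reducible_and_instances apply IntF.sub |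 with_reducible_and_instances apply IntF.neg | with_reducible_and_instances apply IntF.smul | with_reducible apply Int.fin | with_reducible apply IntF.sep | with_reducible apply IntF.lam | with_reducible apply IntF.insert | with_reducible apply IntF.singleton | with_reducible apply IntF.union | with_reducible apply IntF.iimage | with_reducible apply IntF.ite | with_reducible apply IntF.the | with_reducible apply IntF.irec | with_reducible apply IntF.succ | with_reducible apply IntF.val | with_reducible apply IntF.mk | (with_reducible refine Int.comp ?_ ?_; assumption) | (with_reducible refine Int.comp₂ ?_ ?_ ?_; assumption) | (with_reducible refine Int.comp₃ ?_ ?_ ?_ ?_; assumption) | (with_reducible refine Int.comp₄ ?_ ?_ ?_ ?_ ?_; assumption) | (with_reducible refine IntF.comp ?_ ?_; assumption) | (with_reducible refine IntF.comp₂ ?_ ?_ ?_; assumption) | (with_reducible refine IntF.comp₃ ?_ ?_ ?_ ?_; assumption) | with_reducible apply IntF.pair)))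

theorem int_rm : IntF N (fun q : IPow N β × β => rm q.1 q.2) := by
  unfold rm
  (repeat' (first | with_reducible exact IntF.id | with_reducible exact IntF.fst' | with_reducible exact IntF.snd' | with_reducible exact IntF.const _ | with_reducible exact Int.const _ | assumption | with_reducible apply Int.and | with_reducible apply Int.or | with_reducible apply Int.not | with_reducible apply Int.imp | with_reducible apply Int.iff | with_reducible apply Int.ne | with_reducible apply Int.eq | with_reducible apply Int.mem | with_reducible apply Int.subset | with_reducible apply Int.ltN | with_reducible apply Int.leN | with_reducible_and_instances apply Int.le | with_reducible_and_instances apply Int.lt | with_reducible apply Int.all | with_reducible apply Int.ex | with_reducible apply IntF.fst | with_reducible apply IntF.snd | with_reducible apply IntF.app | with_reducible apply IntF.inl | with_reducible apply IntF.inr | with_reducible_and_instances apply IntF.mul | with_reducible_and_instances apply IntF.inv | with_reducible_and_instances apply IntF.add | with_reducible_and_instances apply IntF.sub | with_reducible_and_instances apply IntF.neg | with_reducible_and_instances apply IntF.smul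 | with_reducible apply Int.fin | with_reducible apply IntF.sep | with_reducible apply IntF.lam | with_reducible apply IntF.insert | with_reducible apply IntF.singleton | with_reducible apply IntF.union | with_reducible apply IntF.iimage | with_reducible apply IntF.ite | with_reducible apply IntF.the | with_reducible apply IntF.irec | with_reducible apply IntF.succ | with_reducible apply IntF.val | with_reducible apply IntF.mk | (with_reducible refine Int.comp ?_ ?_; assumption) | (with_reducible refine Int.comp₂ ?_ ?_ ?_; assumption) | (with_reducible refine Int.comp₃ ?_ ?_ ?_ ?_; assumption) | (with_reducible refine Int.comp₄ ?_ ?_ ?_ ?_ ?_; assumption) | (with_reducible refine IntF.comp ?_ ?_; assumption) | (with_reducible refine IntF.comp₂ ?_ ?_ ?_; assumption) | (with_reducible refine IntF.comp₃ ?_ ?_ ?_ ?_; assumption) | with_reducible apply IntF.pair))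

/-- The sets with at most `m` elements. -/
noncomputable def SSf (N : Type u) [LSet.Structure N] [IsModel N] (β : Type u) [ITy N β]
    (m : INat N) : IPow N (IPow N β) :=
  irec ({∅} : IPow N (IPow N β)) (fun _ T => sep N fun S => ∀ a, a ∈ S → rm S a ∈ T) m

/-- The set has at most `m` elements. -/
def SS (q : INat N × IPow N β) : Prop := q.2 ∈ SSf N β q.1

theorem int_SS : Int N (fun q : INat N × IPow N β => SS q) := by
  have h := int_rm (N := N) (β := β)
  unfold SS SSf
  (repeat' (first | with_reducible exact IntF.id | with_reducible exact IntF.fst' | with_reducible exact IntF.snd' | with_reducible exact IntF.const _ | with_reducible exact Int.const _ | assumption | with_reducible apply Int.and | with_reducible apply Int.or | with_reducible apply Int.not | with_reducible apply Int.imp | with_reducible apply Int.iff | with_reducible apply Int.ne | with_reducible apply Int.eq | with_reducible apply Int.mem | with_reducible apply Int.subset | with_reducible apply Int.ltN | with_reducible apply Int.leN | with_reducible_and_instances apply Int.le | with_reducible_and_instances apply Int.lt | with_reducible apply Int.all | with_reducible apply Int.ex | with_reducible apply IntF.fst | with_reducible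 apply IntF.snd | with_reducible apply IntF.app | with_reducible apply IntF.inl | with_reducible apply IntF.inr | with_reducible_and_instances apply IntF.mul | with_reducible_and_instances apply IntF.inv | with_reducible_and_instances apply IntF.add | with_reducible_and_instances apply IntF.sub | with_reducible_and_instances apply IntF.neg | with_reducible_and_instances apply IntF.smul | with_reducible apply Int.fin | with_reducible apply IntF.sep | with_reducible apply IntF.lam | with_reducible apply IntF.insert | with_reducible apply IntF.singleton | with_reducible apply IntF.union | with_reducible apply IntF.iimage | with_reducible apply IntF.ite | with_reducible apply IntF.the | with_reducible apply IntF.irec | with_reducible apply IntF.succ | with_reducible apply IntF.val | with_reducible apply IntF.mk | (with_reducible refine Int.comp ?_ ?_; assumption) | (with_reducible refine Int.comp₂ ?_ ?_ ?_; assumption) | (with_reducible refine Int.comp₃ ?_ ?_ ?_ ?_; assumption) | (with_reducible refine Int.comp₄ ?_ ?_ ?_ ?_ ?_; assumption) | (with_reducible refine IntF.comp ?_ ?_; assumption) | (with_reducible refine IntF.comp₂ ?_ ?_ ?_; assumption) | (with_reducible refine IntF.comp₃ ?_ ?_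 ?_ ?_; assumption) | with_reducible apply IntF.pair))

theorem SS.zero {S : IPow N β} : SS (0, S) ↔ S = ∅ := by
  have h := int_rm (N := N) (β := β)
  unfold SS SSf
  rw [irec_zero (by (repeat' (first | with_reducible exact IntF.id | with_reducible exact IntF.fst' | with_reducible exact IntF.snd' | with_reducible exact IntF.const _ | with_reducible exact Int.const _ | assumption | with_reducible apply Int.and | with_reducible apply Int.or | with_reducible apply Int.not | with_reducible apply Int.imp | with_reducible apply Int.iff | with_reducible apply Int.ne | with_reducible apply Int.eq | with_reducible apply Int.mem | with_reducible apply Int.subset | with_reducible apply Int.ltN | with_reducible apply Int.leN | with_reducible_and_instances apply Int.le | with_reducible_and_instances apply Int.lt | with_reducible apply Int.all | with_reducible apply Int.ex | with_reducible apply IntF.fst | with_reducible apply IntF.snd | with_reducible apply IntF.app | with_reducible apply IntF.inl | with_reducible apply IntF.inr | with_reducible_and_instances apply IntF.mul | with_reducible_and_instances apply IntF.inv | with_reducible_and_instances apply IntF.add | with_reducible_and_instances apply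 IntF.sub | with_reducible_and_instances apply IntF.neg | with_reducible_and_instances apply IntF.smul | with_reducible apply Int.fin | with_reducible apply IntF.sep | with_reducible apply IntF.lam | with_reducible apply IntF.insert | with_reducible apply IntF.singleton | with_reducible apply IntF.union | with_reducible apply IntF.iimage | with_reducible apply IntF.ite | with_reducible apply IntF.the | with_reducible apply IntF.irec | with_reducible apply IntF.succ | with_reducible apply IntF.val | with_reducible apply IntF.mk | (with_reducible refine Int.comp ?_ ?_; assumption) | (with_reducible refine Int.comp₂ ?_ ?_ ?_; assumption) | (with_reducible refine Int.comp₃ ?_ ?_ ?_ ?_; assumption) | (with_reducible refine Int.comp₄ ?_ ?_ ?_ ?_ ?_; assumption) | (with_reducible refine IntF.comp ?_ ?_; assumption) | (with_reducible refine IntF.comp₂ ?_ ?_ ?_; assumption) | (with_reducible refine IntF.comp₃ ?_ ?_ ?_ ?_; assumption) | with_reducible apply IntF.pair)))]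
  exact mem_singleton

theorem SS.succ {m : INat N} {S : IPow N β} : SS (m.succ, S) ↔ ∀ a, a ∈ S → SS (m, rm S a) := by
  have h := int_rm (N := N) (β := β)
  unfold SS SSf
  rw [irec_succ (by (repeat' (first | with_reducible exact IntF.id | with_reducible exact IntF.fst' | with_reducible exact IntF.snd' | with_reducible exact IntF.const _ | with_reducible exact Int.const _ | assumption | with_reducible apply Int.and | with_reducible apply Int.or | with_reducible apply Int.not | with_reducible apply Int.imp | with_reducible apply Int.iff | with_reducible apply Int.ne | with_reducible apply Int.eq | with_reducible apply Int.mem | with_reducible apply Int.subset | with_reducible apply Int.ltN | with_reducible apply Int.leN | with_reducible_and_instances apply Int.le | with_reducible_and_instances apply Int.lt | with_reducible apply Int.all | with_reducible apply Int.ex | with_reducible apply IntF.fst | with_reducible apply IntF.snd | with_reducible apply IntF.app | with_reducible apply IntF.inl | with_reducible apply IntF.inr | with_reducible_and_instances apply IntF.mul | with_reducible_and_instances apply IntF.inv | with_reducible_and_instances apply IntF.add | with_reducible_and_instances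 apply IntF.sub | with_reducible_and_instances apply IntF.neg | with_reducible_and_instances apply IntF.smul | with_reducible apply Int.fin | with_reducible apply IntF.sep | with_reducible apply IntF.lam | with_reducible apply IntF.insert | with_reducible apply IntF.singleton | with_reducible apply IntF.union | with_reducible apply IntF.iimage | with_reducible apply IntF.ite | with_reducible apply IntF.the | with_reducible apply IntF.irec | with_reducible apply IntF.succ | with_reducible apply IntF.val | with_reducible apply IntF.mk | (with_reducible refine Int.comp ?_ ?_; assumption) | (with_reducible refine Int.comp₂ ?_ ?_ ?_; assumption) | (with_reducible refine Int.comp₃ ?_ ?_ ?_ ?_; assumption) | (with_reducible refine Int.comp₄ ?_ ?_ ?_ ?_ ?_; assumption) | (with_reducible refine IntF.comp ?_ ?_; assumption) | (with_reducible refine IntF.comp₂ ?_ ?_ ?_; assumption) | (with_reducible refine IntF.comp₃ ?_ ?_ ?_ ?_; assumption) | with_reducible apply IntF.pair)))]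
  exact mem_sep (by (repeat' (first | with_reducible exact IntF.id | with_reducible exact IntF.fst' | with_reducible exact IntF.snd' | with_reducible exact IntF.const _ | with_reducible exact Int.const _ | assumption | with_reducible apply Int.and | with_reducible apply Int.or | with_reducible apply Int.not | with_reducible apply Int.imp | with_reducible apply Int.iff | with_reducible apply Int.ne | with_reducible apply Int.eq | with_reducible apply Int.mem | with_reducible apply Int.subset | with_reducible apply Int.ltN | with_reducible apply Int.leN | with_reducible_and_instances apply Int.le | with_reducible_and_instances apply Int.lt | with_reducible apply Int.all | with_reducible apply Int.ex | with_reducible apply IntF.fst | with_reducible apply IntF.snd | with_reducible apply IntF.app | with_reducible apply IntF.inl | with_reducible apply IntF.inr | with_reducible_and_instances apply IntF.mul | with_reducible_and_instances apply IntF.inv | with_reducible_and_instances apply IntF.add | with_reducible_and_instances apply IntF.sub | with_reducible_and_instances apply IntF.neg | with_reducible_and_instances apply IntF.smul | with_reducible apply Int.fin | with_reducible apply IntF.sep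 | with_reducible apply IntF.lam | with_reducible apply IntF.insert | with_reducible apply IntF.singleton | with_reducible apply IntF.union | with_reducible apply IntF.iimage | with_reducible apply IntF.ite | with_reducible apply IntF.the | with_reducible apply IntF.irec | with_reducible apply IntF.succ | with_reducible apply IntF.val | with_reducible apply IntF.mk | (with_reducible refine Int.comp ?_ ?_; assumption) | (with_reducible refine Int.comp₂ ?_ ?_ ?_; assumption) | (with_reducible refine Int.comp₃ ?_ ?_ ?_ ?_; assumption) | (with_reducible refine Int.comp₄ ?_ ?_ ?_ ?_ ?_; assumption) | (with_reducible refine IntF.comp ?_ ?_; assumption) | (with_reducible refine IntF.comp₂ ?_ ?_ ?_; assumption) | (with_reducible refine IntF.comp₃ ?_ ?_ ?_ ?_; assumption) | with_reducible apply IntF.pair)))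

theorem SS.mono1 (m : INat N) : ∀ S : IPow N β, SS (m, S) → SS (m.succ, S) := by
  have h := int_rm (N := N) (β := β)
  have hS := int_SS (N := N) (β := β)
  refine INat.ind (p := fun m => ∀ S : IPow N β, SS (m, S) → SS (m.succ, S)) (by (repeat' (first | with_reducible exact IntF.id | with_reducible exact IntF.fst' | with_reducible exact IntF.snd' | with_reducible exact IntF.const _ | with_reducible exact Int.const _ | assumption | with_reducible apply Int.and | with_reducible apply Int.or | with_reducible apply Int.not | with_reducible apply Int.imp | with_reducible apply Int.iff | with_reducible apply Int.ne | with_reducible apply Int.eq | with_reducible apply Int.mem | with_reducible apply Int.subset | with_reducible apply Int.ltN | with_reducible apply Int.leN | with_reducible_and_instances apply Int.le | with_reducible_and_instances apply Int.lt | with_reducible apply Int.all | with_reducible apply Int.ex | with_reducible apply IntF.fst | with_reducible apply IntF.snd | with_reducible apply IntF.app | with_reducible apply IntF.inl | with_reducible apply IntF.inr | with_reducible_and_instances apply IntF.mul | with_reducible_and_instances apply IntF.inv | with_reducible_and_instances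 apply IntF.add | with_reducible_and_instances apply IntF.sub | with_reducible_and_instances apply IntF.neg | with_reducible_and_instances apply IntF.smul | with_reducible apply Int.fin | with_reducible apply IntF.sep | with_reducible apply IntF.lam | with_reducible apply IntF.insert | with_reducible apply IntF.singleton | with_reducible apply IntF.union | with_reducible apply IntF.iimage | with_reducible apply IntF.ite | with_reducible apply IntF.the | with_reducible apply IntF.irec | with_reducible apply IntF.succ | with_reducible apply IntF.val | with_reducible apply IntF.mk | (with_reducible refine Int.comp ?_ ?_; assumption) | (with_reducible refine Int.comp₂ ?_ ?_ ?_; assumption) | (with_reducible refine Int.comp₃ ?_ ?_ ?_ ?_; assumption) | (with_reducible refine Int.comp₄ ?_ ?_ ?_ ?_ ?_; assumption) | (with_reducible refine IntF.comp ?_ ?_; assumption) | (with_reducible refine IntF.comp₂ ?_ ?_ ?_; assumption) | (with_reducible refine IntF.comp₃ ?_ ?_ ?_ ?_; assumption) | with_reducible apply IntF.pair))) ?_ ?_ m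
  · intro S h1
    rw [SS.zero.1 h1]
    exact SS.succ.2 fun a ha => absurd ha (by simp)
  · intro m ih S h1
    exact SS.succ.2 fun a ha => ih _ (SS.succ.1 h1 a ha)

theorem SS.mono {m n : INat N} (h : m ≤ n) {S : IPow N β} (h1 : SS (m, S)) : SS (n, S) := by
  have hS := int_SS (N := N) (β := β)
  revert h
  refine INat.ind (p := fun n => m ≤ n → SS (n, S)) (by (repeat' (first | with_reducible exact IntF.id | with_reducible exact IntF.fst' | with_reducible exact IntF.snd' | with_reducible exact IntF.const _ | with_reducible exact Int.const _ | assumption | with_reducible apply Int.and | with_reducible apply Int.or | with_reducible apply Int.not | with_reducible apply Int.imp | with_reducible apply Int.iff | with_reducible apply Int.ne | with_reducible apply Int.eq | with_reducible apply Int.mem | with_reducible apply Int.subset | with_reducible apply Int.ltN | with_reducible apply Int.leN | with_reducible_and_instances apply Int.le | with_reducible_and_instances apply Int.lt | with_reducible apply Int.all | with_reducible apply Int.ex | with_reducible apply IntF.fst | with_reducible apply IntF.snd | with_reducible apply IntF.app | with_reducible apply IntF.inl | with_reducible apply IntF.inr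 | with_reducible_and_instances apply IntF.mul | with_reducible_and_instances apply IntF.inv | with_reducible_and_instances apply IntF.add | with_reducible_and_instances apply IntF.sub | with_reducible_and_instances apply IntF.neg | with_reducible_and_instances apply IntF.smul | with_reducible apply Int.fin | with_reducible apply IntF.sep | with_reducible apply IntF.lam | with_reducible apply IntF.insert | with_reducible apply IntF.singleton | with_reducible apply IntF.union | with_reducible apply IntF.iimage | with_reducible apply IntF.ite | with_reducible apply IntF.the | with_reducible apply IntF.irec | with_reducible apply IntF.succ | with_reducible apply IntF.val | with_reducible apply IntF.mk | (with_reducible refine Int.comp ?_ ?_; assumption) | (with_reducible refine Int.comp₂ ?_ ?_ ?_; assumption) | (with_reducible refine Int.comp₃ ?_ ?_ ?_ ?_; assumption) | (with_reducible refine Int.comp₄ ?_ ?_ ?_ ?_ ?_; assumption) | (with_reducible refine IntF.comp ?_ ?_; assumption) | (with_reducible refine IntF.comp₂ ?_ ?_ ?_; assumption) | (with_reducible refine IntF.comp₃ ?_ ?_ ?_ ?_; assumption) | with_reducible apply IntF.pair))) ?_ ?_ n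
  · intro h
    rcases h.lt_or_eq with h2 | rfl
    · exact absurd h2 INat.not_lt_zero
    · exact h1
  · intro n ih h
    rcases h.lt_or_eq with h2 | rfl
    · exact SS.mono1 _ _ (ih (INat.lt_succ_iff.1 h2))
    · exact h1

theorem SS.empty (m : INat N) : SS (m, (∅ : IPow N β)) :=
  SS.mono (INat.zero_le m) (SS.zero.2 rfl)

theorem SS.ins (m : INat N) : ∀ (S : IPow N β) (a : β), SS (m, S) → SS (m.succ, insert a S) := by
  have hS := int_SS (N := N) (β := β)
  refine INat.ind (p := fun m => ∀ (S : IPow N β) (a : β), SS (m, S) → SS (m.succ, insert a S))
    (by (repeat' (first | with_reducible exact IntF.id | with_reducible exact IntF.fst' | with_reducible exact IntF.snd' | with_reducible exact IntF.const _ | with_reducible exact Int.const _ | assumption | with_reducible apply Int.and | with_reducible apply Int.or | with_reducible apply Int.not | with_reducible apply Int.imp | with_reducible apply Int.iff | with_reducible apply Int.ne | with_reducible apply Int.eq | with_reducible apply Int.mem | with_reducible apply Int.subset | with_reducible apply Int.ltN | with_reducible apply Int.leN | with_reducible_and_instances apply Int.le | with_reducible_and_instances apply Int.lt | with_reducible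 apply Int.all | with_reducible apply Int.ex | with_reducible apply IntF.fst | with_reducible apply IntF.snd | with_reducible apply IntF.app | with_reducible apply IntF.inl | with_reducible apply IntF.inr | with_reducible_and_instances apply IntF.mul | with_reducible_and_instances apply IntF.inv | with_reducible_and_instances apply IntF.add | with_reducible_and_instances apply IntF.sub | with_reducible_and_instances apply IntF.neg | with_reducible_and_instances apply IntF.smul | with_reducible apply Int.fin | with_reducible apply IntF.sep | with_reducible apply IntF.lam | with_reducible apply IntF.insert | with_reducible apply IntF.singleton | with_reducible apply IntF.union | with_reducible apply IntF.iimage | with_reducible apply IntF.ite | with_reducible apply IntF.the | with_reducible apply IntF.irec | with_reducible apply IntF.succ | with_reducible apply IntF.val | with_reducible apply IntF.mk | (with_reducible refine Int.comp ?_ ?_; assumption) | (with_reducible refine Int.comp₂ ?_ ?_ ?_; assumption) | (with_reducible refine Int.comp₃ ?_ ?_ ?_ ?_; assumption) | (with_reducible refine Int.comp₄ ?_ ?_ ?_ ?_ ?_; assumption) | (with_reducible refine IntF.comp ?_ ?_; assumption) | (with_reducible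 refine IntF.comp₂ ?_ ?_ ?_; assumption) | (with_reducible refine IntF.comp₃ ?_ ?_ ?_ ?_; assumption) | with_reducible apply IntF.pair))) ?_ ?_ m
  · intro S a h1
    rw [SS.zero.1 h1]
    refine SS.succ.2 fun b hb => SS.zero.2 ?_
    refine IPow.ext' fun c => ?_
    rw [mem_rm, mem_insert]
    rcases mem_insert.1 hb with rfl | hb
    · simp
    · exact absurd hb (by simp)
  · intro m ih S a h1
    refine SS.succ.2 fun b hb => ?_
    by_cases hba : b = a
    · subst hba
      by_cases hbS : b ∈ S
      · have h2 : rm (insert b S) b = rm S b := IPow.ext' fun c => by
          rw [mem_rm, mem_rm, mem_insert]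
          exact ⟨fun h => ⟨h.1.resolve_left h.2, h.2⟩, fun h => ⟨Or.inr h.1, h.2⟩⟩
        rw [h2]
        exact SS.mono1 _ _ (SS.succ.1 h1 b hbS)
      · have h2 : rm (insert b S) b = S := IPow.ext' fun c => by
          rw [mem_rm, mem_insert]
          exact ⟨fun h => h.1.resolve_left h.2, fun h => ⟨Or.inr h, fun h3 => hbS (h3 ▸ h)⟩⟩
        rw [h2]
        exact h1
    · have hbS : b ∈ S := (mem_insert.1 hb).resolve_left hba
      have h2 : rm (insert a S) b = insert a (rm S b) := IPow.ext' fun c => by
        rw [mem_rm, mem_insert, mem_insert, mem_rm]
        constructor
        · rintro ⟨rfl | h3, h4⟩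
          · exact Or.inl rfl
          · exact Or.inr ⟨h3, h4⟩
        · rintro (rfl | ⟨h3, h4⟩)
          · exact ⟨Or.inl rfl, fun h => hba h.symm⟩
          · exact ⟨Or.inr h3, h4⟩
      rw [h2]
      exact ih _ _ (SS.succ.1 h1 b hbS)

theorem SS.exists {S : IPow N β} (hS : IFin S) : ∃ m, SS (m, S) := by
  have hI := int_SS (N := N) (β := β)
  refine IFin.ind (p := fun S => ∃ m, SS (m, S)) (by (repeat' (first | with_reducible exact IntF.id | with_reducible exact IntF.fst' | with_reducible exact IntF.snd' | with_reducible exact IntF.const _ | with_reducible exact Int.const _ | assumption | with_reducible apply Int.and | with_reducible apply Int.or | with_reducible apply Int.not | with_reducible apply Int.imp | with_reducible apply Int.iff | with_reducible apply Int.ne | with_reducible apply Int.eq | with_reducible apply Int.mem | with_reducible apply Int.subset | with_reducible apply Int.ltN | with_reducible apply Int.leN | with_reducible_and_instances apply Int.le | with_reducible_and_instances apply Int.lt | with_reducible apply Int.all | with_reducible apply Int.ex | with_reducible apply IntF.fst | with_reducible apply IntF.snd | with_reducible apply IntF.app | with_reducible apply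 IntF.inl | with_reducible apply IntF.inr | with_reducible_and_instances apply IntF.mul | with_reducible_and_instances apply IntF.inv | with_reducible_and_instances apply IntF.add | with_reducible_and_instances apply IntF.sub | with_reducible_and_instances apply IntF.neg | with_reducible_and_instances apply IntF.smul | with_reducible apply Int.fin | with_reducible apply IntF.sep | with_reducible apply IntF.lam | with_reducible apply IntF.insert | with_reducible apply IntF.singleton | with_reducible apply IntF.union | with_reducible apply IntF.iimage | with_reducible apply IntF.ite | with_reducible apply IntF.the | with_reducible apply IntF.irec | with_reducible apply IntF.succ | with_reducible apply IntF.val | with_reducible apply IntF.mk | (with_reducible refine Int.comp ?_ ?_; assumption) | (with_reducible refine Int.comp₂ ?_ ?_ ?_; assumption) | (with_reducible refine Int.comp₃ ?_ ?_ ?_ ?_; assumption) | (with_reducible refine Int.comp₄ ?_ ?_ ?_ ?_ ?_; assumption) | (with_reducible refine IntF.comp ?_ ?_; assumption) | (with_reducible refine IntF.comp₂ ?_ ?_ ?_; assumption) | (with_reducible refine IntF.comp₃ ?_ ?_ ?_ ?_; assumption) | with_reducible apply IntF.pair))) ⟨0, SS.zero.2 rfl⟩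 ?_ S hS
  rintro S a - - ⟨m, hm⟩
  exact ⟨m.succ, SS.ins m S a hm⟩

theorem SS.fin (m : INat N) : ∀ S : IPow N β, SS (m, S) → IFin S := by
  have hI := int_SS (N := N) (β := β)
  refine INat.ind (p := fun m => ∀ S : IPow N β, SS (m, S) → IFin S) (by (repeat' (first | with_reducible exact IntF.id | with_reducible exact IntF.fst' | with_reducible exact IntF.snd' | with_reducible exact IntF.const _ | with_reducible exact Int.const _ | assumption | with_reducible apply Int.and | with_reducible apply Int.or | with_reducible apply Int.not | with_reducible apply Int.imp | with_reducible apply Int.iff | with_reducible apply Int.ne | with_reducible apply Int.eq | with_reducible apply Int.mem | with_reducible apply Int.subset | with_reducible apply Int.ltN | with_reducible apply Int.leN | with_reducible_and_instances apply Int.le | with_reducible_and_instances apply Int.lt | with_reducible apply Int.all | with_reducible apply Int.ex | with_reducible apply IntF.fst | with_reducible apply IntF.snd | with_reducible apply IntF.app | with_reducible apply IntF.inl | with_reducible apply IntF.inr | with_reducible_and_instances apply IntF.mul | with_reducible_and_instances apply IntF.inv | with_reducible_and_instances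 apply IntF.add | with_reducible_and_instances apply IntF.sub | with_reducible_and_instances apply IntF.neg | with_reducible_and_instances apply IntF.smul | with_reducible apply Int.fin | with_reducible apply IntF.sep | with_reducible apply IntF.lam | with_reducible apply IntF.insert | with_reducible apply IntF.singleton | with_reducible apply IntF.union | with_reducible apply IntF.iimage | with_reducible apply IntF.ite | with_reducible apply IntF.the | with_reducible apply IntF.irec | with_reducible apply IntF.succ | with_reducible apply IntF.val | with_reducible apply IntF.mk | (with_reducible refine Int.comp ?_ ?_; assumption) | (with_reducible refine Int.comp₂ ?_ ?_ ?_; assumption) | (with_reducible refine Int.comp₃ ?_ ?_ ?_ ?_; assumption) | (with_reducible refine Int.comp₄ ?_ ?_ ?_ ?_ ?_; assumption) | (with_reducible refine IntF.comp ?_ ?_; assumption) | (with_reducible refine IntF.comp₂ ?_ ?_ ?_; assumption) | (with_reducible refine IntF.comp₃ ?_ ?_ ?_ ?_; assumption) | with_reducible apply IntF.pair))) ?_ ?_ m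
  · intro S h
    rw [SS.zero.1 h]
    exact IFin.empty
  · intro m ih S h
    by_cases hne : ∃ a, a ∈ S
    · obtain ⟨a, ha⟩ := hne
      refine ((ih _ (SS.succ.1 h a ha)).insert a).subset fun b hb => ?_
      rw [mem_insert, mem_rm]
      by_cases hba : b = a
      · exact Or.inl hba
      · exact Or.inr ⟨hb, hba⟩
    · exact IFin.empty.subset fun b hb => absurd ⟨b, hb⟩ hne

/-- The points `q.2.1` and `q.2.2` agree on `q.1`. -/
def Ag (V : α × β → Prop) (q : IPow N β × (α × α)) : Prop :=
  ∀ i, i ∈ q.1 → (V (q.2.1, i) ↔ V (q.2.2, i))

/-- The basic open set of the points that agree with `q.2` on `q.1` is contained in `Z`. -/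
def Gd (V : α × β → Prop) (Z : α → Prop) (q : IPow N β × α) : Prop :=
  ∀ w, Ag V (q.1, (w, q.2)) → Z w

/-- The set is closed. -/
def Cl (N : Type u) [LSet.Structure N] [IsModel N] {α β : Type u} [ITy N α] [ITy N β]
    (V : α × β → Prop) (Z : α → Prop) : Prop :=
  ∀ x, (∀ F : IPow N β, IFin F → ∃ y, Ag V (F, (y, x)) ∧ Z y) → Z x

variable {V : α × β → Prop} (hV : Int N V)

include hV in
theorem int_Ag : Int N (fun q : IPow N β × (α × α) => Ag V q) := by
  unfold Ag
  (repeat' (first | with_reducible exact IntF.id | with_reducible exact IntF.fst' | with_reducible exact IntF.snd' | with_reducible exact IntF.const _ | with_reducible exact Int.const _ | assumption | with_reducible apply Int.and | with_reducible apply Int.or | with_reducible apply Int.not | with_reducible apply Int.imp | with_reducible apply Int.iff | with_reducible apply Int.ne | with_reducible apply Int.eq | with_reducible apply Int.mem | with_reducible apply Int.subset | with_reducible apply Int.ltN | with_reducible apply Int.leN | with_reducible_and_instances apply Int.le | with_reducible_and_instances apply Int.lt | with_reducible apply Int.all | with_reducible apply Int.ex | with_reducible apply IntF.fst | with_reducible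 apply IntF.snd | with_reducible apply IntF.app | with_reducible apply IntF.inl | with_reducible apply IntF.inr | with_reducible_and_instances apply IntF.mul | with_reducible_and_instances apply IntF.inv | with_reducible_and_instances apply IntF.add | with_reducible_and_instances apply IntF.sub | with_reducible_and_instances apply IntF.neg | with_reducible_and_instances apply IntF.smul | with_reducible apply Int.fin | with_reducible apply IntF.sep | with_reducible apply IntF.lam | with_reducible apply IntF.insert | with_reducible apply IntF.singleton | with_reducible apply IntF.union | with_reducible apply IntF.iimage | with_reducible apply IntF.ite | with_reducible apply IntF.the | with_reducible apply IntF.irec | with_reducible apply IntF.succ | with_reducible apply IntF.val | with_reducible apply IntF.mk | (with_reducible refine Int.comp ?_ ?_; assumption) | (with_reducible refine Int.comp₂ ?_ ?_ ?_; assumption) | (with_reducible refine Int.comp₃ ?_ ?_ ?_ ?_; assumption) | (with_reducible refine Int.comp₄ ?_ ?_ ?_ ?_ ?_; assumption) | (with_reducible refine IntF.comp ?_ ?_; assumption) | (with_reducible refine IntF.comp₂ ?_ ?_ ?_; assumption) | (with_reducible refine IntF.comp₃ ?_ ?_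 ?_ ?_; assumption) | with_reducible apply IntF.pair))

include hV in
theorem int_Gd {Z : α → Prop} (hZ : Int N Z) : Int N (fun q : IPow N β × α => Gd V Z q) := by
  have h := int_Ag hV
  unfold Gd
  (repeat' (first | with_reducible exact IntF.id | with_reducible exact IntF.fst' | with_reducible exact IntF.snd' | with_reducible exact IntF.const _ | with_reducible exact Int.const _ | assumption | with_reducible apply Int.and | with_reducible apply Int.or | with_reducible apply Int.not | with_reducible apply Int.imp | with_reducible apply Int.iff | with_reducible apply Int.ne | with_reducible apply Int.eq | with_reducible apply Int.mem | with_reducible apply Int.subset | with_reducible apply Int.ltN | with_reducible apply Int.leN | with_reducible_and_instances apply Int.le | with_reducible_and_instances apply Int.lt | with_reducible apply Int.all | with_reducible apply Int.ex | with_reducible apply IntF.fst | with_reducible apply IntF.snd | with_reducible apply IntF.app | with_reducible apply IntF.inl | with_reducible apply IntF.inr | with_reducible_and_instances apply IntF.mul | with_reducible_and_instances apply IntF.inv | with_reducible_and_instances apply IntF.add | with_reducible_and_instances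 apply IntF.sub | with_reducible_and_instances apply IntF.neg | with_reducible_and_instances apply IntF.smul | with_reducible apply Int.fin | with_reducible apply IntF.sep | with_reducible apply IntF.lam | with_reducible apply IntF.insert | with_reducible apply IntF.singleton | with_reducible apply IntF.union | with_reducible apply IntF.iimage | with_reducible apply IntF.ite | with_reducible apply IntF.the | with_reducible apply IntF.irec | with_reducible apply IntF.succ | with_reducible apply IntF.val | with_reducible apply IntF.mk | (with_reducible refine Int.comp ?_ ?_; assumption) | (with_reducible refine Int.comp₂ ?_ ?_ ?_; assumption) | (with_reducible refine Int.comp₃ ?_ ?_ ?_ ?_; assumption) | (with_reducible refine Int.comp₄ ?_ ?_ ?_ ?_ ?_; assumption) | (with_reducible refine IntF.comp ?_ ?_; assumption) | (with_reducible refine IntF.comp₂ ?_ ?_ ?_; assumption) | (with_reducible refine IntF.comp₃ ?_ ?_ ?_ ?_; assumption) | with_reducible apply IntF.pair))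

omit [ITy N α] in
theorem Gd.mono {Z : α → Prop} {K L : IPow N β} {x : α} (h : Gd V Z (K, x))
    (hKL : ∀ i, i ∈ K → i ∈ L) : Gd V Z (L, x) :=
  fun w hw => h w fun i hi => hw i (hKL i hi)

include hV in
theorem key (hreal : ∀ S : IPow N β, ∃ x : α, ∀ i, V (x, i) ↔ i ∈ S) {Z : α → Prop}
    (hZ : Int N Z) (hc : Cl N V Z) (m : INat N) : ∀ K : IPow N β, IFin K → ∀ x,
      (∀ G : IPow N β, IFin G → ∃ y, Ag V (G, (y, x)) ∧ ∃ F, SS (m, F) ∧ Gd V Z (K ∪ F, y)) →
      ∃ L, SS (m, L) ∧ Gd V Z (K ∪ L, x) := by
  have hA := int_Ag hV
  have hG := int_Gd hV hZ
  have hS := int_SS (N := N) (β := β)
  refine INat.ind (p := fun m => ∀ K : IPow N β, IFin K → ∀ x,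
      (∀ G : IPow N β, IFin G → ∃ y, Ag V (G, (y, x)) ∧ ∃ F, SS (m, F) ∧ Gd V Z (K ∪ F, y)) →
      ∃ L, SS (m, L) ∧ Gd V Z (K ∪ L, x)) (by (repeat' (first | with_reducible exact IntF.id | with_reducible exact IntF.fst' | with_reducible exact IntF.snd' | with_reducible exact IntF.const _ | with_reducible exact Int.const _ | assumption | with_reducible apply Int.and | with_reducible apply Int.or | with_reducible apply Int.not | with_reducible apply Int.imp | with_reducible apply Int.iff | with_reducible apply Int.ne | with_reducible apply Int.eq | with_reducible apply Int.mem | with_reducible apply Int.subset | with_reducible apply Int.ltN | with_reducible apply Int.leN | with_reducible_and_instances apply Int.le | with_reducible_and_instances apply Int.lt | with_reducible apply Int.all | with_reducible apply Int.ex | with_reducible apply IntF.fst | with_reducible apply IntF.snd | with_reducible apply IntF.app | with_reducible apply IntF.inl | with_reducible apply IntF.inr | with_reducible_and_instances apply IntF.mul | with_reducible_and_instances apply IntF.inv | with_reducible_and_instances apply IntF.add | with_reducible_and_instances apply IntF.sub | with_reducible_and_instances apply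 IntF.neg | with_reducible_and_instances apply IntF.smul | with_reducible apply Int.fin | with_reducible apply IntF.sep | with_reducible apply IntF.lam | with_reducible apply IntF.insert | with_reducible apply IntF.singleton | with_reducible apply IntF.union | with_reducible apply IntF.iimage | with_reducible apply IntF.ite | with_reducible apply IntF.the | with_reducible apply IntF.irec | with_reducible apply IntF.succ | with_reducible apply IntF.val | with_reducible apply IntF.mk | (with_reducible refine Int.comp ?_ ?_; assumption) | (with_reducible refine Int.comp₂ ?_ ?_ ?_; assumption) | (with_reducible refine Int.comp₃ ?_ ?_ ?_ ?_; assumption) | (with_reducible refine Int.comp₄ ?_ ?_ ?_ ?_ ?_; assumption) | (with_reducible refine IntF.comp ?_ ?_; assumption) | (with_reducible refine IntF.comp₂ ?_ ?_ ?_; assumption) | (with_reducible refine IntF.comp₃ ?_ ?_ ?_ ?_; assumption) | with_reducible apply IntF.pair))) ?_ ?_ m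
  · intro K hK x h
    obtain ⟨y, hy, F, hF, hg⟩ := h K hK
    obtain rfl := SS.zero.1 hF
    refine ⟨∅, SS.zero.2 rfl, fun w hw => hg w fun i hi => ?_⟩
    have hiK : i ∈ K := (mem_union.1 hi).resolve_right (by simp)
    exact (hw i hi).trans (hy i hiK).symm
  · intro m ih K hK x h
    by_cases hc1 : ∃ a : β, ∀ G : IPow N β, IFin G → ∃ y, Ag V (G, (y, x)) ∧
        ∃ F, SS (m, F) ∧ Gd V Z (insert a K ∪ F, y)
    · obtain ⟨a, ha⟩ := hc1
      obtain ⟨L, hL, hg⟩ := ih (insert a K) (hK.insert a) x ha
      refine ⟨insert a L, SS.ins _ _ _ hL, hg.mono fun i hi => ?_⟩
      rw [mem_union, mem_insert] at hi ⊢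
      tauto
    · push Not at hc1
      refine ⟨∅, SS.empty _, fun w hw => hc w fun H hH => ?_⟩
      obtain ⟨G, hG1, hG2⟩ : ∃ G : IPow N β, IFin G ∧ ∀ a, a ∈ H → ∀ y, Ag V (G, (y, x)) →
          ∀ F, SS (m, F) → ¬ Gd V Z (insert a K ∪ F, y) := by
        obtain ⟨G, hG⟩ := IFin.exists_bound (r := fun (a : β) (G : IPow N β) => IFin G ∧
            ∀ y, Ag V (G, (y, x)) → ∀ F, SS (m, F) → ¬ Gd V Z (insert a K ∪ F, y))
          (by (repeat' (first | with_reducible exact IntF.id | with_reducible exact IntF.fst' | with_reducible exact IntF.snd' | with_reducible exact IntF.const _ | with_reducible exact Int.const _ | assumption | with_reducible apply Int.and | with_reducible apply Int.or | with_reducible apply Int.not | with_reducible apply Int.imp | with_reducible apply Int.iff | with_reducible apply Int.ne | with_reducible apply Int.eq | with_reducible apply Int.mem | with_reducible apply Int.subset | with_reducible apply Int.ltN | with_reducible apply Int.leN | with_reducible_and_instances apply Int.le | with_reducible_and_instances apply Int.lt | with_reducible apply Int.all | with_reducible apply Int.ex | with_reducible apply IntF.fst | with_reducible apply IntF.snd | with_reducible apply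 IntF.app | with_reducible apply IntF.inl | with_reducible apply IntF.inr | with_reducible_and_instances apply IntF.mul | with_reducible_and_instances apply IntF.inv | with_reducible_and_instances apply IntF.add | with_reducible_and_instances apply IntF.sub | with_reducible_and_instances apply IntF.neg | with_reducible_and_instances apply IntF.smul | with_reducible apply Int.fin | with_reducible apply IntF.sep | with_reducible apply IntF.lam | with_reducible apply IntF.insert | with_reducible apply IntF.singleton | with_reducible apply IntF.union | with_reducible apply IntF.iimage | with_reducible apply IntF.ite | with_reducible apply IntF.the | with_reducible apply IntF.irec | with_reducible apply IntF.succ | with_reducible apply IntF.val | with_reducible apply IntF.mk | (with_reducible refine Int.comp ?_ ?_; assumption) | (with_reducible refine Int.comp₂ ?_ ?_ ?_; assumption) | (with_reducible refine Int.comp₃ ?_ ?_ ?_ ?_; assumption) | (with_reducible refine Int.comp₄ ?_ ?_ ?_ ?_ ?_; assumption) | (with_reducible refine IntF.comp ?_ ?_; assumption) | (with_reducible refine IntF.comp₂ ?_ ?_ ?_; assumption) | (with_reducible refine IntF.comp₃ ?_ ?_ ?_ ?_; assumption) | with_reducible apply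 IntF.pair))) (fun b c => by
            by_cases hb : IFin b
            · by_cases hc' : IFin c
              · refine ⟨b ∪ c, fun a ha => ⟨hb.union hc', fun y hy F hF => ?_⟩⟩
                rcases ha with ha | ha
                · exact ha.2 y (fun i hi => hy i (mem_union.2 (Or.inl hi))) F hF
                · exact ha.2 y (fun i hi => hy i (mem_union.2 (Or.inr hi))) F hF
              · exact ⟨b, fun a ha => ha.elim id fun h => absurd h.1 hc'⟩
            · exact ⟨c, fun a ha => ha.elim (fun h => absurd h.1 hb) id⟩) ⟨∅⟩ hH
          (fun a _ => by
            obtain ⟨G, h1, h2⟩ := hc1 a
            exact ⟨G, h1, h2⟩)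
        by_cases hne : ∃ a, a ∈ H
        · obtain ⟨a, ha⟩ := hne
          exact ⟨G, (hG a ha).1, fun a ha => (hG a ha).2⟩
        · exact ⟨∅, IFin.empty, fun a ha => absurd ⟨a, ha⟩ hne⟩
      obtain ⟨y, hy, F, hF, hg⟩ := h (G ∪ K) (hG1.union hK)
      have hdis : ∀ a, a ∈ F → a ∉ H := by
        intro a haF haH
        refine hG2 a haH y (fun i hi => hy i (mem_union.2 (Or.inl hi))) (rm F a)
          (SS.succ.1 hF a haF) (hg.mono fun i hi => ?_)
        rw [mem_union, mem_insert, mem_rm]
        rw [mem_union] at hi
        by_cases hia : i = a
        · exact Or.inl (Or.inl hia)
        · exact hi.elim (fun h => Or.inl (Or.inr h)) fun h => Or.inr ⟨h, hia⟩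
      obtain ⟨v, hv⟩ := hreal (sep N fun i => (i ∈ H ∧ V (w, i)) ∨ (¬ i ∈ H ∧ V (y, i)))
      have hv' : ∀ i, V (v, i) ↔ (i ∈ H ∧ V (w, i)) ∨ (¬ i ∈ H ∧ V (y, i)) := fun i =>
        (hv i).trans (mem_sep (by (repeat' (first | with_reducible exact IntF.id | with_reducible exact IntF.fst' | with_reducible exact IntF.snd' | with_reducible exact IntF.const _ | with_reducible exact Int.const _ | assumption | with_reducible apply Int.and | with_reducible apply Int.or | with_reducible apply Int.not | with_reducible apply Int.imp | with_reducible apply Int.iff | with_reducible apply Int.ne | with_reducible apply Int.eq | with_reducible apply Int.mem | with_reducible apply Int.subset | with_reducible apply Int.ltN | with_reducible apply Int.leN | with_reducible_and_instances apply Int.le | with_reducible_and_instances apply Int.lt | with_reducible apply Int.all | with_reducible apply Int.ex | with_reducible apply IntF.fst | with_reducible apply IntF.snd | with_reducible apply IntF.app | with_reducible apply IntF.inl | with_reducible apply IntF.inr | with_reducible_and_instances apply IntF.mul | with_reducible_and_instances apply IntF.inv | with_reducible_and_instances apply IntF.add | with_reducible_and_instances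 apply IntF.sub | with_reducible_and_instances apply IntF.neg | with_reducible_and_instances apply IntF.smul | with_reducible apply Int.fin | with_reducible apply IntF.sep | with_reducible apply IntF.lam | with_reducible apply IntF.insert | with_reducible apply IntF.singleton | with_reducible apply IntF.union | with_reducible apply IntF.iimage | with_reducible apply IntF.ite | with_reducible apply IntF.the | with_reducible apply IntF.irec | with_reducible apply IntF.succ | with_reducible apply IntF.val | with_reducible apply IntF.mk | (with_reducible refine Int.comp ?_ ?_; assumption) | (with_reducible refine Int.comp₂ ?_ ?_ ?_; assumption) | (with_reducible refine Int.comp₃ ?_ ?_ ?_ ?_; assumption) | (with_reducible refine Int.comp₄ ?_ ?_ ?_ ?_ ?_; assumption) | (with_reducible refine IntF.comp ?_ ?_; assumption) | (with_reducible refine IntF.comp₂ ?_ ?_ ?_; assumption) | (with_reducible refine IntF.comp₃ ?_ ?_ ?_ ?_; assumption) | with_reducible apply IntF.pair))))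
      refine ⟨v, fun i hi => ?_, hg v fun i hi => ?_⟩
      · rw [hv' i]
        tauto
      · by_cases hiH : i ∈ H
        · have hiK : i ∈ K := (mem_union.1 hi).resolve_right fun h => hdis i h hiH
          have h1 : V (w, i) ↔ V (x, i) := hw i (mem_union.2 (Or.inl hiK))
          have h2 : V (y, i) ↔ V (x, i) := hy i (mem_union.2 (Or.inr hiK))
          change V (v, i) ↔ V (y, i)
          rw [hv' i, h2, ← h1]
          tauto
        · change V (v, i) ↔ V (y, i)
          rw [hv' i]
          tauto

/-- The open sets of bounded depth. -/
def DD (N : Type u) [LSet.Structure N] [IsModel N] {α β : Type u} [ITy N α] [ITy N β]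
    (V : α × β → Prop) (Z : α → Prop) (q : INat N × α) : Prop :=
  ∃ F : IPow N β, SS (q.1, F) ∧ Gd V Z (F, q.2)

include hV in
theorem int_DD {Z : α → Prop} (hZ : Int N Z) : Int N (fun q : INat N × α => DD N V Z q) := by
  have hG := int_Gd hV hZ
  have hS := int_SS (N := N) (β := β)
  unfold DD
  (repeat' (first | with_reducible exact IntF.id | with_reducible exact IntF.fst' | with_reducible exact IntF.snd' | with_reducible exact IntF.const _ | with_reducible exact Int.const _ | assumption | with_reducible apply Int.and | with_reducible apply Int.or | with_reducible apply Int.not | with_reducible apply Int.imp | with_reducible apply Int.iff | with_reducible apply Int.ne | with_reducible apply Int.eq | with_reducible apply Int.mem | with_reducible apply Int.subset | with_reducible apply Int.ltN | with_reducible apply Int.leN | with_reducible_and_instances apply Int.le | with_reducible_and_instances apply Int.lt | with_reducible apply Int.all | with_reducible apply Int.ex | with_reducible apply IntF.fst | with_reducible apply IntF.snd | with_reducible apply IntF.app | with_reducible apply IntF.inl | with_reducible apply IntF.inr | with_reducible_and_instances apply IntF.mul | with_reducible_and_instances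 apply IntF.inv | with_reducible_and_instances apply IntF.add | with_reducible_and_instances apply IntF.sub | with_reducible_and_instances apply IntF.neg | with_reducible_and_instances apply IntF.smul | with_reducible apply Int.fin | with_reducible apply IntF.sep | with_reducible apply IntF.lam | with_reducible apply IntF.insert | with_reducible apply IntF.singleton | with_reducible apply IntF.union | with_reducible apply IntF.iimage | with_reducible apply IntF.ite | with_reducible apply IntF.the | with_reducible apply IntF.irec | with_reducible apply IntF.succ | with_reducible apply IntF.val | with_reducible apply IntF.mk | (with_reducible refine Int.comp ?_ ?_; assumption) | (with_reducible refine Int.comp₂ ?_ ?_ ?_; assumption) | (with_reducible refine Int.comp₃ ?_ ?_ ?_ ?_; assumption) | (with_reducible refine Int.comp₄ ?_ ?_ ?_ ?_ ?_; assumption) | (with_reducible refine IntF.comp ?_ ?_; assumption) | (with_reducible refine IntF.comp₂ ?_ ?_ ?_; assumption) | (with_reducible refine IntF.comp₃ ?_ ?_ ?_ ?_; assumption) | with_reducible apply IntF.pair))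

theorem DD.mono {Z : α → Prop} {m n : INat N} (h : m ≤ n) {x : α} (h1 : DD N V Z (m, x)) :
    DD N V Z (n, x) := by
  obtain ⟨F, h2, h3⟩ := h1
  exact ⟨F, SS.mono h h2, h3⟩

theorem DD.open {Z : α → Prop} {m : INat N} {x : α} (h : DD N V Z (m, x)) :
    ∃ F : IPow N β, IFin F ∧ ∀ y, Ag V (F, (y, x)) → DD N V Z (m, y) := by
  obtain ⟨F, h1, h2⟩ := h
  exact ⟨F, SS.fin _ _ h1, fun y hy => ⟨F, h1, fun w hw => h2 w fun i hi =>
    (hw i hi).trans (hy i hi)⟩⟩

include hV in
theorem DD.closed (hreal : ∀ S : IPow N β, ∃ x : α, ∀ i, V (x, i) ↔ i ∈ S) {Z : α → Prop}
    (hZ : Int N Z) (hc : Cl N V Z) {m : INat N} {x : α} (h : ¬ DD N V Z (m, x)) :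
    ∃ F : IPow N β, IFin F ∧ ∀ y, Ag V (F, (y, x)) → ¬ DD N V Z (m, y) := by
  by_contra hcon
  push Not at hcon
  obtain ⟨L, h1, h2⟩ := key hV hreal hZ hc m ∅ IFin.empty x fun G hG => by
    obtain ⟨y, h1, F, h2, h3⟩ := hcon G hG
    exact ⟨y, h1, F, h2, h3.mono fun i hi => mem_union.2 (Or.inr hi)⟩
  exact h ⟨L, h1, h2.mono fun i hi => (mem_union.1 hi).resolve_left (by simp)⟩

theorem DD.of {Z : α → Prop} {x : α} {F : IPow N β} (hF : IFin F) (h : Gd V Z (F, x)) :
    ∃ m, DD N V Z (m, x) := by
  obtain ⟨m, hm⟩ := SS.exists hF
  exact ⟨m, F, hm, h⟩

include hV in
/-- The separation theorem. -/
theorem exists_sep (hreal : ∀ S : IPow N β, ∃ x : α, ∀ i, V (x, i) ↔ i ∈ S) {Z Z' : α → Prop}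
    (hZ : Int N Z) (hZ' : Int N Z') (hc : Cl N V Z) (hc' : Cl N V Z')
    (h : ∀ x, (∃ F : IPow N β, IFin F ∧ Gd V Z (F, x)) ∨ ∃ F : IPow N β, IFin F ∧ Gd V Z' (F, x)) :
    ∃ C : α → Prop, Int N C ∧
      (∀ x, C x → ∃ F : IPow N β, IFin F ∧ ∀ y, Ag V (F, (y, x)) → C y) ∧
      (∀ x, ¬ C x → ∃ F : IPow N β, IFin F ∧ ∀ y, Ag V (F, (y, x)) → ¬ C y) ∧
      (∀ x, ¬ Z' x → C x) ∧ ∀ x, ¬ Z x → ¬ C x := by
  have hD := int_DD hV hZ
  have hD' := int_DD hV hZ'
  have hC : Int N (fun x : α => ∃ m : INat N, DD N V Z (m, x) ∧ ∀ k, k < m → ¬ DD N V Z' (k, x)) := by
    (repeat' (first | with_reducible exact IntF.id | with_reducible exact IntF.fst' | with_reducible exact IntF.snd' | with_reducible exact IntF.const _ | with_reducible exact Int.const _ | assumption | with_reducible apply Int.and | with_reducible apply Int.or | with_reducible apply Int.not | with_reducible apply Int.imp | with_reducible apply Int.iff | with_reducible apply Int.ne | with_reducible apply Int.eq | with_reducible apply Int.mem | with_reducible apply Int.subset | with_reducible apply Int.ltN | with_reducible apply Int.leN | with_reducible_and_instances apply Int.le | with_reducible_and_instances apply Int.lt | with_reducible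 apply Int.all | with_reducible apply Int.ex | with_reducible apply IntF.fst | with_reducible apply IntF.snd | with_reducible apply IntF.app | with_reducible apply IntF.inl | with_reducible apply IntF.inr | with_reducible_and_instances apply IntF.mul | with_reducible_and_instances apply IntF.inv | with_reducible_and_instances apply IntF.add | with_reducible_and_instances apply IntF.sub | with_reducible_and_instances apply IntF.neg | with_reducible_and_instances apply IntF.smul | with_reducible apply Int.fin | with_reducible apply IntF.sep | with_reducible apply IntF.lam | with_reducible apply IntF.insert | with_reducible apply IntF.singleton | with_reducible apply IntF.union | with_reducible apply IntF.iimage | with_reducible apply IntF.ite | with_reducible apply IntF.the | with_reducible apply IntF.irec | with_reducible apply IntF.succ | with_reducible apply IntF.val | with_reducible apply IntF.mk | (with_reducible refine Int.comp ?_ ?_; assumption) | (with_reducible refine Int.comp₂ ?_ ?_ ?_; assumption) | (with_reducible refine Int.comp₃ ?_ ?_ ?_ ?_; assumption) | (with_reducible refine Int.comp₄ ?_ ?_ ?_ ?_ ?_; assumption) | (with_reducible refine IntF.comp ?_ ?_; assumption) | (with_reducible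 refine IntF.comp₂ ?_ ?_ ?_; assumption) | (with_reducible refine IntF.comp₃ ?_ ?_ ?_ ?_; assumption) | with_reducible apply IntF.pair))
  have hCc : ∀ x, ¬ (∃ m : INat N, DD N V Z (m, x) ∧ ∀ k, k < m → ¬ DD N V Z' (k, x)) ↔
      ∃ m : INat N, DD N V Z' (m, x) ∧ ¬ DD N V Z (m, x) := by
    intro x
    constructor
    · intro h1
      obtain ⟨m, hm, hmin⟩ := INat.exists_least (p := fun m => DD N V Z (m, x) ∨ DD N V Z' (m, x))
        (by (repeat' (first | with_reducible exact IntF.id | with_reducible exact IntF.fst' | with_reducible exact IntF.snd' | with_reducible exact IntF.const _ | with_reducible exact Int.const _ | assumption | with_reducible apply Int.and | with_reducible apply Int.or | with_reducible apply Int.not | with_reducible apply Int.imp | with_reducible apply Int.iff | with_reducible apply Int.ne | with_reducible apply Int.eq | with_reducible apply Int.mem | with_reducible apply Int.subset | with_reducible apply Int.ltN | with_reducible apply Int.leN | with_reducible_and_instances apply Int.le | with_reducible_and_instances apply Int.lt | with_reducible apply Int.all | with_reducible apply Int.ex | with_reducible apply IntF.fst | with_reducible apply IntF.snd | with_reducible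 apply IntF.app | with_reducible apply IntF.inl | with_reducible apply IntF.inr | with_reducible_and_instances apply IntF.mul | with_reducible_and_instances apply IntF.inv | with_reducible_and_instances apply IntF.add | with_reducible_and_instances apply IntF.sub | with_reducible_and_instances apply IntF.neg | with_reducible_and_instances apply IntF.smul | with_reducible apply Int.fin | with_reducible apply IntF.sep | with_reducible apply IntF.lam | with_reducible apply IntF.insert | with_reducible apply IntF.singleton | with_reducible apply IntF.union | with_reducible apply IntF.iimage | with_reducible apply IntF.ite | with_reducible apply IntF.the | with_reducible apply IntF.irec | with_reducible apply IntF.succ | with_reducible apply IntF.val | with_reducible apply IntF.mk | (with_reducible refine Int.comp ?_ ?_; assumption) | (with_reducible refine Int.comp₂ ?_ ?_ ?_; assumption) | (with_reducible refine Int.comp₃ ?_ ?_ ?_ ?_; assumption) | (with_reducible refine Int.comp₄ ?_ ?_ ?_ ?_ ?_; assumption) | (with_reducible refine IntF.comp ?_ ?_; assumption) | (with_reducible refine IntF.comp₂ ?_ ?_ ?_; assumption) | (with_reducible refine IntF.comp₃ ?_ ?_ ?_ ?_; assumption) | with_reducible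 apply IntF.pair))) (by
          rcases h x with ⟨F, h2, h3⟩ | ⟨F, h2, h3⟩
          · obtain ⟨m, hm⟩ := DD.of h2 h3
            exact ⟨m, Or.inl hm⟩
          · obtain ⟨m, hm⟩ := DD.of h2 h3
            exact ⟨m, Or.inr hm⟩)
      have h2 : ¬ DD N V Z (m, x) := fun h3 => h1 ⟨m, h3, fun k hk h4 =>
        absurd (hmin k (Or.inr h4)) (not_le.2 hk)⟩
      exact ⟨m, hm.resolve_left h2, h2⟩
    · rintro ⟨m, h1, h2⟩ ⟨n, h3, h4⟩
      rcases le_or_gt n m with h5 | h5
      · exact h2 (h3.mono h5)
      · exact h4 m h5 h1
  refine ⟨_, hC, ?_, ?_, ?_, ?_⟩
  · rintro x ⟨m, h1, h2⟩
    obtain ⟨F, hF, h3⟩ := h1.open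
    rcases INat.eq_zero_or_succ m with rfl | ⟨n, rfl⟩
    · exact ⟨F, hF, fun y hy => ⟨0, h3 y hy, fun k hk => absurd hk INat.not_lt_zero⟩⟩
    · obtain ⟨G, hG, h4⟩ := DD.closed hV hreal hZ' hc' (h2 n (INat.lt_succ_iff.2 le_rfl))
      refine ⟨F ∪ G, hF.union hG, fun y hy => ⟨n.succ, h3 y fun i hi => hy i
        (mem_union.2 (Or.inl hi)), fun k hk h5 => ?_⟩⟩
      exact h4 y (fun i hi => hy i (mem_union.2 (Or.inr hi))) (h5.mono (INat.lt_succ_iff.1 hk))
  · intro x hx
    obtain ⟨m, h1, h2⟩ := (hCc x).1 hx
    obtain ⟨F, hF, h3⟩ := h1.open
    obtain ⟨G, hG, h4⟩ := DD.closed hV hreal hZ hc h2
    exact ⟨F ∪ G, hF.union hG, fun y hy => (hCc y).2 ⟨m, h3 y fun i hi => hy i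
        (mem_union.2 (Or.inl hi)), h4 y fun i hi => hy i (mem_union.2 (Or.inr hi))⟩⟩
  · intro x hx
    by_contra hcon
    obtain ⟨m, ⟨F, h1, h2⟩, -⟩ := (hCc x).1 hcon
    exact hx (h2 x fun i hi => Iff.rfl)
  · rintro x hx ⟨m, ⟨F, h1, h2⟩, -⟩
    exact hx (h2 x fun i hi => Iff.rfl)

end

end Pool.Agent.Q301.SZ
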