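import Pool.Agent.Q301.SZ.Defs
import Pool.Agent.Q301.SZ.Comb

/-!
# Cantor cubes in a model of set theory are strongly zero-dimensional
-/

set_option maxHeartbeats 1000000
set_option linter.all false
set_option synthInstance.maxSize 2000

namespace Pool.Agent.Q301.SZ

open FirstOrder FirstOrder.Language
open Pool.Agent.Helper672.ZFA
open Pool.Agent.Helper672.Plain (LSet)
open Pool.Agent.Helper672.ZFA.H635 (toL plainN_ordPair plainN_graph plainN_opGraph)
open Pool.Agent.H635Amen (IsReals)
open Pool.Agent.H310Cards (IsOmega IsFinite IsFun App IsInj IsNat)
open Pool.Agent.H310Top (IsTopology IsClosed IsCompact IsHausdorff)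
open Pool.Agent.H310 (FinP finP_iff finP_le finP_lt exists_BN mem_nat nat_iff appN finite_of_finP
  mem_cp extN exists_code instPEl)
open Pool.Agent.Q301.TM
open Pool.Agent.Q301.BM (TpO tp mem_tp mem_tp' isTopology_tp tpO_of mem_cp' mem_domP)
open Pool.Agent.Q301.QM (IsProduct IsProductTopology)

universe u u₁

attribute [local instance] toL instPEl

section

variable {N : Type u} [LSet.Structure N] [hM : IsModel N]

/-- The Cantor cube as an internal object. -/
theorem exists_V {j c T : N} (h : IsCantorCube T c j) : ∃ V : Helper672.Plain.El c × Helper672.Plain.El j → Prop, Int N V ∧
    (∀ S : IPow N (Helper672.Plain.El j), ∃ x : Helper672.Plain.El c, ∀ i, V (x, i) ↔ i ∈ S) ∧ IsTopology T c ∧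
    ∀ U, Helper672.Plain.Mem U T ↔ (∀ z, Helper672.Plain.Mem z U → Helper672.Plain.Mem z c) ∧ ∀ x : Helper672.Plain.El c, Helper672.Plain.Mem x.1 U → ∃ F : IPow N (Helper672.Plain.El j), IFin F ∧
      ∀ y, Ag V (F, (y, x)) → Helper672.Plain.Mem y.1 U := by
  obtain ⟨b, d, o, l, hol, hb, hd, hc, hT⟩ := h
  have hVI : Int N (fun q : Helper672.Plain.El c × Helper672.Plain.El j => Mem (op q.2.1 l) q.1.1) :=
    Int.of_D₂ (S := fun v => Mem (op (v 1) l) (v 0))
      (D.memf (DF.op (DF.var _) (DF.const _)) (DF.var _)) fun _ _ => Iff.rfl
  obtain ⟨V, hV, hV'⟩ : ∃ V : Helper672.Plain.El c × Helper672.Plain.El j → Prop, Int N V ∧ ∀ f i, V (f, i) ↔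
      App f.1 i.1 l := ⟨_, hVI, fun _ _ => appN.symm⟩
  have hlb : Helper672.Plain.Mem l b := (hb l).2 (Or.inr rfl)
  have hob : Helper672.Plain.Mem o b := (hb o).2 (Or.inl rfl)
  have hval : ∀ (f : Helper672.Plain.El c) (i : Helper672.Plain.El j), (App f.1 i.1 o ↔ ¬ V (f, i)) ∧
      ∀ y, App f.1 i.1 y → y = o ∨ y = l := by
    intro f i
    obtain ⟨h1, h2⟩ := (hc f.1).1 f.2
    obtain ⟨y, hy, hu⟩ := h2 i
    have h3 : ∀ y, App f.1 i.1 y → y = o ∨ y = l := by
      intro y hy
      obtain ⟨q, h4, h5⟩ := hy
      obtain ⟨i', y', h6, h7⟩ := h1 q h5
      obtain ⟨-, rfl⟩ := op_inj ((plainN_ordPair.1 h4).symm.trans (plainN_ordPair.1 h7))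
      exact (hb _).1 h6
    refine ⟨⟨fun h4 h5 => hol ((hu o h4).trans (hu l ((hV' f i).1 h5)).symm), fun h4 => ?_⟩, h3⟩
    rcases h3 y hy with rfl | rfl
    · exact hy
    · exact absurd ((hV' f i).2 hy) h4
  have hagree : ∀ (f g : Helper672.Plain.El c) (i : Helper672.Plain.El j), (V (g, i) ↔ V (f, i)) → ∀ y, App f.1 i.1 y →
      App g.1 i.1 y := by
    intro f g i h1 y hy
    rcases (hval f i).2 y hy with rfl | rfl
    · exact (hval g i).1.2 fun h2 => (hval f i).1.1 hy (h1.1 h2)
    · exact (hV' g i).1 (h1.2 ((hV' f i).2 hy))
  -- all subsets are realized
  have hreal : ∀ S : IPow N (Helper672.Plain.El j), ∃ x : Helper672.Plain.El c, ∀ i, V (x, i) ↔ i ∈ S := by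
    intro S
    have e1 := eqI' b o
    have e2 := eqI' b l
    have hI : Int N (fun q : Helper672.Plain.El j × Helper672.Plain.El b => (q.1 ∈ S ∧ q.2.1 = l) ∨ (¬ q.1 ∈ S ∧ q.2.1 = o)) := by
      (repeat' (first | with_reducible apply memPE | with_reducible apply memPE' | with_reducible apply memPE'' | with_reducible apply memCode | with_reducible apply memCodeP | with_reducible apply memCode₂ | with_reducible apply eqPE | with_reducible apply eqPE' | with_reducible exact IntF.id | with_reducible exact IntF.fst' | with_reducible exact IntF.snd' | with_reducible exact IntF.const _ | with_reducible exact Int.const _ | assumption | with_reducible apply Int.and | with_reducible apply Int.or | with_reducible apply Int.not | with_reducible apply Int.imp | with_reducible apply Int.iff | with_reducible apply Int.ne | with_reducible apply Int.eq | with_reducible apply Int.mem | with_reducible apply Int.subset | with_reducible apply Int.ltN | with_reducible apply Int.leN | with_reducible_and_instances apply Int.le | with_reducible_and_instances apply Int.lt | with_reducible apply Int.all | with_reducible apply Int.ex | with_reducible apply IntF.fst | with_reducible apply IntF.snd | with_reducible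 apply IntF.app | with_reducible apply IntF.inl | with_reducible apply IntF.inr | with_reducible_and_instances apply IntF.mul | with_reducible_and_instances apply IntF.inv | with_reducible_and_instances apply IntF.add | with_reducible_and_instances apply IntF.sub | with_reducible_and_instances apply IntF.neg | with_reducible_and_instances apply IntF.smul | with_reducible apply Int.fin | with_reducible apply IntF.sep | with_reducible apply IntF.lam | with_reducible apply IntF.insert | with_reducible apply IntF.singleton | with_reducible apply IntF.union | with_reducible apply IntF.iimage | with_reducible apply IntF.ite | with_reducible apply IntF.the | with_reducible apply IntF.irec | with_reducible apply IntF.succ | with_reducible apply IntF.val | with_reducible apply IntF.mk | (with_reducible refine Int.comp ?_ ?_; assumption) | (with_reducible refine Int.comp₂ ?_ ?_ ?_; assumption) | (with_reducible refine Int.comp₃ ?_ ?_ ?_ ?_; assumption) | (with_reducible refine Int.comp₄ ?_ ?_ ?_ ?_ ?_; assumption) | (with_reducible refine IntF.comp ?_ ?_; assumption) | (with_reducible refine IntF.comp₂ ?_ ?_ ?_; assumption) | (with_reducible refine IntF.comp₃ ?_ ?_ ?_ ?_; assumption) | with_reducible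 apply IntF.pair))
    have hf : ∀ (i : Helper672.Plain.El j) (y : N), App hI.small.elt i.1 y ↔
        (i ∈ S ∧ y = l) ∨ (¬ i ∈ S ∧ y = o) := by
      intro i y
      rw [appN, hI.small.mem]
      constructor
      · rintro ⟨⟨i', y'⟩, h1, h2⟩
        obtain ⟨h3, h4⟩ := op_inj h2
        obtain rfl : i' = i := Subtype.ext h3
        obtain rfl : y'.1 = y := h4
        exact h1
      · rintro (⟨h1, rfl⟩ | ⟨h1, rfl⟩)
        · exact ⟨(i, ⟨_, hlb⟩), Or.inl ⟨h1, rfl⟩, rfl⟩
        · exact ⟨(i, ⟨_, hob⟩), Or.inr ⟨h1, rfl⟩, rfl⟩
    have hfc : Helper672.Plain.Mem hI.small.elt c := by
      refine (hc _).2 ⟨fun q hq => ?_, fun i => ?_⟩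
      · obtain ⟨⟨i', y'⟩, -, rfl⟩ := hI.small.mem.1 hq
        exact ⟨i', y'.1, y'.2, plainN_ordPair.2 rfl⟩
      · by_cases hi : i ∈ S
        · exact ⟨l, (hf i l).2 (Or.inl ⟨hi, rfl⟩), fun y hy => ((hf i y).1 hy).elim
            (fun h => h.2) fun h => absurd hi h.1⟩
        · exact ⟨o, (hf i o).2 (Or.inr ⟨hi, rfl⟩), fun y hy => ((hf i y).1 hy).elim
            (fun h => absurd h.1 hi) fun h => h.2⟩
    refine ⟨⟨_, hfc⟩, fun i => (hV' _ i).trans ((hf i l).trans ?_)⟩
    constructor
    · rintro (h1 | h1)
      · exact h1.1
      · exact absurd h1.2.symm hol
    · exact fun h1 => Or.inl ⟨h1, rfl⟩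
  have hA := int_Ag hV
  refine ⟨V, hV, hreal, hT.1, fun U => ⟨fun hU => ?_, fun ⟨h1, h2⟩ => ?_⟩⟩
  · -- minimality
    have hO : TpO (fun U : IPow N (Helper672.Plain.El c) => ∀ x, x ∈ U → ∃ F : IPow N (Helper672.Plain.El j), IFin F ∧
        ∀ y, Ag V (F, (y, x)) → y ∈ U) := by
      refine tpO_of (Nb := fun x U => ∃ F : IPow N (Helper672.Plain.El j), IFin F ∧
        ∀ y, Ag V (F, (y, x)) → y ∈ U) (by (repeat' (first | with_reducible apply memPE | with_reducible apply memPE' | with_reducible apply memPE'' | with_reducible apply memCode | with_reducible apply memCodeP | with_reducible apply memCode₂ | with_reducible apply eqPE | with_reducible apply eqPE' | with_reducible exact IntF.id | with_reducible exact IntF.fst' | with_reducible exact IntF.snd' | with_reducible exact IntF.const _ | with_reducible exact Int.const _ | assumption | with_reducible apply Int.and | with_reducible apply Int.or | with_reducible apply Int.not | with_reducible apply Int.imp | with_reducible apply Int.iff | with_reducible apply Int.ne | with_reducible apply Int.eq | with_reducible apply Int.mem | with_reducible apply Int.subset | with_reducible apply Int.ltN | with_reducible apply Int.leN | with_reducible_and_instances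 apply Int.le | with_reducible_and_instances apply Int.lt | with_reducible apply Int.all | with_reducible apply Int.ex | with_reducible apply IntF.fst | with_reducible apply IntF.snd | with_reducible apply IntF.app | with_reducible apply IntF.inl | with_reducible apply IntF.inr | with_reducible_and_instances apply IntF.mul | with_reducible_and_instances apply IntF.inv | with_reducible_and_instances apply IntF.add | with_reducible_and_instances apply IntF.sub | with_reducible_and_instances apply IntF.neg | with_reducible_and_instances apply IntF.smul | with_reducible apply Int.fin | with_reducible apply IntF.sep | with_reducible apply IntF.lam | with_reducible apply IntF.insert | with_reducible apply IntF.singleton | with_reducible apply IntF.union | with_reducible apply IntF.iimage | with_reducible apply IntF.ite | with_reducible apply IntF.the | with_reducible apply IntF.irec | with_reducible apply IntF.succ | with_reducible apply IntF.val | with_reducible apply IntF.mk | (with_reducible refine Int.comp ?_ ?_; assumption) | (with_reducible refine Int.comp₂ ?_ ?_ ?_; assumption) | (with_reducible refine Int.comp₃ ?_ ?_ ?_ ?_; assumption) | (with_reducible refine Int.comp₄ ?_ ?_ ?_ ?_ ?_;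 assumption) | (with_reducible refine IntF.comp ?_ ?_; assumption) | (with_reducible refine IntF.comp₂ ?_ ?_ ?_; assumption) | (with_reducible refine IntF.comp₃ ?_ ?_ ?_ ?_; assumption) | with_reducible apply IntF.pair))) ?_ ?_ ?_
      · rintro a U V' ⟨F, hF, h1⟩ h2
        exact ⟨F, hF, fun y hy => h2 y (h1 y hy)⟩
      · rintro a U U' W ⟨F, hF, h1⟩ ⟨G, hG, h2⟩ h3
        exact ⟨F ∪ G, hF.union hG, fun y hy => (h3 y).2
          ⟨h1 y fun i hi => hy i (mem_union.2 (Or.inl hi)),
            h2 y fun i hi => hy i (mem_union.2 (Or.inr hi))⟩⟩
      · intro a U hU
        exact ⟨∅, IFin.empty, fun y _ => hU y⟩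
    have hdc : dom N (Helper672.Plain.El c) = c := extN fun z => by
      refine Iff.trans mem_domP ⟨?_, fun hz => ⟨⟨z, hz⟩, rfl⟩⟩
      rintro ⟨a, rfl⟩
      exact a.2
    have hT' := isTopology_tp hO
    rw [hdc] at hT'
    have h1 := hT.2.2 _ hT' (fun i u v hu hv => by
      obtain ⟨W, rfl, hW⟩ := exists_code (a := c) (u := v) fun z hz => ((hv z).1 hz).1
      refine mem_tp'.2 fun x hx => ⟨{i}, IFin.singleton i, fun y hy => ?_⟩
      rw [hW] at hx ⊢
      obtain ⟨-, y0, h2, h3⟩ := (hv _).1 hx
      refine (hv _).2 ⟨y.2, y0, hagree x y i ?_ _ h2, h3⟩
      exact hy i (mem_singleton.2 rfl)) U hU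
    obtain ⟨W, hW, rfl⟩ := mem_tp.1 h1
    refine ⟨fun z hz => (mem_cpE.1 hz).1, fun x hx => ?_⟩
    obtain ⟨F, hF, h2⟩ := hW x (mem_cpE'.1 hx)
    exact ⟨F, hF, fun y hy => mem_cpE'.2 (h2 y hy)⟩
  · -- basic sets are open
    have hd1 : ∀ a, Helper672.Plain.Mem a b → ∃ u, Helper672.Plain.Mem u d ∧ ∀ z, Helper672.Plain.Mem z u ↔ z = a := by
      intro a ha
      obtain ⟨u, hu⟩ := exists_set (eqI' b a)
      refine ⟨u, (hd u).2 fun z hz => ((hu z).1 hz).1, fun z => (hu z).trans ?_⟩
      constructor
      · rintro ⟨_, h⟩
        exact h
      · rintro rfl
        exact ⟨ha, rfl⟩
    have hsub : ∀ (i : Helper672.Plain.El j) (x : Helper672.Plain.El c), Helper672.Plain.Mem (code (sep N fun y : Helper672.Plain.El c => (V (y, i) ↔ V (x, i)))) T := by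
      intro i x
      by_cases hx : V (x, i)
      · obtain ⟨u, hu, hu'⟩ := hd1 l hlb
        refine hT.2.1 i u _ hu fun f => ?_
        rw [show Helper672.Plain.Mem f (code (sep N fun y : Helper672.Plain.El c => (V (y, i) ↔ V (x, i)))) ↔ _
          from mem_cpE]
        constructor
        · rintro ⟨h3, h4⟩
          rw [mem_sep (by (repeat' (first | with_reducible exact IntF.id | with_reducible exact IntF.fst' | with_reducible exact IntF.snd' | with_reducible exact IntF.const _ | with_reducible exact Int.const _ | assumption | with_reducible apply Int.and | with_reducible apply Int.or | with_reducible apply Int.not | with_reducible apply Int.imp | with_reducible apply Int.iff | with_reducible apply Int.ne | with_reducible apply Int.eq | with_reducible apply Int.mem | with_reducible apply Int.subset | with_reducible apply Int.ltN | with_reducible apply Int.leN | with_reducible_and_instances apply Int.le | with_reducible_and_instances apply Int.lt | with_reducible apply Int.all | with_reducible apply Int.ex | with_reducible apply IntF.fst | with_reducible apply IntF.snd | with_reducible apply IntF.app | with_reducible apply IntF.inl | with_reducible apply IntF.inr | with_reducible_and_instances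 apply IntF.mul | with_reducible_and_instances apply IntF.inv | with_reducible_and_instances apply IntF.add | with_reducible_and_instances apply IntF.sub | with_reducible_and_instances apply IntF.neg | with_reducible_and_instances apply IntF.smul | with_reducible apply Int.fin | with_reducible apply IntF.sep | with_reducible apply IntF.lam | with_reducible apply IntF.insert | with_reducible apply IntF.singleton | with_reducible apply IntF.union | with_reducible apply IntF.iimage | with_reducible apply IntF.ite | with_reducible apply IntF.the | with_reducible apply IntF.irec | with_reducible apply IntF.succ | with_reducible apply IntF.val | with_reducible apply IntF.mk | (with_reducible refine Int.comp ?_ ?_; assumption) | (with_reducible refine Int.comp₂ ?_ ?_ ?_; assumption) | (with_reducible refine Int.comp₃ ?_ ?_ ?_ ?_; assumption) | (with_reducible refine Int.comp₄ ?_ ?_ ?_ ?_ ?_; assumption) | (with_reducible refine IntF.comp ?_ ?_; assumption) | (with_reducible refine IntF.comp₂ ?_ ?_ ?_; assumption) | (with_reducible refine IntF.comp₃ ?_ ?_ ?_ ?_; assumption) | with_reducible apply IntF.pair)))] at h4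
          exact ⟨h3, l, (hV' _ i).1 (h4.2 hx), (hu' l).2 rfl⟩
        · rintro ⟨h3, y, h4, h5⟩
          obtain rfl : y = l := (hu' y).1 h5
          exact ⟨h3, (mem_sep (by (repeat' (first | with_reducible exact IntF.id | with_reducible exact IntF.fst' | with_reducible exact IntF.snd' | with_reducible exact IntF.const _ | with_reducible exact Int.const _ | assumption | with_reducible apply Int.and | with_reducible apply Int.or | with_reducible apply Int.not | with_reducible apply Int.imp | with_reducible apply Int.iff | with_reducible apply Int.ne | with_reducible apply Int.eq | with_reducible apply Int.mem | with_reducible apply Int.subset | with_reducible apply Int.ltN | with_reducible apply Int.leN | with_reducible_and_instances apply Int.le | with_reducible_and_instances apply Int.lt | with_reducible apply Int.all | with_reducible apply Int.ex | with_reducible apply IntF.fst | with_reducible apply IntF.snd | with_reducible apply IntF.app | with_reducible apply IntF.inl | with_reducible apply IntF.inr | with_reducible_and_instances apply IntF.mul | with_reducible_and_instances apply IntF.inv | with_reducible_and_instances apply IntF.add | with_reducible_and_instances apply IntF.sub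 | with_reducible_and_instances apply IntF.neg | with_reducible_and_instances apply IntF.smul | with_reducible apply Int.fin | with_reducible apply IntF.sep | with_reducible apply IntF.lam | with_reducible apply IntF.insert | with_reducible apply IntF.singleton | with_reducible apply IntF.union | with_reducible apply IntF.iimage | with_reducible apply IntF.ite | with_reducible apply IntF.the | with_reducible apply IntF.irec | with_reducible apply IntF.succ | with_reducible apply IntF.val | with_reducible apply IntF.mk | (with_reducible refine Int.comp ?_ ?_; assumption) | (with_reducible refine Int.comp₂ ?_ ?_ ?_; assumption) | (with_reducible refine Int.comp₃ ?_ ?_ ?_ ?_; assumption) | (with_reducible refine Int.comp₄ ?_ ?_ ?_ ?_ ?_; assumption) | (with_reducible refine IntF.comp ?_ ?_; assumption) | (with_reducible refine IntF.comp₂ ?_ ?_ ?_; assumption) | (with_reducible refine IntF.comp₃ ?_ ?_ ?_ ?_; assumption) | with_reducible apply IntF.pair)))).2 ⟨fun _ => hx, fun _ => (hV' (mkE f h3) i).2 h4⟩⟩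
      · obtain ⟨u, hu, hu'⟩ := hd1 o hob
        refine hT.2.1 i u _ hu fun f => ?_
        rw [show Helper672.Plain.Mem f (code (sep N fun y : Helper672.Plain.El c => (V (y, i) ↔ V (x, i)))) ↔ _
          from mem_cpE]
        constructor
        · rintro ⟨h3, h4⟩
          rw [mem_sep (by (repeat' (first | with_reducible exact IntF.id | with_reducible exact IntF.fst' | with_reducible exact IntF.snd' | with_reducible exact IntF.const _ | with_reducible exact Int.const _ | assumption | with_reducible apply Int.and | with_reducible apply Int.or | with_reducible apply Int.not | with_reducible apply Int.imp | with_reducible apply Int.iff | with_reducible apply Int.ne | with_reducible apply Int.eq | with_reducible apply Int.mem | with_reducible apply Int.subset | with_reducible apply Int.ltN | with_reducible apply Int.leN | with_reducible_and_instances apply Int.le | with_reducible_and_instances apply Int.lt | with_reducible apply Int.all | with_reducible apply Int.ex | with_reducible apply IntF.fst | with_reducible apply IntF.snd | with_reducible apply IntF.app | with_reducible apply IntF.inl | with_reducible apply IntF.inr | with_reducible_and_instances apply IntF.mul | with_reducible_and_instances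 apply IntF.inv | with_reducible_and_instances apply IntF.add | with_reducible_and_instances apply IntF.sub | with_reducible_and_instances apply IntF.neg | with_reducible_and_instances apply IntF.smul | with_reducible apply Int.fin | with_reducible apply IntF.sep | with_reducible apply IntF.lam | with_reducible apply IntF.insert | with_reducible apply IntF.singleton | with_reducible apply IntF.union | with_reducible apply IntF.iimage | with_reducible apply IntF.ite | with_reducible apply IntF.the | with_reducible apply IntF.irec | with_reducible apply IntF.succ | with_reducible apply IntF.val | with_reducible apply IntF.mk | (with_reducible refine Int.comp ?_ ?_; assumption) | (with_reducible refine Int.comp₂ ?_ ?_ ?_; assumption) | (with_reducible refine Int.comp₃ ?_ ?_ ?_ ?_; assumption) | (with_reducible refine Int.comp₄ ?_ ?_ ?_ ?_ ?_; assumption) | (with_reducible refine IntF.comp ?_ ?_; assumption) | (with_reducible refine IntF.comp₂ ?_ ?_ ?_; assumption) | (with_reducible refine IntF.comp₃ ?_ ?_ ?_ ?_; assumption) | with_reducible apply IntF.pair)))] at h4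
          exact ⟨h3, o, (hval (mkE f h3) i).1.2 fun h5 => hx (h4.1 h5), (hu' o).2 rfl⟩
        · rintro ⟨h3, y, h4, h5⟩
          obtain rfl : y = o := (hu' y).1 h5
          exact ⟨h3, (mem_sep (by (repeat' (first | with_reducible exact IntF.id | with_reducible exact IntF.fst' | with_reducible exact IntF.snd' | with_reducible exact IntF.const _ | with_reducible exact Int.const _ | assumption | with_reducible apply Int.and | with_reducible apply Int.or | with_reducible apply Int.not | with_reducible apply Int.imp | with_reducible apply Int.iff | with_reducible apply Int.ne | with_reducible apply Int.eq | with_reducible apply Int.mem | with_reducible apply Int.subset | with_reducible apply Int.ltN | with_reducible apply Int.leN | with_reducible_and_instances apply Int.le | with_reducible_and_instances apply Int.lt | with_reducible apply Int.all | with_reducible apply Int.ex | with_reducible apply IntF.fst | with_reducible apply IntF.snd | with_reducible apply IntF.app | with_reducible apply IntF.inl | with_reducible apply IntF.inr | with_reducible_and_instances apply IntF.mul | with_reducible_and_instances apply IntF.inv | with_reducible_and_instances apply IntF.add | with_reducible_and_instances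 apply IntF.sub | with_reducible_and_instances apply IntF.neg | with_reducible_and_instances apply IntF.smul | with_reducible apply Int.fin | with_reducible apply IntF.sep | with_reducible apply IntF.lam | with_reducible apply IntF.insert | with_reducible apply IntF.singleton | with_reducible apply IntF.union | with_reducible apply IntF.iimage | with_reducible apply IntF.ite | with_reducible apply IntF.the | with_reducible apply IntF.irec | with_reducible apply IntF.succ | with_reducible apply IntF.val | with_reducible apply IntF.mk | (with_reducible refine Int.comp ?_ ?_; assumption) | (with_reducible refine Int.comp₂ ?_ ?_ ?_; assumption) | (with_reducible refine Int.comp₃ ?_ ?_ ?_ ?_; assumption) | (with_reducible refine Int.comp₄ ?_ ?_ ?_ ?_ ?_; assumption) | (with_reducible refine IntF.comp ?_ ?_; assumption) | (with_reducible refine IntF.comp₂ ?_ ?_ ?_; assumption) | (with_reducible refine IntF.comp₃ ?_ ?_ ?_ ?_; assumption) | with_reducible apply IntF.pair)))).2 ⟨fun h6 => absurd h6 ((hval (mkE f h3) i).1.1 h4),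
            fun h6 => absurd h6 hx⟩⟩
    have hbas : ∀ F : IPow N (Helper672.Plain.El j), IFin F → ∀ x : Helper672.Plain.El c,
        Mem (code (sep N fun y : Helper672.Plain.El c => Ag V (F, (y, x)))) T := by
      refine IFin.ind (by (repeat' (first | with_reducible apply memPE | with_reducible apply memPE' | with_reducible apply memPE'' | with_reducible apply memCode | with_reducible apply memCodeP | with_reducible apply memCode₂ | with_reducible apply eqPE | with_reducible apply eqPE' | with_reducible exact IntF.id | with_reducible exact IntF.fst' | with_reducible exact IntF.snd' | with_reducible exact IntF.const _ | with_reducible exact Int.const _ | assumption | with_reducible apply Int.and | with_reducible apply Int.or | with_reducible apply Int.not | with_reducible apply Int.imp | with_reducible apply Int.iff | with_reducible apply Int.ne | with_reducible apply Int.eq | with_reducible apply Int.mem | with_reducible apply Int.subset | with_reducible apply Int.ltN | with_reducible apply Int.leN | with_reducible_and_instances apply Int.le | with_reducible_and_instances apply Int.lt | with_reducible apply Int.all | with_reducible apply Int.ex | with_reducible apply IntF.fst | with_reducible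 apply IntF.snd | with_reducible apply IntF.app | with_reducible apply IntF.inl | with_reducible apply IntF.inr | with_reducible_and_instances apply IntF.mul | with_reducible_and_instances apply IntF.inv | with_reducible_and_instances apply IntF.add | with_reducible_and_instances apply IntF.sub | with_reducible_and_instances apply IntF.neg | with_reducible_and_instances apply IntF.smul | with_reducible apply Int.fin | with_reducible apply IntF.sep | with_reducible apply IntF.lam | with_reducible apply IntF.insert | with_reducible apply IntF.singleton | with_reducible apply IntF.union | with_reducible apply IntF.iimage | with_reducible apply IntF.ite | with_reducible apply IntF.the | with_reducible apply IntF.irec | with_reducible apply IntF.succ | with_reducible apply IntF.val | with_reducible apply IntF.mk | (with_reducible refine Int.comp ?_ ?_; assumption) | (with_reducible refine Int.comp₂ ?_ ?_ ?_; assumption) | (with_reducible refine Int.comp₃ ?_ ?_ ?_ ?_; assumption) | (with_reducible refine Int.comp₄ ?_ ?_ ?_ ?_ ?_; assumption) | (with_reducible refine IntF.comp ?_ ?_; assumption) | (with_reducible refine IntF.comp₂ ?_ ?_ ?_; assumption) | (with_reducible refine IntF.comp₃ ?_ ?_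 ?_ ?_; assumption) | with_reducible apply IntF.pair))) ?_ ?_
      · intro x
        refine open_of_local hT.1 fun z hz => ?_
        obtain ⟨hzx, -⟩ := mem_cpE.1 hz
        refine ⟨c, hT.1.univ, hzx, fun z' hz' => mem_cpE.2 ⟨hz', (mem_sep (by (repeat' (first | with_reducible exact IntF.id | with_reducible exact IntF.fst' | with_reducible exact IntF.snd' | with_reducible exact IntF.const _ | with_reducible exact Int.const _ | assumption | with_reducible apply Int.and | with_reducible apply Int.or | with_reducible apply Int.not | with_reducible apply Int.imp | with_reducible apply Int.iff | with_reducible apply Int.ne | with_reducible apply Int.eq | with_reducible apply Int.mem | with_reducible apply Int.subset | with_reducible apply Int.ltN | with_reducible apply Int.leN | with_reducible_and_instances apply Int.le | with_reducible_and_instances apply Int.lt | with_reducible apply Int.all | with_reducible apply Int.ex | with_reducible apply IntF.fst | with_reducible apply IntF.snd | with_reducible apply IntF.app | with_reducible apply IntF.inl | with_reducible apply IntF.inr | with_reducible_and_instances apply IntF.mul | with_reducible_and_instances apply IntF.inv | with_reducible_and_instances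 apply IntF.add | with_reducible_and_instances apply IntF.sub | with_reducible_and_instances apply IntF.neg | with_reducible_and_instances apply IntF.smul | with_reducible apply Int.fin | with_reducible apply IntF.sep | with_reducible apply IntF.lam | with_reducible apply IntF.insert | with_reducible apply IntF.singleton | with_reducible apply IntF.union | with_reducible apply IntF.iimage | with_reducible apply IntF.ite | with_reducible apply IntF.the | with_reducible apply IntF.irec | with_reducible apply IntF.succ | with_reducible apply IntF.val | with_reducible apply IntF.mk | (with_reducible refine Int.comp ?_ ?_; assumption) | (with_reducible refine Int.comp₂ ?_ ?_ ?_; assumption) | (with_reducible refine Int.comp₃ ?_ ?_ ?_ ?_; assumption) | (with_reducible refine Int.comp₄ ?_ ?_ ?_ ?_ ?_; assumption) | (with_reducible refine IntF.comp ?_ ?_; assumption) | (with_reducible refine IntF.comp₂ ?_ ?_ ?_; assumption) | (with_reducible refine IntF.comp₃ ?_ ?_ ?_ ?_; assumption) | with_reducible apply IntF.pair)))).2 ?_⟩⟩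
        intro i hi
        exact absurd hi (by simp)
      · intro F i _ _ ih x
        refine hT.1.inter _ _ _ (ih x) (hsub i x) fun z => ?_
        rw [show Helper672.Plain.Mem z (code (sep N fun y : Helper672.Plain.El c => Ag V (insert i F, (y, x)))) ↔ _
            from mem_cpE,
          show Helper672.Plain.Mem z (code (sep N fun y : Helper672.Plain.El c => Ag V (F, (y, x)))) ↔ _
            from mem_cpE,
          show Helper672.Plain.Mem z (code (sep N fun y : Helper672.Plain.El c => (V (y, i) ↔ V (x, i)))) ↔ _
            from mem_cpE]
        constructor
        · rintro ⟨h3, h4⟩
          rw [mem_sep (by (repeat' (first | with_reducible exact IntF.id | with_reducible exact IntF.fst' | with_reducible exact IntF.snd' | with_reducible exact IntF.const _ | with_reducible exact Int.const _ | assumption | with_reducible apply Int.and | with_reducible apply Int.or | with_reducible apply Int.not | with_reducible apply Int.imp | with_reducible apply Int.iff | with_reducible apply Int.ne | with_reducible apply Int.eq | with_reducible apply Int.mem | with_reducible apply Int.subset | with_reducible apply Int.ltN | with_reducible apply Int.leN | with_reducible_and_instances apply Int.le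 | with_reducible_and_instances apply Int.lt | with_reducible apply Int.all | with_reducible apply Int.ex | with_reducible apply IntF.fst | with_reducible apply IntF.snd | with_reducible apply IntF.app | with_reducible apply IntF.inl | with_reducible apply IntF.inr | with_reducible_and_instances apply IntF.mul | with_reducible_and_instances apply IntF.inv | with_reducible_and_instances apply IntF.add | with_reducible_and_instances apply IntF.sub | with_reducible_and_instances apply IntF.neg | with_reducible_and_instances apply IntF.smul | with_reducible apply Int.fin | with_reducible apply IntF.sep | with_reducible apply IntF.lam | with_reducible apply IntF.insert | with_reducible apply IntF.singleton | with_reducible apply IntF.union | with_reducible apply IntF.iimage | with_reducible apply IntF.ite | with_reducible apply IntF.the | with_reducible apply IntF.irec | with_reducible apply IntF.succ | with_reducible apply IntF.val | with_reducible apply IntF.mk | (with_reducible refine Int.comp ?_ ?_; assumption) | (with_reducible refine Int.comp₂ ?_ ?_ ?_; assumption) | (with_reducible refine Int.comp₃ ?_ ?_ ?_ ?_; assumption) | (with_reducible refine Int.comp₄ ?_ ?_ ?_ ?_ ?_; assumption)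 | (with_reducible refine IntF.comp ?_ ?_; assumption) | (with_reducible refine IntF.comp₂ ?_ ?_ ?_; assumption) | (with_reducible refine IntF.comp₃ ?_ ?_ ?_ ?_; assumption) | with_reducible apply IntF.pair)))] at h4
          exact ⟨⟨h3, (mem_sep (by (repeat' (first | with_reducible exact IntF.id | with_reducible exact IntF.fst' | with_reducible exact IntF.snd' | with_reducible exact IntF.const _ | with_reducible exact Int.const _ | assumption | with_reducible apply Int.and | with_reducible apply Int.or | with_reducible apply Int.not | with_reducible apply Int.imp | with_reducible apply Int.iff | with_reducible apply Int.ne | with_reducible apply Int.eq | with_reducible apply Int.mem | with_reducible apply Int.subset | with_reducible apply Int.ltN | with_reducible apply Int.leN | with_reducible_and_instances apply Int.le | with_reducible_and_instances apply Int.lt | with_reducible apply Int.all | with_reducible apply Int.ex | with_reducible apply IntF.fst | with_reducible apply IntF.snd | with_reducible apply IntF.app | with_reducible apply IntF.inl | with_reducible apply IntF.inr | with_reducible_and_instances apply IntF.mul | with_reducible_and_instances apply IntF.inv | with_reducible_and_instances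 apply IntF.add | with_reducible_and_instances apply IntF.sub | with_reducible_and_instances apply IntF.neg | with_reducible_and_instances apply IntF.smul | with_reducible apply Int.fin | with_reducible apply IntF.sep | with_reducible apply IntF.lam | with_reducible apply IntF.insert | with_reducible apply IntF.singleton | with_reducible apply IntF.union | with_reducible apply IntF.iimage | with_reducible apply IntF.ite | with_reducible apply IntF.the | with_reducible apply IntF.irec | with_reducible apply IntF.succ | with_reducible apply IntF.val | with_reducible apply IntF.mk | (with_reducible refine Int.comp ?_ ?_; assumption) | (with_reducible refine Int.comp₂ ?_ ?_ ?_; assumption) | (with_reducible refine Int.comp₃ ?_ ?_ ?_ ?_; assumption) | (with_reducible refine Int.comp₄ ?_ ?_ ?_ ?_ ?_; assumption) | (with_reducible refine IntF.comp ?_ ?_; assumption) | (with_reducible refine IntF.comp₂ ?_ ?_ ?_; assumption) | (with_reducible refine IntF.comp₃ ?_ ?_ ?_ ?_; assumption) | with_reducible apply IntF.pair)))).2 fun k hk => h4 k (mem_insert.2 (Or.inr hk))⟩, h3,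
            (mem_sep (by (repeat' (first | with_reducible exact IntF.id | with_reducible exact IntF.fst' | with_reducible exact IntF.snd' | with_reducible exact IntF.const _ | with_reducible exact Int.const _ | assumption | with_reducible apply Int.and | with_reducible apply Int.or | with_reducible apply Int.not | with_reducible apply Int.imp | with_reducible apply Int.iff | with_reducible apply Int.ne | with_reducible apply Int.eq | with_reducible apply Int.mem | with_reducible apply Int.subset | with_reducible apply Int.ltN | with_reducible apply Int.leN | with_reducible_and_instances apply Int.le | with_reducible_and_instances apply Int.lt | with_reducible apply Int.all | with_reducible apply Int.ex | with_reducible apply IntF.fst | with_reducible apply IntF.snd | with_reducible apply IntF.app | with_reducible apply IntF.inl | with_reducible apply IntF.inr | with_reducible_and_instances apply IntF.mul | with_reducible_and_instances apply IntF.inv | with_reducible_and_instances apply IntF.add | with_reducible_and_instances apply IntF.sub | with_reducible_and_instances apply IntF.neg | with_reducible_and_instances apply IntF.smul | with_reducible apply Int.fin | with_reducible apply IntF.sep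 | with_reducible apply IntF.lam | with_reducible apply IntF.insert | with_reducible apply IntF.singleton | with_reducible apply IntF.union | with_reducible apply IntF.iimage | with_reducible apply IntF.ite | with_reducible apply IntF.the | with_reducible apply IntF.irec | with_reducible apply IntF.succ | with_reducible apply IntF.val | with_reducible apply IntF.mk | (with_reducible refine Int.comp ?_ ?_; assumption) | (with_reducible refine Int.comp₂ ?_ ?_ ?_; assumption) | (with_reducible refine Int.comp₃ ?_ ?_ ?_ ?_; assumption) | (with_reducible refine Int.comp₄ ?_ ?_ ?_ ?_ ?_; assumption) | (with_reducible refine IntF.comp ?_ ?_; assumption) | (with_reducible refine IntF.comp₂ ?_ ?_ ?_; assumption) | (with_reducible refine IntF.comp₃ ?_ ?_ ?_ ?_; assumption) | with_reducible apply IntF.pair)))).2 (h4 i (mem_insert.2 (Or.inl rfl)))⟩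
        · rintro ⟨⟨h3, h4⟩, h5, h6⟩
          rw [mem_sep (by (repeat' (first | with_reducible exact IntF.id | with_reducible exact IntF.fst' | with_reducible exact IntF.snd' | with_reducible exact IntF.const _ | with_reducible exact Int.const _ | assumption | with_reducible apply Int.and | with_reducible apply Int.or | with_reducible apply Int.not | with_reducible apply Int.imp | with_reducible apply Int.iff | with_reducible apply Int.ne | with_reducible apply Int.eq | with_reducible apply Int.mem | with_reducible apply Int.subset | with_reducible apply Int.ltN | with_reducible apply Int.leN | with_reducible_and_instances apply Int.le | with_reducible_and_instances apply Int.lt | with_reducible apply Int.all | with_reducible apply Int.ex | with_reducible apply IntF.fst | with_reducible apply IntF.snd | with_reducible apply IntF.app | with_reducible apply IntF.inl | with_reducible apply IntF.inr | with_reducible_and_instances apply IntF.mul | with_reducible_and_instances apply IntF.inv | with_reducible_and_instances apply IntF.add | with_reducible_and_instances apply IntF.sub | with_reducible_and_instances apply IntF.neg | with_reducible_and_instances apply IntF.smul | with_reducible apply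 Int.fin | with_reducible apply IntF.sep | with_reducible apply IntF.lam | with_reducible apply IntF.insert | with_reducible apply IntF.singleton | with_reducible apply IntF.union | with_reducible apply IntF.iimage | with_reducible apply IntF.ite | with_reducible apply IntF.the | with_reducible apply IntF.irec | with_reducible apply IntF.succ | with_reducible apply IntF.val | with_reducible apply IntF.mk | (with_reducible refine Int.comp ?_ ?_; assumption) | (with_reducible refine Int.comp₂ ?_ ?_ ?_; assumption) | (with_reducible refine Int.comp₃ ?_ ?_ ?_ ?_; assumption) | (with_reducible refine Int.comp₄ ?_ ?_ ?_ ?_ ?_; assumption) | (with_reducible refine IntF.comp ?_ ?_; assumption) | (with_reducible refine IntF.comp₂ ?_ ?_ ?_; assumption) | (with_reducible refine IntF.comp₃ ?_ ?_ ?_ ?_; assumption) | with_reducible apply IntF.pair)))] at h4 h6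
          refine ⟨h3, (mem_sep (by (repeat' (first | with_reducible exact IntF.id | with_reducible exact IntF.fst' | with_reducible exact IntF.snd' | with_reducible exact IntF.const _ | with_reducible exact Int.const _ | assumption | with_reducible apply Int.and | with_reducible apply Int.or | with_reducible apply Int.not | with_reducible apply Int.imp | with_reducible apply Int.iff | with_reducible apply Int.ne | with_reducible apply Int.eq | with_reducible apply Int.mem | with_reducible apply Int.subset | with_reducible apply Int.ltN | with_reducible apply Int.leN | with_reducible_and_instances apply Int.le | with_reducible_and_instances apply Int.lt | with_reducible apply Int.all | with_reducible apply Int.ex | with_reducible apply IntF.fst | with_reducible apply IntF.snd | with_reducible apply IntF.app | with_reducible apply IntF.inl | with_reducible apply IntF.inr | with_reducible_and_instances apply IntF.mul | with_reducible_and_instances apply IntF.inv | with_reducible_and_instances apply IntF.add | with_reducible_and_instances apply IntF.sub | with_reducible_and_instances apply IntF.neg | with_reducible_and_instances apply IntF.smul | with_reducible apply Int.fin | with_reducible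 apply IntF.sep | with_reducible apply IntF.lam | with_reducible apply IntF.insert | with_reducible apply IntF.singleton | with_reducible apply IntF.union | with_reducible apply IntF.iimage | with_reducible apply IntF.ite | with_reducible apply IntF.the | with_reducible apply IntF.irec | with_reducible apply IntF.succ | with_reducible apply IntF.val | with_reducible apply IntF.mk | (with_reducible refine Int.comp ?_ ?_; assumption) | (with_reducible refine Int.comp₂ ?_ ?_ ?_; assumption) | (with_reducible refine Int.comp₃ ?_ ?_ ?_ ?_; assumption) | (with_reducible refine Int.comp₄ ?_ ?_ ?_ ?_ ?_; assumption) | (with_reducible refine IntF.comp ?_ ?_; assumption) | (with_reducible refine IntF.comp₂ ?_ ?_ ?_; assumption) | (with_reducible refine IntF.comp₃ ?_ ?_ ?_ ?_; assumption) | with_reducible apply IntF.pair)))).2 fun k hk => ?_⟩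
          rcases mem_insert.1 hk with rfl | hk
          · exact h6
          · exact h4 k hk
    refine open_of_local hT.1 fun z₀ hz => ?_
    obtain ⟨z, rfl⟩ : ∃ z : Helper672.Plain.El c, z.1 = z₀ := ⟨⟨z₀, h1 z₀ hz⟩, rfl⟩
    obtain ⟨F, hF, h3⟩ := h2 z hz
    refine ⟨_, hbas F hF z, mem_cpE'.2 ((mem_sep (by (repeat' (first | with_reducible exact IntF.id | with_reducible exact IntF.fst' | with_reducible exact IntF.snd' | with_reducible exact IntF.const _ | with_reducible exact Int.const _ | assumption | with_reducible apply Int.and | with_reducible apply Int.or | with_reducible apply Int.not | with_reducible apply Int.imp | with_reducible apply Int.iff | with_reducible apply Int.ne | with_reducible apply Int.eq | with_reducible apply Int.mem | with_reducible apply Int.subset | with_reducible apply Int.ltN | with_reducible apply Int.leN | with_reducible_and_instances apply Int.le | with_reducible_and_instances apply Int.lt | with_reducible apply Int.all | with_reducible apply Int.ex | with_reducible apply IntF.fst | with_reducible apply IntF.snd | with_reducible apply IntF.app | with_reducible apply IntF.inl | with_reducible apply IntF.inr | with_reducible_and_instances apply IntF.mul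 | with_reducible_and_instances apply IntF.inv | with_reducible_and_instances apply IntF.add | with_reducible_and_instances apply IntF.sub | with_reducible_and_instances apply IntF.neg | with_reducible_and_instances apply IntF.smul | with_reducible apply Int.fin | with_reducible apply IntF.sep | with_reducible apply IntF.lam | with_reducible apply IntF.insert | with_reducible apply IntF.singleton | with_reducible apply IntF.union | with_reducible apply IntF.iimage | with_reducible apply IntF.ite | with_reducible apply IntF.the | with_reducible apply IntF.irec | with_reducible apply IntF.succ | with_reducible apply IntF.val | with_reducible apply IntF.mk | (with_reducible refine Int.comp ?_ ?_; assumption) | (with_reducible refine Int.comp₂ ?_ ?_ ?_; assumption) | (with_reducible refine Int.comp₃ ?_ ?_ ?_ ?_; assumption) | (with_reducible refine Int.comp₄ ?_ ?_ ?_ ?_ ?_; assumption) | (with_reducible refine IntF.comp ?_ ?_; assumption) | (with_reducible refine IntF.comp₂ ?_ ?_ ?_; assumption) | (with_reducible refine IntF.comp₃ ?_ ?_ ?_ ?_; assumption) | with_reducible apply IntF.pair)))).2 fun i _ => Iff.rfl),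
      fun z' hz' => ?_⟩
    obtain ⟨h4, h5⟩ := mem_cpE.1 hz'
    rw [mem_sep (by (repeat' (first | with_reducible exact IntF.id | with_reducible exact IntF.fst' | with_reducible exact IntF.snd' | with_reducible exact IntF.const _ | with_reducible exact Int.const _ | assumption | with_reducible apply Int.and | with_reducible apply Int.or | with_reducible apply Int.not | with_reducible apply Int.imp | with_reducible apply Int.iff | with_reducible apply Int.ne | with_reducible apply Int.eq | with_reducible apply Int.mem | with_reducible apply Int.subset | with_reducible apply Int.ltN | with_reducible apply Int.leN | with_reducible_and_instances apply Int.le | with_reducible_and_instances apply Int.lt | with_reducible apply Int.all | with_reducible apply Int.ex | with_reducible apply IntF.fst | with_reducible apply IntF.snd | with_reducible apply IntF.app | with_reducible apply IntF.inl | with_reducible apply IntF.inr | with_reducible_and_instances apply IntF.mul | with_reducible_and_instances apply IntF.inv | with_reducible_and_instances apply IntF.add | with_reducible_and_instances apply IntF.sub | with_reducible_and_instances apply IntF.neg | with_reducible_and_instances apply IntF.smul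 | with_reducible apply Int.fin | with_reducible apply IntF.sep | with_reducible apply IntF.lam | with_reducible apply IntF.insert | with_reducible apply IntF.singleton | with_reducible apply IntF.union | with_reducible apply IntF.iimage | with_reducible apply IntF.ite | with_reducible apply IntF.the | with_reducible apply IntF.irec | with_reducible apply IntF.succ | with_reducible apply IntF.val | with_reducible apply IntF.mk | (with_reducible refine Int.comp ?_ ?_; assumption) | (with_reducible refine Int.comp₂ ?_ ?_ ?_; assumption) | (with_reducible refine Int.comp₃ ?_ ?_ ?_ ?_; assumption) | (with_reducible refine Int.comp₄ ?_ ?_ ?_ ?_ ?_; assumption) | (with_reducible refine IntF.comp ?_ ?_; assumption) | (with_reducible refine IntF.comp₂ ?_ ?_ ?_; assumption) | (with_reducible refine IntF.comp₃ ?_ ?_ ?_ ?_; assumption) | with_reducible apply IntF.pair)))] at h5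
    exact h3 _ h5

variable {r : N} [Field (Helper672.Plain.El r)] [LinearOrder (Helper672.Plain.El r)] [IsStrictOrderedRing (Helper672.Plain.El r)]

/-- Cantor cubes are strongly zero-dimensional. -/
theorem isStronglyZeroDim_cube (hr : IsReals r) {j c T : N} (h : IsCantorCube T c j) :
    IsStronglyZeroDim T c r := by
  obtain ⟨V, hV, hreal, hTop, hT⟩ := exists_V h
  rintro A B hA hB ⟨f, ⟨hf, hcont⟩, -, hfA, hfB⟩
  have hf' := isMap_iff.1 hf
  have hle := int_le hr
  have hZ : Int N (fun x : Helper672.Plain.El c => f x ≤ 2 / 3) := by (repeat' (first | with_reducible exact IntF.id | with_reducible exact IntF.fst' | with_reducible exact IntF.snd' | with_reducible exact IntF.const _ | with_reducible exact Int.const _ | assumption | with_reducible apply Int.and | with_reducible apply Int.or | with_reducible apply Int.not | with_reducible apply Int.imp | with_reducible apply Int.iff | with_reducible apply Int.ne | with_reducible apply Int.eq | with_reducible apply Int.mem | with_reducible apply Int.subset | with_reducible apply Int.ltN | with_reducible apply Int.leN | with_reducible_and_instances apply Int.le | with_reducible_and_instances apply Int.lt | with_reducible apply Int.all | with_reducible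 apply Int.ex | with_reducible apply IntF.fst | with_reducible apply IntF.snd | with_reducible apply IntF.app | with_reducible apply IntF.inl | with_reducible apply IntF.inr | with_reducible_and_instances apply IntF.mul | with_reducible_and_instances apply IntF.inv | with_reducible_and_instances apply IntF.add | with_reducible_and_instances apply IntF.sub | with_reducible_and_instances apply IntF.neg | with_reducible_and_instances apply IntF.smul | with_reducible apply Int.fin | with_reducible apply IntF.sep | with_reducible apply IntF.lam | with_reducible apply IntF.insert | with_reducible apply IntF.singleton | with_reducible apply IntF.union | with_reducible apply IntF.iimage | with_reducible apply IntF.ite | with_reducible apply IntF.the | with_reducible apply IntF.irec | with_reducible apply IntF.succ | with_reducible apply IntF.val | with_reducible apply IntF.mk | (with_reducible refine Int.comp ?_ ?_; assumption) | (with_reducible refine Int.comp₂ ?_ ?_ ?_; assumption) | (with_reducible refine Int.comp₃ ?_ ?_ ?_ ?_; assumption) | (with_reducible refine Int.comp₄ ?_ ?_ ?_ ?_ ?_; assumption) | (with_reducible refine IntF.comp ?_ ?_; assumption) | (with_reducible refine IntF.comp₂ ?_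 ?_ ?_; assumption) | (with_reducible refine IntF.comp₃ ?_ ?_ ?_ ?_; assumption) | with_reducible apply IntF.pair))
  have hZ' : Int N (fun x : Helper672.Plain.El c => 1 / 3 ≤ f x) := by (repeat' (first | with_reducible exact IntF.id | with_reducible exact IntF.fst' | with_reducible exact IntF.snd' | with_reducible exact IntF.const _ | with_reducible exact Int.const _ | assumption | with_reducible apply Int.and | with_reducible apply Int.or | with_reducible apply Int.not | with_reducible apply Int.imp | with_reducible apply Int.iff | with_reducible apply Int.ne | with_reducible apply Int.eq | with_reducible apply Int.mem | with_reducible apply Int.subset | with_reducible apply Int.ltN | with_reducible apply Int.leN | with_reducible_and_instances apply Int.le | with_reducible_and_instances apply Int.lt | with_reducible apply Int.all | with_reducible apply Int.ex | with_reducible apply IntF.fst | with_reducible apply IntF.snd | with_reducible apply IntF.app | with_reducible apply IntF.inl | with_reducible apply IntF.inr | with_reducible_and_instances apply IntF.mul | with_reducible_and_instances apply IntF.inv | with_reducible_and_instances apply IntF.add | with_reducible_and_instances apply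 IntF.sub | with_reducible_and_instances apply IntF.neg | with_reducible_and_instances apply IntF.smul | with_reducible apply Int.fin | with_reducible apply IntF.sep | with_reducible apply IntF.lam | with_reducible apply IntF.insert | with_reducible apply IntF.singleton | with_reducible apply IntF.union | with_reducible apply IntF.iimage | with_reducible apply IntF.ite | with_reducible apply IntF.the | with_reducible apply IntF.irec | with_reducible apply IntF.succ | with_reducible apply IntF.val | with_reducible apply IntF.mk | (with_reducible refine Int.comp ?_ ?_; assumption) | (with_reducible refine Int.comp₂ ?_ ?_ ?_; assumption) | (with_reducible refine Int.comp₃ ?_ ?_ ?_ ?_; assumption) | (with_reducible refine Int.comp₄ ?_ ?_ ?_ ?_ ?_; assumption) | (with_reducible refine IntF.comp ?_ ?_; assumption) | (with_reducible refine IntF.comp₂ ?_ ?_ ?_; assumption) | (with_reducible refine IntF.comp₃ ?_ ?_ ?_ ?_; assumption) | with_reducible apply IntF.pair))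
  have hloc : ∀ (x : Helper672.Plain.El c) (ε : Helper672.Plain.El r), 0 < ε → ∃ F : IPow N (Helper672.Plain.El j), IFin F ∧
      ∀ y, Ag V (F, (y, x)) → |f y - f x| < ε := by
    intro x ε hε
    obtain ⟨u, hu, hxu, h1⟩ := hcont x ε hε
    obtain ⟨F, hF, h2⟩ := ((hT u).1 hu).2 x hxu
    exact ⟨F, hF, fun y hy => h1 y (h2 y hy)⟩
  obtain ⟨C, hC, h1, h2, h3, h4⟩ := exists_sep hV hreal hZ hZ'
    (fun x hx => by
      by_contra hcon
      obtain ⟨F, hF, g1⟩ := hloc x (f x - 2 / 3) (sub_pos.2 (not_le.1 hcon))
      obtain ⟨y, hy, g2⟩ := hx F hF
      have g3 := (abs_lt.1 (g1 y hy)).1
      linarith)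
    (fun x hx => by
      by_contra hcon
      obtain ⟨F, hF, g1⟩ := hloc x (1 / 3 - f x) (sub_pos.2 (not_le.1 hcon))
      obtain ⟨y, hy, g2⟩ := hx F hF
      have g3 := (abs_lt.1 (g1 y hy)).2
      linarith)
    (fun x => by
      rcases lt_or_ge (f x) (1 / 2) with g0 | g0
      · obtain ⟨F, hF, g1⟩ := hloc x (1 / 6) (by norm_num)
        refine Or.inl ⟨F, hF, fun y hy => ?_⟩
        have g3 := (abs_lt.1 (g1 y hy)).2
        change f y ≤ 2 / 3
        linarith
      · obtain ⟨F, hF, g1⟩ := hloc x (1 / 6) (by norm_num)
        refine Or.inr ⟨F, hF, fun y hy => ?_⟩
        have g3 := (abs_lt.1 (g1 y hy)).1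
        change 1 / 3 ≤ f y
        linarith)
  have hmC : ∀ z : Helper672.Plain.El c, Helper672.Plain.Mem z.1 (code (sep N C)) ↔ C z := fun z => mem_cpE'.trans (mem_sep hC)
  have hCn : Int N (fun z : Helper672.Plain.El c => ¬ C z) := by (repeat' (first | with_reducible exact IntF.id | with_reducible exact IntF.fst' | with_reducible exact IntF.snd' | with_reducible exact IntF.const _ | with_reducible exact Int.const _ | assumption | with_reducible apply Int.and | with_reducible apply Int.or | with_reducible apply Int.not | with_reducible apply Int.imp | with_reducible apply Int.iff | with_reducible apply Int.ne | with_reducible apply Int.eq | with_reducible apply Int.mem | with_reducible apply Int.subset | with_reducible apply Int.ltN | with_reducible apply Int.leN | with_reducible_and_instances apply Int.le | with_reducible_and_instances apply Int.lt | with_reducible apply Int.all | with_reducible apply Int.ex | with_reducible apply IntF.fst | with_reducible apply IntF.snd | with_reducible apply IntF.app | with_reducible apply IntF.inl | with_reducible apply IntF.inr | with_reducible_and_instances apply IntF.mul | with_reducible_and_instances apply IntF.inv | with_reducible_and_instances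 apply IntF.add | with_reducible_and_instances apply IntF.sub | with_reducible_and_instances apply IntF.neg | with_reducible_and_instances apply IntF.smul | with_reducible apply Int.fin | with_reducible apply IntF.sep | with_reducible apply IntF.lam | with_reducible apply IntF.insert | with_reducible apply IntF.singleton | with_reducible apply IntF.union | with_reducible apply IntF.iimage | with_reducible apply IntF.ite | with_reducible apply IntF.the | with_reducible apply IntF.irec | with_reducible apply IntF.succ | with_reducible apply IntF.val | with_reducible apply IntF.mk | (with_reducible refine Int.comp ?_ ?_; assumption) | (with_reducible refine Int.comp₂ ?_ ?_ ?_; assumption) | (with_reducible refine Int.comp₃ ?_ ?_ ?_ ?_; assumption) | (with_reducible refine Int.comp₄ ?_ ?_ ?_ ?_ ?_; assumption) | (with_reducible refine IntF.comp ?_ ?_; assumption) | (with_reducible refine IntF.comp₂ ?_ ?_ ?_; assumption) | (with_reducible refine IntF.comp₃ ?_ ?_ ?_ ?_; assumption) | with_reducible apply IntF.pair))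
  have hmC' : ∀ z : Helper672.Plain.El c, Helper672.Plain.Mem z.1 (code (sep N fun z : Helper672.Plain.El c => ¬ C z)) ↔ ¬ C z := fun z =>
    mem_cpE'.trans (mem_sep hCn)
  refine ⟨code (sep N C), ⟨(hT _).2 ⟨fun z hz => (mem_cpE.1 hz).1, fun x hx => ?_⟩,
    fun z hz => (mem_cpE.1 hz).1, code (sep N fun z : Helper672.Plain.El c => ¬ C z),
    (hT _).2 ⟨fun z hz => (mem_cpE.1 hz).1, fun x hx => ?_⟩, fun z => ⟨fun hz => ?_,
      fun ⟨hz, hz'⟩ => ?_⟩⟩, fun z₀ hz => ?_, fun z₀ hz hzB => ?_⟩
  · obtain ⟨F, hF, g1⟩ := h1 x ((hmC x).1 hx)
    exact ⟨F, hF, fun y hy => (hmC y).2 (g1 y hy)⟩
  · obtain ⟨F, hF, g1⟩ := h2 x ((hmC' x).1 hx)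
    exact ⟨F, hF, fun y hy => (hmC' y).2 (g1 y hy)⟩
  · obtain ⟨hzc, -⟩ := mem_cpE.1 hz
    exact ⟨hzc, fun hz' => (hmC' ⟨z, hzc⟩).1 hz ((hmC ⟨z, hzc⟩).1 hz')⟩
  · exact (hmC' ⟨z, hz⟩).2 fun hz'' => hz' ((hmC ⟨z, hz⟩).2 hz'')
  · obtain ⟨z, rfl⟩ : ∃ z : Helper672.Plain.El c, z.1 = z₀ := ⟨⟨z₀, hA z₀ hz⟩, rfl⟩
    refine (hmC z).2 (h3 z ?_)
    rw [hfA z hz]
    norm_num
  · obtain ⟨z, rfl⟩ : ∃ z : Helper672.Plain.El c, z.1 = z₀ := ⟨⟨z₀, hB z₀ hzB⟩, rfl⟩
    refine h4 z ?_ ((hmC z).1 hz)
    rw [hfB z hzB]
    norm_num

end

end Pool.Agent.Q301.SZ
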