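import Pool.Agent.Q301.TM.Defs
import Pool.Agent.Q301.QM.Prod

/-!
# Strongly zero-dimensional spaces in a model of set theory: definitions

`Mem`, `El`: elements in the sense of the model. `IsCont`, `IsClopen` are from
`Pool.Agent.Q301.TM.Defs`, `IsProduct` and `IsProductTopology` from `Pool.Agent.Q301.QM.Prod`.
-/

namespace Pool.Agent.Q301.SZ

open FirstOrder FirstOrder.Language
open Pool.Agent.Helper672.Plain (LSet Mem El)
open Pool.Agent.Q301.TM (IsCont IsClopen)
open Pool.Agent.Q301.QM (IsProduct IsProductTopology)

universe u

variable {M : Type u} [LSet.Structure M]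

/-- The subsets `A` and `B` of the space `x` are completely separated: there is a continuous
function `f` (in the model) from `x` to `[0, 1]` that is `0` on `A` and `1` on `B`. -/
def IsCompletelySeparated (t x r : M) [Field (El r)] [LinearOrder (El r)] (A B : M) : Prop :=
  ∃ f : El x → El r, IsCont t f ∧ (∀ p, 0 ≤ f p ∧ f p ≤ 1) ∧
    (∀ p : El x, Mem p.1 A → f p = 0) ∧ ∀ p : El x, Mem p.1 B → f p = 1

/-- The space `x` with the topology `t` is strongly zero-dimensional: completely separated sets
are separated by a clopen set. Here `r` is the set of the real numbers of the model. -/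
def IsStronglyZeroDim (t x r : M) [Field (El r)] [LinearOrder (El r)] : Prop :=
  ∀ A B, (∀ z, Mem z A → Mem z x) → (∀ z, Mem z B → Mem z x) →
    IsCompletelySeparated t x r A B →
    ∃ c, IsClopen t x c ∧ (∀ z, Mem z A → Mem z c) ∧ ∀ z, Mem z c → ¬ Mem z B

/-- `c` with the topology `T` is the Cantor cube `2 ^ j`: there is a set `b` with exactly two
elements, `d` is its discrete topology, `c` is the set of all functions (of the model) from `j`
to `b`, and `T` is the product topology. -/
def IsCantorCube (T c j : M) : Prop :=
  ∃ b d o l, o ≠ l ∧ (∀ z, Mem z b ↔ z = o ∨ z = l) ∧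
    (∀ u, Mem u d ↔ ∀ z, Mem z u → Mem z b) ∧ IsProduct c (fun _ : El j => b) ∧
    IsProductTopology T c (fun _ : El j => d)

end Pool.Agent.Q301.SZ
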