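import Pool.Agent.Q301.SZ.Defs
import Pool.Agent.Q301.QM.Top

/-!
# Strongly zero-dimensional realcompact spaces: the internal part
-/

set_option maxHeartbeats 1000000
set_option linter.all false
set_option synthInstance.maxSize 2000

namespace Pool.Agent.Q301.SZ

open FirstOrder FirstOrder.Language
open Pool.Agent.Helper672.ZFA
open Pool.Agent.Helper672.Plain (LSet)
open Pool.Agent.Helper672.ZFA.H635 (toL plainN_ordPair plainN_graph plainN_opGraph)
open Pool.Agent.H635Amen (IsReals)
open Pool.Agent.H310Cards (IsOmega IsFinite IsFun App IsInj IsNat)
open Pool.Agent.H310Top (IsTopology IsClosed IsCompact IsHausdorff)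
open Pool.Agent.H310 (FinP finP_iff finP_le finP_lt exists_BN mem_nat nat_iff appN finite_of_finP
  mem_cp extN exists_code instPEl)
open Pool.Agent.Q301.TM
open Pool.Agent.Q301.BM (TpO tp mem_tp mem_tp' isTopology_tp tpO_of mem_cp' mem_domP)

universe u u₁

attribute [local instance] toL instPEl

section

variable {N : Type u} [LSet.Structure N] [hM : IsModel N] {α β γ : Type u} [ITy N α] [ITy N β]
  [ITy N γ]
variable {r : N} [Field (Helper672.Plain.El r)] [LinearOrder (Helper672.Plain.El r)] [IsStrictOrderedRing (Helper672.Plain.El r)]

theorem TpO.local' {O : IPow N α → Prop} (h : TpO O) {W : IPow N α}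
    (hW : ∀ p, p ∈ W → ∃ U, O U ∧ p ∈ U ∧ ∀ q, q ∈ U → q ∈ W) : O W := by
  have hI := h.int
  refine h.union (fun U => O U ∧ ∀ q, q ∈ U → q ∈ W) (by (repeat' (first | with_reducible exact IntF.id | with_reducible exact IntF.fst' | with_reducible exact IntF.snd' | with_reducible exact IntF.const _ | with_reducible exact Int.const _ | assumption | with_reducible apply Int.and | with_reducible apply Int.or | with_reducible apply Int.not | with_reducible apply Int.imp | with_reducible apply Int.iff | with_reducible apply Int.ne | with_reducible apply Int.eq | with_reducible apply Int.mem | with_reducible apply Int.subset | with_reducible apply Int.ltN | with_reducible apply Int.leN | with_reducible_and_instances apply Int.le | with_reducible_and_instances apply Int.lt | with_reducible apply Int.all | with_reducible apply Int.ex | with_reducible apply IntF.fst | with_reducible apply IntF.snd | with_reducible apply IntF.app | with_reducible apply IntF.inl | with_reducible apply IntF.inr | with_reducible_and_instances apply IntF.mul | with_reducible_and_instances apply IntF.inv | with_reducible_and_instances apply IntF.add | with_reducible_and_instances apply IntF.sub | with_reducible_and_instances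 apply IntF.neg | with_reducible_and_instances apply IntF.smul | with_reducible apply Int.fin | with_reducible apply IntF.sep | with_reducible apply IntF.lam | with_reducible apply IntF.insert | with_reducible apply IntF.singleton | with_reducible apply IntF.union | with_reducible apply IntF.iimage | with_reducible apply IntF.ite | with_reducible apply IntF.the | with_reducible apply IntF.irec | with_reducible apply IntF.succ | with_reducible apply IntF.val | with_reducible apply IntF.mk | (with_reducible refine Int.comp ?_ ?_; assumption) | (with_reducible refine Int.comp₂ ?_ ?_ ?_; assumption) | (with_reducible refine Int.comp₃ ?_ ?_ ?_ ?_; assumption) | (with_reducible refine Int.comp₄ ?_ ?_ ?_ ?_ ?_; assumption) | (with_reducible refine IntF.comp ?_ ?_; assumption) | (with_reducible refine IntF.comp₂ ?_ ?_ ?_; assumption) | (with_reducible refine IntF.comp₃ ?_ ?_ ?_ ?_; assumption) | with_reducible apply IntF.pair))) (fun U hU => hU.1) W fun a => ?_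
  constructor
  · intro ha
    obtain ⟨U, h1, h2, h3⟩ := hW a ha
    exact ⟨U, ⟨h1, h3⟩, h2⟩
  · rintro ⟨U, ⟨-, h2⟩, h3⟩
    exact h2 a h3

/-- Continuity. -/
def Ct (O : IPow N α → Prop) (u : α → Helper672.Plain.El r) : Prop :=
  ∀ p (ε : Helper672.Plain.El r), 0 < ε → ∃ U, O U ∧ p ∈ U ∧ ∀ q, q ∈ U → |u q - u p| < ε

/-- A closed embedding of a strongly zero-dimensional space in a power of the real line. -/
structure Emb (O : IPow N α → Prop) (e : α → β → Helper672.Plain.El r) : Prop where
  int : IntF N (fun q : α × β => e q.1 q.2)
  top : TpO O
  cont : ∀ i, Ct O (fun p => e p i)
  nb : ∀ U, O U → ∀ p, p ∈ U → ∃ (F : IPow N β) (ε : Helper672.Plain.El r), IFin F ∧ 0 < ε ∧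
    ∀ q, (∀ i, i ∈ F → |e q i - e p i| < ε) → q ∈ U
  closed : ∀ y : β → Helper672.Plain.El r, IntF N y → (∀ (F : IPow N β) (ε : Helper672.Plain.El r), IFin F → 0 < ε →
    ∃ p, ∀ i, i ∈ F → |e p i - y i| < ε) → ∃ p, ∀ i, e p i = y i
  sz : ∀ u : α → Helper672.Plain.El r, IntF N u → Ct O u → ∀ a b, a < b → ∃ D E : IPow N α, O D ∧ O E ∧
    (∀ p, p ∈ E ↔ ¬ p ∈ D) ∧ (∀ p, u p ≤ a → p ∈ D) ∧ ∀ p, b ≤ u p → ¬ p ∈ D

/-- All continuous functions to `ω`. -/
structure Val0 (O : IPow N α → Prop) (R : (α × INat N) × γ → Prop) : Prop where
  int : Int N R
  ex : ∀ i p, ∃ n, R ((p, n), i)
  uniq : ∀ i p n n', R ((p, n), i) → R ((p, n'), i) → n = n'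
  op : ∀ i n U, (∀ p, p ∈ U ↔ R ((p, n), i)) → O U
  all : ∀ F : α × INat N → Prop, Int N F → (∀ p, ∃ n, F (p, n)) →
    (∀ p n n', F (p, n) → F (p, n') → n = n') →
    (∀ n U, (∀ p, p ∈ U ↔ F (p, n)) → O U) → ∃ i, ∀ p n, R ((p, n), i) ↔ F (p, n)

/-- A point of the closure of the space in the power of `ω`. -/
structure Val (O : IPow N α → Prop) (R : (α × INat N) × γ → Prop) (Y : γ → INat N) : Prop
    extends Val0 O R where
  intY : IntF N Y
  fin : ∀ F : IPow N γ, IFin F → ∃ p, ∀ i, i ∈ F → R ((p, Y i), i)

/-- The property holds on a large set. -/
def Big (R : (α × INat N) × γ → Prop) (Y : γ → INat N) (φ : α → Prop) : Prop :=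
  ∃ i, ∀ p, R ((p, Y i), i) → φ p

variable {O : IPow N α → Prop} {R : (α × INat N) × γ → Prop} {Y : γ → INat N} {e : α → β → Helper672.Plain.El r}

theorem Big.mono {φ ψ : α → Prop} (h : Big R Y φ) (h1 : ∀ p, φ p → ψ p) : Big R Y ψ := by
  obtain ⟨i, hi⟩ := h
  exact ⟨i, fun p hp => h1 p (hi p hp)⟩

variable (hO : TpO O) (hR : Val O R Y)

include hR in
theorem Big.ex {φ : α → Prop} (h : Big R Y φ) : ∃ p, φ p := by
  obtain ⟨i, hi⟩ := h
  obtain ⟨p, hp⟩ := hR.fin {i} (IFin.singleton i)
  exact ⟨p, hi p (hp i (mem_singleton.2 rfl))⟩

omit hR in
include hO in
theorem exists_ind (hR : Val0 O R) {D E : IPow N α} (hD : O D) (hE : O E) (hDE : ∀ p, p ∈ E ↔ ¬ p ∈ D) :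
    ∃ i, ∀ p n, R ((p, n), i) ↔ (p ∈ D ∧ n = INat.succ 0) ∨ (¬ p ∈ D ∧ n = 0) := by
  refine hR.all (fun q => (q.1 ∈ D ∧ q.2 = INat.succ 0) ∨ (¬ q.1 ∈ D ∧ q.2 = 0)) (by (repeat' (first | with_reducible exact IntF.id | with_reducible exact IntF.fst' | with_reducible exact IntF.snd' | with_reducible exact IntF.const _ | with_reducible exact Int.const _ | assumption | with_reducible apply Int.and | with_reducible apply Int.or | with_reducible apply Int.not | with_reducible apply Int.imp | with_reducible apply Int.iff | with_reducible apply Int.ne | with_reducible apply Int.eq | with_reducible apply Int.mem | with_reducible apply Int.subset | with_reducible apply Int.ltN | with_reducible apply Int.leN | with_reducible_and_instances apply Int.le | with_reducible_and_instances apply Int.lt | with_reducible apply Int.all | with_reducible apply Int.ex | with_reducible apply IntF.fst | with_reducible apply IntF.snd | with_reducible apply IntF.app | with_reducible apply IntF.inl | with_reducible apply IntF.inr | with_reducible_and_instances apply IntF.mul | with_reducible_and_instances apply IntF.inv | with_reducible_and_instances apply IntF.add | with_reducible_and_instances apply IntF.sub | with_reducible_and_instances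 apply IntF.neg | with_reducible_and_instances apply IntF.smul | with_reducible apply Int.fin | with_reducible apply IntF.sep | with_reducible apply IntF.lam | with_reducible apply IntF.insert | with_reducible apply IntF.singleton | with_reducible apply IntF.union | with_reducible apply IntF.iimage | with_reducible apply IntF.ite | with_reducible apply IntF.the | with_reducible apply IntF.irec | with_reducible apply IntF.succ | with_reducible apply IntF.val | with_reducible apply IntF.mk | (with_reducible refine Int.comp ?_ ?_; assumption) | (with_reducible refine Int.comp₂ ?_ ?_ ?_; assumption) | (with_reducible refine Int.comp₃ ?_ ?_ ?_ ?_; assumption) | (with_reducible refine Int.comp₄ ?_ ?_ ?_ ?_ ?_; assumption) | (with_reducible refine IntF.comp ?_ ?_; assumption) | (with_reducible refine IntF.comp₂ ?_ ?_ ?_; assumption) | (with_reducible refine IntF.comp₃ ?_ ?_ ?_ ?_; assumption) | with_reducible apply IntF.pair)))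
    (fun p => ?_) ?_ fun n U hU => ?_
  · by_cases hp : p ∈ D
    · exact ⟨_, Or.inl ⟨hp, rfl⟩⟩
    · exact ⟨_, Or.inr ⟨hp, rfl⟩⟩
  · rintro p n n' (⟨h1, h2⟩ | ⟨h1, h2⟩) (⟨h3, h4⟩ | ⟨h3, h4⟩)
    · exact h2.trans h4.symm
    · exact absurd h1 h3
    · exact absurd h3 h1
    · exact h2.trans h4.symm
  · refine TpO.local' hO fun p hp => ?_
    rcases (hU p).1 hp with ⟨h1, h2⟩ | ⟨h1, h2⟩
    · exact ⟨D, hD, h1, fun q hq => (hU q).2 (Or.inl ⟨hq, h2⟩)⟩
    · exact ⟨E, hE, (hDE p).2 h1, fun q hq => (hU q).2 (Or.inr ⟨(hDE q).1 hq, h2⟩)⟩

include hO hR in
theorem big_or {D E : IPow N α} (hD : O D) (hE : O E) (hDE : ∀ p, p ∈ E ↔ ¬ p ∈ D) :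
    Big R Y (fun p => p ∈ D) ∨ Big R Y (fun p => ¬ p ∈ D) := by
  obtain ⟨i, hi⟩ := exists_ind hO hR.toVal0 hD hE hDE
  obtain ⟨p, hp⟩ := hR.fin {i} (IFin.singleton i)
  rcases (hi _ _).1 (hp i (mem_singleton.2 rfl)) with ⟨-, h2⟩ | ⟨-, h2⟩
  · refine Or.inl ⟨i, fun q hq => ?_⟩
    rcases (hi _ _).1 hq with h3 | h3
    · exact h3.1
    · exact absurd (h2.symm.trans h3.2) (INat.succ_ne_zero _)
  · refine Or.inr ⟨i, fun q hq => ?_⟩
    rcases (hi _ _).1 hq with h3 | h3
    · exact absurd (h3.2.symm.trans h2) (INat.succ_ne_zero _)
    · exact h3.1

include hO hR in
theorem Big.and {φ ψ : α → Prop} (h : Big R Y φ) (h' : Big R Y ψ) :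
    Big R Y (fun p => φ p ∧ ψ p) := by
  obtain ⟨i, hi⟩ := h
  obtain ⟨k, hk⟩ := h'
  have hRI := hR.int
  have hYI := hR.intY
  have hOI := hO.int
  have hD1 : ∀ (i : γ) (n : INat N) p, p ∈ sep N (fun p => R ((p, n), i)) ↔ R ((p, n), i) :=
    fun i n p => mem_sep (by (repeat' (first | with_reducible exact IntF.id | with_reducible exact IntF.fst' | with_reducible exact IntF.snd' | with_reducible exact IntF.const _ | with_reducible exact Int.const _ | assumption | with_reducible apply Int.and | with_reducible apply Int.or | with_reducible apply Int.not | with_reducible apply Int.imp | with_reducible apply Int.iff | with_reducible apply Int.ne | with_reducible apply Int.eq | with_reducible apply Int.mem | with_reducible apply Int.subset | with_reducible apply Int.ltN | with_reducible apply Int.leN | with_reducible_and_instances apply Int.le | with_reducible_and_instances apply Int.lt | with_reducible apply Int.all | with_reducible apply Int.ex | with_reducible apply IntF.fst | with_reducible apply IntF.snd | with_reducible apply IntF.app | with_reducible apply IntF.inl | with_reducible apply IntF.inr | with_reducible_and_instances apply IntF.mul | with_reducible_and_instances apply IntF.inv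 | with_reducible_and_instances apply IntF.add | with_reducible_and_instances apply IntF.sub | with_reducible_and_instances apply IntF.neg | with_reducible_and_instances apply IntF.smul | with_reducible apply Int.fin | with_reducible apply IntF.sep | with_reducible apply IntF.lam | with_reducible apply IntF.insert | with_reducible apply IntF.singleton | with_reducible apply IntF.union | with_reducible apply IntF.iimage | with_reducible apply IntF.ite | with_reducible apply IntF.the | with_reducible apply IntF.irec | with_reducible apply IntF.succ | with_reducible apply IntF.val | with_reducible apply IntF.mk | (with_reducible refine Int.comp ?_ ?_; assumption) | (with_reducible refine Int.comp₂ ?_ ?_ ?_; assumption) | (with_reducible refine Int.comp₃ ?_ ?_ ?_ ?_; assumption) | (with_reducible refine Int.comp₄ ?_ ?_ ?_ ?_ ?_; assumption) | (with_reducible refine IntF.comp ?_ ?_; assumption) | (with_reducible refine IntF.comp₂ ?_ ?_ ?_; assumption) | (with_reducible refine IntF.comp₃ ?_ ?_ ?_ ?_; assumption) | with_reducible apply IntF.pair)))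
  have hE1 : ∀ (i : γ) (n : INat N) p, p ∈ sep N (fun p => ¬ R ((p, n), i)) ↔ ¬ R ((p, n), i) :=
    fun i n p => mem_sep (by (repeat' (first | with_reducible exact IntF.id | with_reducible exact IntF.fst' | with_reducible exact IntF.snd' | with_reducible exact IntF.const _ | with_reducible exact Int.const _ | assumption | with_reducible apply Int.and | with_reducible apply Int.or | with_reducible apply Int.not | with_reducible apply Int.imp | with_reducible apply Int.iff | with_reducible apply Int.ne | with_reducible apply Int.eq | with_reducible apply Int.mem | with_reducible apply Int.subset | with_reducible apply Int.ltN | with_reducible apply Int.leN | with_reducible_and_instances apply Int.le | with_reducible_and_instances apply Int.lt | with_reducible apply Int.all | with_reducible apply Int.ex | with_reducible apply IntF.fst | with_reducible apply IntF.snd | with_reducible apply IntF.app | with_reducible apply IntF.inl | with_reducible apply IntF.inr | with_reducible_and_instances apply IntF.mul | with_reducible_and_instances apply IntF.inv | with_reducible_and_instances apply IntF.add | with_reducible_and_instances apply IntF.sub | with_reducible_and_instances apply IntF.neg | with_reducible_and_instances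 apply IntF.smul | with_reducible apply Int.fin | with_reducible apply IntF.sep | with_reducible apply IntF.lam | with_reducible apply IntF.insert | with_reducible apply IntF.singleton | with_reducible apply IntF.union | with_reducible apply IntF.iimage | with_reducible apply IntF.ite | with_reducible apply IntF.the | with_reducible apply IntF.irec | with_reducible apply IntF.succ | with_reducible apply IntF.val | with_reducible apply IntF.mk | (with_reducible refine Int.comp ?_ ?_; assumption) | (with_reducible refine Int.comp₂ ?_ ?_ ?_; assumption) | (with_reducible refine Int.comp₃ ?_ ?_ ?_ ?_; assumption) | (with_reducible refine Int.comp₄ ?_ ?_ ?_ ?_ ?_; assumption) | (with_reducible refine IntF.comp ?_ ?_; assumption) | (with_reducible refine IntF.comp₂ ?_ ?_ ?_; assumption) | (with_reducible refine IntF.comp₃ ?_ ?_ ?_ ?_; assumption) | with_reducible apply IntF.pair)))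
  have hE2 : ∀ (i : γ) (n : INat N), O (sep N fun p => ¬ R ((p, n), i)) := by
    intro i n
    refine TpO.local' hO fun p hp => ?_
    obtain ⟨m, hm⟩ := hR.ex i p
    refine ⟨_, hR.op i m _ (hD1 i m), (hD1 i m p).2 hm, fun q hq => (hE1 i n q).2 fun h1 => ?_⟩
    have h2 := hR.uniq i q m n ((hD1 i m q).1 hq) h1
    rw [h2] at hm
    exact (hE1 i n p).1 hp hm
  have hD2 : O (sep N fun p => R ((p, Y i), i) ∧ R ((p, Y k), k)) := by
    refine hO.inter _ _ _ (hR.op i (Y i) _ (hD1 i _)) (hR.op k (Y k) _ (hD1 k _)) fun a => ?_
    rw [mem_sep (by (repeat' (first | with_reducible exact IntF.id | with_reducible exact IntF.fst' | with_reducible exact IntF.snd' | with_reducible exact IntF.const _ | with_reducible exact Int.const _ | assumption | with_reducible apply Int.and | with_reducible apply Int.or | with_reducible apply Int.not | with_reducible apply Int.imp | with_reducible apply Int.iff | with_reducible apply Int.ne | with_reducible apply Int.eq | with_reducible apply Int.mem | with_reducible apply Int.subset | with_reducible apply Int.ltN | with_reducible apply Int.leN | with_reducible_and_instances apply Int.le | with_reducible_and_instances apply Int.lt | with_reducible apply Int.all |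 with_reducible apply Int.ex | with_reducible apply IntF.fst | with_reducible apply IntF.snd | with_reducible apply IntF.app | with_reducible apply IntF.inl | with_reducible apply IntF.inr | with_reducible_and_instances apply IntF.mul | with_reducible_and_instances apply IntF.inv | with_reducible_and_instances apply IntF.add | with_reducible_and_instances apply IntF.sub | with_reducible_and_instances apply IntF.neg | with_reducible_and_instances apply IntF.smul | with_reducible apply Int.fin | with_reducible apply IntF.sep | with_reducible apply IntF.lam | with_reducible apply IntF.insert | with_reducible apply IntF.singleton | with_reducible apply IntF.union | with_reducible apply IntF.iimage | with_reducible apply IntF.ite | with_reducible apply IntF.the | with_reducible apply IntF.irec | with_reducible apply IntF.succ | with_reducible apply IntF.val | with_reducible apply IntF.mk | (with_reducible refine Int.comp ?_ ?_; assumption) | (with_reducible refine Int.comp₂ ?_ ?_ ?_; assumption) | (with_reducible refine Int.comp₃ ?_ ?_ ?_ ?_; assumption) | (with_reducible refine Int.comp₄ ?_ ?_ ?_ ?_ ?_; assumption) | (with_reducible refine IntF.comp ?_ ?_; assumption) | (with_reducible refine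 IntF.comp₂ ?_ ?_ ?_; assumption) | (with_reducible refine IntF.comp₃ ?_ ?_ ?_ ?_; assumption) | with_reducible apply IntF.pair))), hD1, hD1]
  have hE3 : O (sep N fun p => ¬ (R ((p, Y i), i) ∧ R ((p, Y k), k))) := by
    refine TpO.local' hO fun p hp => ?_
    rw [mem_sep (by (repeat' (first | with_reducible exact IntF.id | with_reducible exact IntF.fst' | with_reducible exact IntF.snd' | with_reducible exact IntF.const _ | with_reducible exact Int.const _ | assumption | with_reducible apply Int.and | with_reducible apply Int.or | with_reducible apply Int.not | with_reducible apply Int.imp | with_reducible apply Int.iff | with_reducible apply Int.ne | with_reducible apply Int.eq | with_reducible apply Int.mem | with_reducible apply Int.subset | with_reducible apply Int.ltN | with_reducible apply Int.leN | with_reducible_and_instances apply Int.le | with_reducible_and_instances apply Int.lt | with_reducible apply Int.all | with_reducible apply Int.ex | with_reducible apply IntF.fst | with_reducible apply IntF.snd | with_reducible apply IntF.app | with_reducible apply IntF.inl | with_reducible apply IntF.inr | with_reducible_and_instances apply IntF.mul | with_reducible_and_instances apply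 IntF.inv | with_reducible_and_instances apply IntF.add | with_reducible_and_instances apply IntF.sub | with_reducible_and_instances apply IntF.neg | with_reducible_and_instances apply IntF.smul | with_reducible apply Int.fin | with_reducible apply IntF.sep | with_reducible apply IntF.lam | with_reducible apply IntF.insert | with_reducible apply IntF.singleton | with_reducible apply IntF.union | with_reducible apply IntF.iimage | with_reducible apply IntF.ite | with_reducible apply IntF.the | with_reducible apply IntF.irec | with_reducible apply IntF.succ | with_reducible apply IntF.val | with_reducible apply IntF.mk | (with_reducible refine Int.comp ?_ ?_; assumption) | (with_reducible refine Int.comp₂ ?_ ?_ ?_; assumption) | (with_reducible refine Int.comp₃ ?_ ?_ ?_ ?_; assumption) | (with_reducible refine Int.comp₄ ?_ ?_ ?_ ?_ ?_; assumption) | (with_reducible refine IntF.comp ?_ ?_; assumption) | (with_reducible refine IntF.comp₂ ?_ ?_ ?_; assumption) | (with_reducible refine IntF.comp₃ ?_ ?_ ?_ ?_; assumption) | with_reducible apply IntF.pair)))] at hp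
    by_cases h1 : R ((p, Y i), i)
    · refine ⟨_, hE2 k (Y k), (hE1 _ _ _).2 fun h2 => hp ⟨h1, h2⟩, fun q hq =>
        (mem_sep (by (repeat' (first | with_reducible exact IntF.id | with_reducible exact IntF.fst' | with_reducible exact IntF.snd' | with_reducible exact IntF.const _ | with_reducible exact Int.const _ | assumption | with_reducible apply Int.and | with_reducible apply Int.or | with_reducible apply Int.not | with_reducible apply Int.imp | with_reducible apply Int.iff | with_reducible apply Int.ne | with_reducible apply Int.eq | with_reducible apply Int.mem | with_reducible apply Int.subset | with_reducible apply Int.ltN | with_reducible apply Int.leN | with_reducible_and_instances apply Int.le | with_reducible_and_instances apply Int.lt | with_reducible apply Int.all | with_reducible apply Int.ex | with_reducible apply IntF.fst | with_reducible apply IntF.snd | with_reducible apply IntF.app | with_reducible apply IntF.inl | with_reducible apply IntF.inr | with_reducible_and_instances apply IntF.mul | with_reducible_and_instances apply IntF.inv | with_reducible_and_instances apply IntF.add | with_reducible_and_instances apply IntF.sub | with_reducible_and_instances apply IntF.neg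 | with_reducible_and_instances apply IntF.smul | with_reducible apply Int.fin | with_reducible apply IntF.sep | with_reducible apply IntF.lam | with_reducible apply IntF.insert | with_reducible apply IntF.singleton | with_reducible apply IntF.union | with_reducible apply IntF.iimage | with_reducible apply IntF.ite | with_reducible apply IntF.the | with_reducible apply IntF.irec | with_reducible apply IntF.succ | with_reducible apply IntF.val | with_reducible apply IntF.mk | (with_reducible refine Int.comp ?_ ?_; assumption) | (with_reducible refine Int.comp₂ ?_ ?_ ?_; assumption) | (with_reducible refine Int.comp₃ ?_ ?_ ?_ ?_; assumption) | (with_reducible refine Int.comp₄ ?_ ?_ ?_ ?_ ?_; assumption) | (with_reducible refine IntF.comp ?_ ?_; assumption) | (with_reducible refine IntF.comp₂ ?_ ?_ ?_; assumption) | (with_reducible refine IntF.comp₃ ?_ ?_ ?_ ?_; assumption) | with_reducible apply IntF.pair)))).2 fun h3 => (hE1 _ _ _).1 hq h3.2⟩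
    · refine ⟨_, hE2 i (Y i), (hE1 _ _ _).2 h1, fun q hq =>
        (mem_sep (by (repeat' (first | with_reducible exact IntF.id | with_reducible exact IntF.fst' | with_reducible exact IntF.snd' | with_reducible exact IntF.const _ | with_reducible exact Int.const _ | assumption | with_reducible apply Int.and | with_reducible apply Int.or | with_reducible apply Int.not | with_reducible apply Int.imp | with_reducible apply Int.iff | with_reducible apply Int.ne | with_reducible apply Int.eq | with_reducible apply Int.mem | with_reducible apply Int.subset | with_reducible apply Int.ltN | with_reducible apply Int.leN | with_reducible_and_instances apply Int.le | with_reducible_and_instances apply Int.lt | with_reducible apply Int.all | with_reducible apply Int.ex | with_reducible apply IntF.fst | with_reducible apply IntF.snd | with_reducible apply IntF.app | with_reducible apply IntF.inl | with_reducible apply IntF.inr | with_reducible_and_instances apply IntF.mul | with_reducible_and_instances apply IntF.inv | with_reducible_and_instances apply IntF.add | with_reducible_and_instances apply IntF.sub | with_reducible_and_instances apply IntF.neg | with_reducible_and_instances apply IntF.smul |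 with_reducible apply Int.fin | with_reducible apply IntF.sep | with_reducible apply IntF.lam | with_reducible apply IntF.insert | with_reducible apply IntF.singleton | with_reducible apply IntF.union | with_reducible apply IntF.iimage | with_reducible apply IntF.ite | with_reducible apply IntF.the | with_reducible apply IntF.irec | with_reducible apply IntF.succ | with_reducible apply IntF.val | with_reducible apply IntF.mk | (with_reducible refine Int.comp ?_ ?_; assumption) | (with_reducible refine Int.comp₂ ?_ ?_ ?_; assumption) | (with_reducible refine Int.comp₃ ?_ ?_ ?_ ?_; assumption) | (with_reducible refine Int.comp₄ ?_ ?_ ?_ ?_ ?_; assumption) | (with_reducible refine IntF.comp ?_ ?_; assumption) | (with_reducible refine IntF.comp₂ ?_ ?_ ?_; assumption) | (with_reducible refine IntF.comp₃ ?_ ?_ ?_ ?_; assumption) | with_reducible apply IntF.pair)))).2 fun h3 => (hE1 _ _ _).1 hq h3.1⟩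
  obtain ⟨j, hj⟩ := exists_ind hO hR.toVal0 hD2 hE3 fun p => by
    rw [mem_sep (by (repeat' (first | with_reducible exact IntF.id | with_reducible exact IntF.fst' | with_reducible exact IntF.snd' | with_reducible exact IntF.const _ | with_reducible exact Int.const _ | assumption | with_reducible apply Int.and | with_reducible apply Int.or | with_reducible apply Int.not | with_reducible apply Int.imp | with_reducible apply Int.iff | with_reducible apply Int.ne | with_reducible apply Int.eq | with_reducible apply Int.mem | with_reducible apply Int.subset | with_reducible apply Int.ltN | with_reducible apply Int.leN | with_reducible_and_instances apply Int.le | with_reducible_and_instances apply Int.lt | with_reducible apply Int.all | with_reducible apply Int.ex | with_reducible apply IntF.fst | with_reducible apply IntF.snd | with_reducible apply IntF.app | with_reducible apply IntF.inl | with_reducible apply IntF.inr | with_reducible_and_instances apply IntF.mul | with_reducible_and_instances apply IntF.inv | with_reducible_and_instances apply IntF.add | with_reducible_and_instances apply IntF.sub | with_reducible_and_instances apply IntF.neg | with_reducible_and_instances apply IntF.smul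 | with_reducible apply Int.fin | with_reducible apply IntF.sep | with_reducible apply IntF.lam | with_reducible apply IntF.insert | with_reducible apply IntF.singleton | with_reducible apply IntF.union | with_reducible apply IntF.iimage | with_reducible apply IntF.ite | with_reducible apply IntF.the | with_reducible apply IntF.irec | with_reducible apply IntF.succ | with_reducible apply IntF.val | with_reducible apply IntF.mk | (with_reducible refine Int.comp ?_ ?_; assumption) | (with_reducible refine Int.comp₂ ?_ ?_ ?_; assumption) | (with_reducible refine Int.comp₃ ?_ ?_ ?_ ?_; assumption) | (with_reducible refine Int.comp₄ ?_ ?_ ?_ ?_ ?_; assumption) | (with_reducible refine IntF.comp ?_ ?_; assumption) | (with_reducible refine IntF.comp₂ ?_ ?_ ?_; assumption) | (with_reducible refine IntF.comp₃ ?_ ?_ ?_ ?_; assumption) | with_reducible apply IntF.pair))), mem_sep (by (repeat' (first | with_reducible exact IntF.id | with_reducible exact IntF.fst' | with_reducible exact IntF.snd' | with_reducible exact IntF.const _ | with_reducible exact Int.const _ | assumption | with_reducible apply Int.and | with_reducible apply Int.or | with_reducible apply Int.not | with_reducible apply Int.imp |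 with_reducible apply Int.iff | with_reducible apply Int.ne | with_reducible apply Int.eq | with_reducible apply Int.mem | with_reducible apply Int.subset | with_reducible apply Int.ltN | with_reducible apply Int.leN | with_reducible_and_instances apply Int.le | with_reducible_and_instances apply Int.lt | with_reducible apply Int.all | with_reducible apply Int.ex | with_reducible apply IntF.fst | with_reducible apply IntF.snd | with_reducible apply IntF.app | with_reducible apply IntF.inl | with_reducible apply IntF.inr | with_reducible_and_instances apply IntF.mul | with_reducible_and_instances apply IntF.inv | with_reducible_and_instances apply IntF.add | with_reducible_and_instances apply IntF.sub | with_reducible_and_instances apply IntF.neg | with_reducible_and_instances apply IntF.smul | with_reducible apply Int.fin | with_reducible apply IntF.sep | with_reducible apply IntF.lam | with_reducible apply IntF.insert | with_reducible apply IntF.singleton | with_reducible apply IntF.union | with_reducible apply IntF.iimage | with_reducible apply IntF.ite | with_reducible apply IntF.the | with_reducible apply IntF.irec | with_reducible apply IntF.succ | with_reducible apply IntF.val | with_reducible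 apply IntF.mk | (with_reducible refine Int.comp ?_ ?_; assumption) | (with_reducible refine Int.comp₂ ?_ ?_ ?_; assumption) | (with_reducible refine Int.comp₃ ?_ ?_ ?_ ?_; assumption) | (with_reducible refine Int.comp₄ ?_ ?_ ?_ ?_ ?_; assumption) | (with_reducible refine IntF.comp ?_ ?_; assumption) | (with_reducible refine IntF.comp₂ ?_ ?_ ?_; assumption) | (with_reducible refine IntF.comp₃ ?_ ?_ ?_ ?_; assumption) | with_reducible apply IntF.pair)))]
  obtain ⟨p, hp⟩ := hR.fin (insert j (insert i {k})) (((IFin.singleton k).insert i).insert j)
  have hpj := hp j (mem_insert.2 (Or.inl rfl))
  have hpi := hp i (mem_insert.2 (Or.inr (mem_insert.2 (Or.inl rfl))))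
  have hpk := hp k (mem_insert.2 (Or.inr (mem_insert.2 (Or.inr (mem_singleton.2 rfl)))))
  have hYj : Y j = INat.succ 0 := by
    rcases (hj _ _).1 hpj with h1 | h1
    · exact h1.2
    · exact absurd ((mem_sep (by (repeat' (first | with_reducible exact IntF.id | with_reducible exact IntF.fst' | with_reducible exact IntF.snd' | with_reducible exact IntF.const _ | with_reducible exact Int.const _ | assumption | with_reducible apply Int.and | with_reducible apply Int.or | with_reducible apply Int.not | with_reducible apply Int.imp | with_reducible apply Int.iff | with_reducible apply Int.ne | with_reducible apply Int.eq | with_reducible apply Int.mem | with_reducible apply Int.subset | with_reducible apply Int.ltN | with_reducible apply Int.leN | with_reducible_and_instances apply Int.le | with_reducible_and_instances apply Int.lt | with_reducible apply Int.all | with_reducible apply Int.ex | with_reducible apply IntF.fst | with_reducible apply IntF.snd | with_reducible apply IntF.app | with_reducible apply IntF.inl | with_reducible apply IntF.inr | with_reducible_and_instances apply IntF.mul | with_reducible_and_instances apply IntF.inv | with_reducible_and_instances apply IntF.add | with_reducible_and_instances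 apply IntF.sub | with_reducible_and_instances apply IntF.neg | with_reducible_and_instances apply IntF.smul | with_reducible apply Int.fin | with_reducible apply IntF.sep | with_reducible apply IntF.lam | with_reducible apply IntF.insert | with_reducible apply IntF.singleton | with_reducible apply IntF.union | with_reducible apply IntF.iimage | with_reducible apply IntF.ite | with_reducible apply IntF.the | with_reducible apply IntF.irec | with_reducible apply IntF.succ | with_reducible apply IntF.val | with_reducible apply IntF.mk | (with_reducible refine Int.comp ?_ ?_; assumption) | (with_reducible refine Int.comp₂ ?_ ?_ ?_; assumption) | (with_reducible refine Int.comp₃ ?_ ?_ ?_ ?_; assumption) | (with_reducible refine Int.comp₄ ?_ ?_ ?_ ?_ ?_; assumption) | (with_reducible refine IntF.comp ?_ ?_; assumption) | (with_reducible refine IntF.comp₂ ?_ ?_ ?_; assumption) | (with_reducible refine IntF.comp₃ ?_ ?_ ?_ ?_; assumption) | with_reducible apply IntF.pair)))).2 ⟨hpi, hpk⟩) h1.1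
  refine ⟨j, fun q hq => ?_⟩
  rcases (hj _ _).1 hq with h1 | h1
  · have h2 := (mem_sep (by (repeat' (first | with_reducible exact IntF.id | with_reducible exact IntF.fst' | with_reducible exact IntF.snd' | with_reducible exact IntF.const _ | with_reducible exact Int.const _ | assumption | with_reducible apply Int.and | with_reducible apply Int.or | with_reducible apply Int.not | with_reducible apply Int.imp | with_reducible apply Int.iff | with_reducible apply Int.ne | with_reducible apply Int.eq | with_reducible apply Int.mem | with_reducible apply Int.subset | with_reducible apply Int.ltN | with_reducible apply Int.leN | with_reducible_and_instances apply Int.le | with_reducible_and_instances apply Int.lt | with_reducible apply Int.all | with_reducible apply Int.ex | with_reducible apply IntF.fst | with_reducible apply IntF.snd | with_reducible apply IntF.app | with_reducible apply IntF.inl | with_reducible apply IntF.inr | with_reducible_and_instances apply IntF.mul | with_reducible_and_instances apply IntF.inv | with_reducible_and_instances apply IntF.add | with_reducible_and_instances apply IntF.sub | with_reducible_and_instances apply IntF.neg | with_reducible_and_instances apply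 IntF.smul | with_reducible apply Int.fin | with_reducible apply IntF.sep | with_reducible apply IntF.lam | with_reducible apply IntF.insert | with_reducible apply IntF.singleton | with_reducible apply IntF.union | with_reducible apply IntF.iimage | with_reducible apply IntF.ite | with_reducible apply IntF.the | with_reducible apply IntF.irec | with_reducible apply IntF.succ | with_reducible apply IntF.val | with_reducible apply IntF.mk | (with_reducible refine Int.comp ?_ ?_; assumption) | (with_reducible refine Int.comp₂ ?_ ?_ ?_; assumption) | (with_reducible refine Int.comp₃ ?_ ?_ ?_ ?_; assumption) | (with_reducible refine Int.comp₄ ?_ ?_ ?_ ?_ ?_; assumption) | (with_reducible refine IntF.comp ?_ ?_; assumption) | (with_reducible refine IntF.comp₂ ?_ ?_ ?_; assumption) | (with_reducible refine IntF.comp₃ ?_ ?_ ?_ ?_; assumption) | with_reducible apply IntF.pair)))).1 h1.1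
    exact ⟨hi q h2.1, hk q h2.2⟩
  · exact absurd (hYj.symm.trans h1.2) (INat.succ_ne_zero _)

/-- The distance of a real number to the natural numbers. -/
theorem exists_delta (hr : IsReals r) {ι : INat N → Helper672.Plain.El r} (hι : IntF N ι) : ∃ δ : Helper672.Plain.El r → Helper672.Plain.El r,
    IntF N δ ∧ (∀ s k, δ s ≤ |s - ι k|) ∧ (∀ s z, (∀ k, z ≤ |s - ι k|) → z ≤ δ s) ∧
      ∀ s s', |δ s - δ s'| ≤ |s - s'| := by
  have hle := int_le hr
  obtain ⟨d, hdI, hd⟩ : ∃ d : Helper672.Plain.El r → Helper672.Plain.El r → Helper672.Plain.El r, IntF N (fun q : Helper672.Plain.El r × Helper672.Plain.El r => d q.1 q.2) ∧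
      ∀ a b, d a b = |a - b| := ⟨fun a b => |a - b|, int_dist hr, fun _ _ => rfl⟩
  have hex : ∀ s : Helper672.Plain.El r, ∃ z : Helper672.Plain.El r, (∀ k, z ≤ d s (ι k)) ∧ ∀ z', (∀ k, z' ≤ d s (ι k)) → z' ≤ z := by
    intro s
    have hS : Int N (fun z : Helper672.Plain.El r => ∀ k, z ≤ d s (ι k)) := by (repeat' (first | with_reducible exact IntF.id | with_reducible exact IntF.fst' | with_reducible exact IntF.snd' | with_reducible exact IntF.const _ | with_reducible exact Int.const _ | assumption | with_reducible apply Int.and | with_reducible apply Int.or | with_reducible apply Int.not | with_reducible apply Int.imp | with_reducible apply Int.iff | with_reducible apply Int.ne | with_reducible apply Int.eq | with_reducible apply Int.mem | with_reducible apply Int.subset | with_reducible apply Int.ltN | with_reducible apply Int.leN | with_reducible_and_instances apply Int.le | with_reducible_and_instances apply Int.lt | with_reducible apply Int.all | with_reducible apply Int.ex | with_reducible apply IntF.fst | with_reducible apply IntF.snd | with_reducible apply IntF.app | with_reducible apply IntF.inl | with_reducible apply IntF.inr | with_reducible_and_instances apply IntF.mul | with_reducible_and_instances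 apply IntF.inv | with_reducible_and_instances apply IntF.add | with_reducible_and_instances apply IntF.sub | with_reducible_and_instances apply IntF.neg | with_reducible_and_instances apply IntF.smul | with_reducible apply Int.fin | with_reducible apply IntF.sep | with_reducible apply IntF.lam | with_reducible apply IntF.insert | with_reducible apply IntF.singleton | with_reducible apply IntF.union | with_reducible apply IntF.iimage | with_reducible apply IntF.ite | with_reducible apply IntF.the | with_reducible apply IntF.irec | with_reducible apply IntF.succ | with_reducible apply IntF.val | with_reducible apply IntF.mk | (with_reducible refine Int.comp ?_ ?_; assumption) | (with_reducible refine Int.comp₂ ?_ ?_ ?_; assumption) | (with_reducible refine Int.comp₃ ?_ ?_ ?_ ?_; assumption) | (with_reducible refine Int.comp₄ ?_ ?_ ?_ ?_ ?_; assumption) | (with_reducible refine IntF.comp ?_ ?_; assumption) | (with_reducible refine IntF.comp₂ ?_ ?_ ?_; assumption) | (with_reducible refine IntF.comp₃ ?_ ?_ ?_ ?_; assumption) | with_reducible apply IntF.pair))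
    obtain ⟨S, hS1⟩ := exists_set hS
    obtain ⟨z, h2, h3⟩ := hr.complete ⟨S, fun z hz => ((hS1 z).1 hz).1⟩
      ⟨(0 : Helper672.Plain.El r).1, (hS1 _).2 ⟨(0 : Helper672.Plain.El r).2, fun k => by
        rw [hd]
        exact abs_nonneg _⟩⟩
      ⟨d s (ι 0), fun w hw => by
        obtain ⟨_, hn⟩ := (hS1 w.1).1 hw
        exact hn 0⟩
    refine ⟨z, fun k => h3 fun w hw => ?_, fun z' hz' => h2 ((hS1 _).2 ⟨z'.2, hz'⟩)⟩
    obtain ⟨_, hn⟩ := (hS1 w.1).1 hw
    exact hn k
  choose δ hδ using hex
  have hδI : IntF N δ := IntF.of_unique (p := fun (s z : Helper672.Plain.El r) => (∀ k, z ≤ d s (ι k)) ∧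
      ∀ z', (∀ k, z' ≤ d s (ι k)) → z' ≤ z) (by (repeat' (first | with_reducible exact IntF.id | with_reducible exact IntF.fst' | with_reducible exact IntF.snd' | with_reducible exact IntF.const _ | with_reducible exact Int.const _ | assumption | with_reducible apply Int.and | with_reducible apply Int.or | with_reducible apply Int.not | with_reducible apply Int.imp | with_reducible apply Int.iff | with_reducible apply Int.ne | with_reducible apply Int.eq | with_reducible apply Int.mem | with_reducible apply Int.subset | with_reducible apply Int.ltN | with_reducible apply Int.leN | with_reducible_and_instances apply Int.le | with_reducible_and_instances apply Int.lt | with_reducible apply Int.all | with_reducible apply Int.ex | with_reducible apply IntF.fst | with_reducible apply IntF.snd | with_reducible apply IntF.app | with_reducible apply IntF.inl | with_reducible apply IntF.inr | with_reducible_and_instances apply IntF.mul | with_reducible_and_instances apply IntF.inv | with_reducible_and_instances apply IntF.add | with_reducible_and_instances apply IntF.sub | with_reducible_and_instances apply IntF.neg | with_reducible_and_instances apply IntF.smul | with_reducible apply Int.fin | with_reducible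 apply IntF.sep | with_reducible apply IntF.lam | with_reducible apply IntF.insert | with_reducible apply IntF.singleton | with_reducible apply IntF.union | with_reducible apply IntF.iimage | with_reducible apply IntF.ite | with_reducible apply IntF.the | with_reducible apply IntF.irec | with_reducible apply IntF.succ | with_reducible apply IntF.val | with_reducible apply IntF.mk | (with_reducible refine Int.comp ?_ ?_; assumption) | (with_reducible refine Int.comp₂ ?_ ?_ ?_; assumption) | (with_reducible refine Int.comp₃ ?_ ?_ ?_ ?_; assumption) | (with_reducible refine Int.comp₄ ?_ ?_ ?_ ?_ ?_; assumption) | (with_reducible refine IntF.comp ?_ ?_; assumption) | (with_reducible refine IntF.comp₂ ?_ ?_ ?_; assumption) | (with_reducible refine IntF.comp₃ ?_ ?_ ?_ ?_; assumption) | with_reducible apply IntF.pair))) hδ fun c z z' h h' =>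
    le_antisymm (h'.2 z h.1) (h.2 z' h'.1)
  simp only [hd] at hδ
  have hlip : ∀ s s', δ s - |s - s'| ≤ δ s' := fun s s' => (hδ s').2 _ fun k => by
    have h1 := (hδ s).1 k
    have h2 := abs_add_le (s - s') (s' - ι k)
    rw [sub_add_sub_cancel] at h2
    linarith
  refine ⟨δ, hδI, fun s k => (hδ s).1 k, fun s z h => (hδ s).2 z h, fun s s' => abs_le.2 ⟨?_, ?_⟩⟩
  · have := hlip s' s
    rw [abs_sub_comm] at this
    linarith
  · have := hlip s s'
    linarith

theorem Ct.comp {u : α → Helper672.Plain.El r} (hu : Ct O u) {g : Helper672.Plain.El r → Helper672.Plain.El r}
    (hg : ∀ s s', |g s - g s'| ≤ |s - s'|) : Ct O (fun p => g (u p)) := by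
  intro p ε hε
  obtain ⟨U, h1, h2, h3⟩ := hu p ε hε
  exact ⟨U, h1, h2, fun q hq => (hg _ _).trans_lt (h3 q hq)⟩

variable (hr : IsReals r) (he : Emb O e)

omit hR in
include hO in
theorem exists_open_fin (hR : Val0 O R) (F : IPow N γ) (hF : IFin F) (p : α) : ∃ U, O U ∧ p ∈ U ∧
    ∀ q, q ∈ U → ∀ i, i ∈ F → ∀ n, R ((p, n), i) → R ((q, n), i) := by
  have hOI := hO.int
  have hRI := hR.int
  refine IFin.ind (p := fun F : IPow N γ => ∃ U, O U ∧ p ∈ U ∧
    ∀ q, q ∈ U → ∀ i, i ∈ F → ∀ n, R ((p, n), i) → R ((q, n), i)) (by (repeat' (first | with_reducible exact IntF.id | with_reducible exact IntF.fst' | with_reducible exact IntF.snd' | with_reducible exact IntF.const _ | with_reducible exact Int.const _ | assumption | with_reducible apply Int.and | with_reducible apply Int.or | with_reducible apply Int.not | with_reducible apply Int.imp | with_reducible apply Int.iff | with_reducible apply Int.ne | with_reducible apply Int.eq | with_reducible apply Int.mem | with_reducible apply Int.subset | with_reducible apply Int.ltN | with_reducible apply Int.leN | with_reducible_and_instances apply Int.le | with_reducible_and_instances apply Int.lt | with_reducible apply Int.all | with_reducible apply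 Int.ex | with_reducible apply IntF.fst | with_reducible apply IntF.snd | with_reducible apply IntF.app | with_reducible apply IntF.inl | with_reducible apply IntF.inr | with_reducible_and_instances apply IntF.mul | with_reducible_and_instances apply IntF.inv | with_reducible_and_instances apply IntF.add | with_reducible_and_instances apply IntF.sub | with_reducible_and_instances apply IntF.neg | with_reducible_and_instances apply IntF.smul | with_reducible apply Int.fin | with_reducible apply IntF.sep | with_reducible apply IntF.lam | with_reducible apply IntF.insert | with_reducible apply IntF.singleton | with_reducible apply IntF.union | with_reducible apply IntF.iimage | with_reducible apply IntF.ite | with_reducible apply IntF.the | with_reducible apply IntF.irec | with_reducible apply IntF.succ | with_reducible apply IntF.val | with_reducible apply IntF.mk | (with_reducible refine Int.comp ?_ ?_; assumption) | (with_reducible refine Int.comp₂ ?_ ?_ ?_; assumption) | (with_reducible refine Int.comp₃ ?_ ?_ ?_ ?_; assumption) | (with_reducible refine Int.comp₄ ?_ ?_ ?_ ?_ ?_; assumption) | (with_reducible refine IntF.comp ?_ ?_; assumption) | (with_reducible refine IntF.comp₂ ?_ ?_ ?_;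 assumption) | (with_reducible refine IntF.comp₃ ?_ ?_ ?_ ?_; assumption) | with_reducible apply IntF.pair))) ?_ ?_ F hF
  · have hD : ∀ p : α, p ∈ sep N (fun p : α => p = p) := fun p => (mem_sep (by (repeat' (first | with_reducible exact IntF.id | with_reducible exact IntF.fst' | with_reducible exact IntF.snd' | with_reducible exact IntF.const _ | with_reducible exact Int.const _ | assumption | with_reducible apply Int.and | with_reducible apply Int.or | with_reducible apply Int.not | with_reducible apply Int.imp | with_reducible apply Int.iff | with_reducible apply Int.ne | with_reducible apply Int.eq | with_reducible apply Int.mem | with_reducible apply Int.subset | with_reducible apply Int.ltN | with_reducible apply Int.leN | with_reducible_and_instances apply Int.le | with_reducible_and_instances apply Int.lt | with_reducible apply Int.all | with_reducible apply Int.ex | with_reducible apply IntF.fst | with_reducible apply IntF.snd | with_reducible apply IntF.app | with_reducible apply IntF.inl | with_reducible apply IntF.inr | with_reducible_and_instances apply IntF.mul | with_reducible_and_instances apply IntF.inv | with_reducible_and_instances apply IntF.add | with_reducible_and_instances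 apply IntF.sub | with_reducible_and_instances apply IntF.neg | with_reducible_and_instances apply IntF.smul | with_reducible apply Int.fin | with_reducible apply IntF.sep | with_reducible apply IntF.lam | with_reducible apply IntF.insert | with_reducible apply IntF.singleton | with_reducible apply IntF.union | with_reducible apply IntF.iimage | with_reducible apply IntF.ite | with_reducible apply IntF.the | with_reducible apply IntF.irec | with_reducible apply IntF.succ | with_reducible apply IntF.val | with_reducible apply IntF.mk | (with_reducible refine Int.comp ?_ ?_; assumption) | (with_reducible refine Int.comp₂ ?_ ?_ ?_; assumption) | (with_reducible refine Int.comp₃ ?_ ?_ ?_ ?_; assumption) | (with_reducible refine Int.comp₄ ?_ ?_ ?_ ?_ ?_; assumption) | (with_reducible refine IntF.comp ?_ ?_; assumption) | (with_reducible refine IntF.comp₂ ?_ ?_ ?_; assumption) | (with_reducible refine IntF.comp₃ ?_ ?_ ?_ ?_; assumption) | with_reducible apply IntF.pair)))).2 rfl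
    exact ⟨_, hO.univ _ hD, hD p, fun q _ i hi => absurd hi (by simp)⟩
  · rintro F i - - ⟨U, h1, h2, h3⟩
    obtain ⟨n, hn⟩ := hR.ex i p
    have hD1 : ∀ p, p ∈ sep N (fun p => R ((p, n), i)) ↔ R ((p, n), i) :=
      fun p => mem_sep (by (repeat' (first | with_reducible exact IntF.id | with_reducible exact IntF.fst' | with_reducible exact IntF.snd' | with_reducible exact IntF.const _ | with_reducible exact Int.const _ | assumption | with_reducible apply Int.and | with_reducible apply Int.or | with_reducible apply Int.not | with_reducible apply Int.imp | with_reducible apply Int.iff | with_reducible apply Int.ne | with_reducible apply Int.eq | with_reducible apply Int.mem | with_reducible apply Int.subset | with_reducible apply Int.ltN | with_reducible apply Int.leN | with_reducible_and_instances apply Int.le | with_reducible_and_instances apply Int.lt | with_reducible apply Int.all | with_reducible apply Int.ex | with_reducible apply IntF.fst | with_reducible apply IntF.snd | with_reducible apply IntF.app | with_reducible apply IntF.inl | with_reducible apply IntF.inr | with_reducible_and_instances apply IntF.mul | with_reducible_and_instances apply IntF.inv | with_reducible_and_instances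 apply IntF.add | with_reducible_and_instances apply IntF.sub | with_reducible_and_instances apply IntF.neg | with_reducible_and_instances apply IntF.smul | with_reducible apply Int.fin | with_reducible apply IntF.sep | with_reducible apply IntF.lam | with_reducible apply IntF.insert | with_reducible apply IntF.singleton | with_reducible apply IntF.union | with_reducible apply IntF.iimage | with_reducible apply IntF.ite | with_reducible apply IntF.the | with_reducible apply IntF.irec | with_reducible apply IntF.succ | with_reducible apply IntF.val | with_reducible apply IntF.mk | (with_reducible refine Int.comp ?_ ?_; assumption) | (with_reducible refine Int.comp₂ ?_ ?_ ?_; assumption) | (with_reducible refine Int.comp₃ ?_ ?_ ?_ ?_; assumption) | (with_reducible refine Int.comp₄ ?_ ?_ ?_ ?_ ?_; assumption) | (with_reducible refine IntF.comp ?_ ?_; assumption) | (with_reducible refine IntF.comp₂ ?_ ?_ ?_; assumption) | (with_reducible refine IntF.comp₃ ?_ ?_ ?_ ?_; assumption) | with_reducible apply IntF.pair)))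
    have hD2 : ∀ q, q ∈ sep N (fun q => q ∈ U ∧ q ∈ sep N (fun p => R ((p, n), i))) ↔
      q ∈ U ∧ q ∈ sep N (fun p => R ((p, n), i)) := fun p => mem_sep (by (repeat' (first | with_reducible exact IntF.id | with_reducible exact IntF.fst' | with_reducible exact IntF.snd' | with_reducible exact IntF.const _ | with_reducible exact Int.const _ | assumption | with_reducible apply Int.and | with_reducible apply Int.or | with_reducible apply Int.not | with_reducible apply Int.imp | with_reducible apply Int.iff | with_reducible apply Int.ne | with_reducible apply Int.eq | with_reducible apply Int.mem | with_reducible apply Int.subset | with_reducible apply Int.ltN | with_reducible apply Int.leN | with_reducible_and_instances apply Int.le | with_reducible_and_instances apply Int.lt | with_reducible apply Int.all | with_reducible apply Int.ex | with_reducible apply IntF.fst | with_reducible apply IntF.snd | with_reducible apply IntF.app | with_reducible apply IntF.inl | with_reducible apply IntF.inr | with_reducible_and_instances apply IntF.mul | with_reducible_and_instances apply IntF.inv | with_reducible_and_instances apply IntF.add | with_reducible_and_instances apply IntF.sub | with_reducible_and_instances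 apply IntF.neg | with_reducible_and_instances apply IntF.smul | with_reducible apply Int.fin | with_reducible apply IntF.sep | with_reducible apply IntF.lam | with_reducible apply IntF.insert | with_reducible apply IntF.singleton | with_reducible apply IntF.union | with_reducible apply IntF.iimage | with_reducible apply IntF.ite | with_reducible apply IntF.the | with_reducible apply IntF.irec | with_reducible apply IntF.succ | with_reducible apply IntF.val | with_reducible apply IntF.mk | (with_reducible refine Int.comp ?_ ?_; assumption) | (with_reducible refine Int.comp₂ ?_ ?_ ?_; assumption) | (with_reducible refine Int.comp₃ ?_ ?_ ?_ ?_; assumption) | (with_reducible refine Int.comp₄ ?_ ?_ ?_ ?_ ?_; assumption) | (with_reducible refine IntF.comp ?_ ?_; assumption) | (with_reducible refine IntF.comp₂ ?_ ?_ ?_; assumption) | (with_reducible refine IntF.comp₃ ?_ ?_ ?_ ?_; assumption) | with_reducible apply IntF.pair)))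
    refine ⟨_, hO.inter _ _ _ h1 (hR.op i n _ hD1) hD2, (hD2 p).2 ⟨h2, (hD1 p).2 hn⟩,
      fun q hq k hk m hm => ?_⟩
    obtain ⟨h4, h5⟩ := (hD2 q).1 hq
    rcases mem_insert.1 hk with rfl | hk
    · rw [hR.uniq _ _ _ _ hm hn]
      exact (hD1 q).1 h5
    · exact h3 q h4 k hk m hm

include hr he in
theorem exists_clopen {U : IPow N α} (hU : O U) {p : α} (hp : p ∈ U) : ∃ D E : IPow N α, O D ∧
    O E ∧ (∀ q, q ∈ E ↔ ¬ q ∈ D) ∧ p ∈ D ∧ ∀ q, q ∈ D → q ∈ U := by
  have hO := he.top
  have hOI := hO.int
  have heI := he.int
  have hlt := int_lt hr
  obtain ⟨d, hdI, hd⟩ : ∃ d : Helper672.Plain.El r → Helper672.Plain.El r → Helper672.Plain.El r, IntF N (fun q : Helper672.Plain.El r × Helper672.Plain.El r => d q.1 q.2) ∧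
      ∀ a b, d a b = |a - b| := ⟨fun a b => |a - b|, int_dist hr, fun _ _ => rfl⟩
  obtain ⟨F, ε, hF, hε, h1⟩ := he.nb U hU p hp
  have key : ∃ D E : IPow N α, O D ∧ O E ∧ (∀ q, q ∈ E ↔ ¬ q ∈ D) ∧ p ∈ D ∧
      ∀ q, q ∈ D → ∀ i, i ∈ F → d (e q i) (e p i) < ε := by
    refine IFin.ind (p := fun F => ∃ D E : IPow N α, O D ∧ O E ∧ (∀ q, q ∈ E ↔ ¬ q ∈ D) ∧ p ∈ D ∧
      ∀ q, q ∈ D → ∀ i, i ∈ F → d (e q i) (e p i) < ε) (by (repeat' (first | with_reducible exact IntF.id | with_reducible exact IntF.fst' | with_reducible exact IntF.snd' | with_reducible exact IntF.const _ | with_reducible exact Int.const _ | assumption | with_reducible apply Int.and | with_reducible apply Int.or | with_reducible apply Int.not | with_reducible apply Int.imp | with_reducible apply Int.iff | with_reducible apply Int.ne | with_reducible apply Int.eq | with_reducible apply Int.mem | with_reducible apply Int.subset | with_reducible apply Int.ltN | with_reducible apply Int.leN | with_reducible_and_instances apply Int.le | with_reducible_and_instances apply Int.lt | with_reducible apply Int.all | with_reducible apply Int.ex | with_reducible apply IntF.fst | with_reducible apply IntF.snd | with_reducible apply IntF.app |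 with_reducible apply IntF.inl | with_reducible apply IntF.inr | with_reducible_and_instances apply IntF.mul | with_reducible_and_instances apply IntF.inv | with_reducible_and_instances apply IntF.add | with_reducible_and_instances apply IntF.sub | with_reducible_and_instances apply IntF.neg | with_reducible_and_instances apply IntF.smul | with_reducible apply Int.fin | with_reducible apply IntF.sep | with_reducible apply IntF.lam | with_reducible apply IntF.insert | with_reducible apply IntF.singleton | with_reducible apply IntF.union | with_reducible apply IntF.iimage | with_reducible apply IntF.ite | with_reducible apply IntF.the | with_reducible apply IntF.irec | with_reducible apply IntF.succ | with_reducible apply IntF.val | with_reducible apply IntF.mk | (with_reducible refine Int.comp ?_ ?_; assumption) | (with_reducible refine Int.comp₂ ?_ ?_ ?_; assumption) | (with_reducible refine Int.comp₃ ?_ ?_ ?_ ?_; assumption) | (with_reducible refine Int.comp₄ ?_ ?_ ?_ ?_ ?_; assumption) | (with_reducible refine IntF.comp ?_ ?_; assumption) | (with_reducible refine IntF.comp₂ ?_ ?_ ?_; assumption) | (with_reducible refine IntF.comp₃ ?_ ?_ ?_ ?_; assumption) | with_reducible apply IntF.pair)))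 ?_ ?_ F hF
    · have hD : ∀ p : α, p ∈ sep N (fun p : α => p = p) := fun p => (mem_sep (by (repeat' (first | with_reducible exact IntF.id | with_reducible exact IntF.fst' | with_reducible exact IntF.snd' | with_reducible exact IntF.const _ | with_reducible exact Int.const _ | assumption | with_reducible apply Int.and | with_reducible apply Int.or | with_reducible apply Int.not | with_reducible apply Int.imp | with_reducible apply Int.iff | with_reducible apply Int.ne | with_reducible apply Int.eq | with_reducible apply Int.mem | with_reducible apply Int.subset | with_reducible apply Int.ltN | with_reducible apply Int.leN | with_reducible_and_instances apply Int.le | with_reducible_and_instances apply Int.lt | with_reducible apply Int.all | with_reducible apply Int.ex | with_reducible apply IntF.fst | with_reducible apply IntF.snd | with_reducible apply IntF.app | with_reducible apply IntF.inl | with_reducible apply IntF.inr | with_reducible_and_instances apply IntF.mul | with_reducible_and_instances apply IntF.inv | with_reducible_and_instances apply IntF.add | with_reducible_and_instances apply IntF.sub | with_reducible_and_instances apply IntF.neg | with_reducible_and_instances apply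 IntF.smul | with_reducible apply Int.fin | with_reducible apply IntF.sep | with_reducible apply IntF.lam | with_reducible apply IntF.insert | with_reducible apply IntF.singleton | with_reducible apply IntF.union | with_reducible apply IntF.iimage | with_reducible apply IntF.ite | with_reducible apply IntF.the | with_reducible apply IntF.irec | with_reducible apply IntF.succ | with_reducible apply IntF.val | with_reducible apply IntF.mk | (with_reducible refine Int.comp ?_ ?_; assumption) | (with_reducible refine Int.comp₂ ?_ ?_ ?_; assumption) | (with_reducible refine Int.comp₃ ?_ ?_ ?_ ?_; assumption) | (with_reducible refine Int.comp₄ ?_ ?_ ?_ ?_ ?_; assumption) | (with_reducible refine IntF.comp ?_ ?_; assumption) | (with_reducible refine IntF.comp₂ ?_ ?_ ?_; assumption) | (with_reducible refine IntF.comp₃ ?_ ?_ ?_ ?_; assumption) | with_reducible apply IntF.pair)))).2 rfl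
      have hE : ∀ p : α, p ∈ sep N (fun p : α => ¬ p = p) ↔ ¬ p = p := fun p =>
        mem_sep (by (repeat' (first | with_reducible exact IntF.id | with_reducible exact IntF.fst' | with_reducible exact IntF.snd' | with_reducible exact IntF.const _ | with_reducible exact Int.const _ | assumption | with_reducible apply Int.and | with_reducible apply Int.or | with_reducible apply Int.not | with_reducible apply Int.imp | with_reducible apply Int.iff | with_reducible apply Int.ne | with_reducible apply Int.eq | with_reducible apply Int.mem | with_reducible apply Int.subset | with_reducible apply Int.ltN | with_reducible apply Int.leN | with_reducible_and_instances apply Int.le | with_reducible_and_instances apply Int.lt | with_reducible apply Int.all | with_reducible apply Int.ex | with_reducible apply IntF.fst | with_reducible apply IntF.snd | with_reducible apply IntF.app | with_reducible apply IntF.inl | with_reducible apply IntF.inr | with_reducible_and_instances apply IntF.mul | with_reducible_and_instances apply IntF.inv | with_reducible_and_instances apply IntF.add | with_reducible_and_instances apply IntF.sub | with_reducible_and_instances apply IntF.neg | with_reducible_and_instances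 apply IntF.smul | with_reducible apply Int.fin | with_reducible apply IntF.sep | with_reducible apply IntF.lam | with_reducible apply IntF.insert | with_reducible apply IntF.singleton | with_reducible apply IntF.union | with_reducible apply IntF.iimage | with_reducible apply IntF.ite | with_reducible apply IntF.the | with_reducible apply IntF.irec | with_reducible apply IntF.succ | with_reducible apply IntF.val | with_reducible apply IntF.mk | (with_reducible refine Int.comp ?_ ?_; assumption) | (with_reducible refine Int.comp₂ ?_ ?_ ?_; assumption) | (with_reducible refine Int.comp₃ ?_ ?_ ?_ ?_; assumption) | (with_reducible refine Int.comp₄ ?_ ?_ ?_ ?_ ?_; assumption) | (with_reducible refine IntF.comp ?_ ?_; assumption) | (with_reducible refine IntF.comp₂ ?_ ?_ ?_; assumption) | (with_reducible refine IntF.comp₃ ?_ ?_ ?_ ?_; assumption) | with_reducible apply IntF.pair)))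
      refine ⟨_, _, hO.univ _ hD, TpO.local' hO (W := sep N (fun p : α => ¬ p = p))
          fun p hp => absurd rfl ((hE p).1 hp), fun q => ?_, hD p, fun q _ i hi =>
          absurd hi (by simp)⟩
      rw [hE q]
      exact ⟨fun h => absurd rfl h, fun h => absurd (hD q) h⟩
    · rintro F i - - ⟨D, E, h2, h3, h4, h5, h6⟩
      obtain ⟨D', E', h2', h3', h4', h5', h6'⟩ := he.sz (fun q => d (e q i) (e p i)) (by (repeat' (first | with_reducible exact IntF.id | with_reducible exact IntF.fst' | with_reducible exact IntF.snd' | with_reducible exact IntF.const _ | with_reducible exact Int.const _ | assumption | with_reducible apply Int.and | with_reducible apply Int.or | with_reducible apply Int.not | with_reducible apply Int.imp | with_reducible apply Int.iff | with_reducible apply Int.ne | with_reducible apply Int.eq | with_reducible apply Int.mem | with_reducible apply Int.subset | with_reducible apply Int.ltN | with_reducible apply Int.leN | with_reducible_and_instances apply Int.le | with_reducible_and_instances apply Int.lt | with_reducible apply Int.all | with_reducible apply Int.ex | with_reducible apply IntF.fst | with_reducible apply IntF.snd | with_reducible apply IntF.app | with_reducible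 apply IntF.inl | with_reducible apply IntF.inr | with_reducible_and_instances apply IntF.mul | with_reducible_and_instances apply IntF.inv | with_reducible_and_instances apply IntF.add | with_reducible_and_instances apply IntF.sub | with_reducible_and_instances apply IntF.neg | with_reducible_and_instances apply IntF.smul | with_reducible apply Int.fin | with_reducible apply IntF.sep | with_reducible apply IntF.lam | with_reducible apply IntF.insert | with_reducible apply IntF.singleton | with_reducible apply IntF.union | with_reducible apply IntF.iimage | with_reducible apply IntF.ite | with_reducible apply IntF.the | with_reducible apply IntF.irec | with_reducible apply IntF.succ | with_reducible apply IntF.val | with_reducible apply IntF.mk | (with_reducible refine Int.comp ?_ ?_; assumption) | (with_reducible refine Int.comp₂ ?_ ?_ ?_; assumption) | (with_reducible refine Int.comp₃ ?_ ?_ ?_ ?_; assumption) | (with_reducible refine Int.comp₄ ?_ ?_ ?_ ?_ ?_; assumption) | (with_reducible refine IntF.comp ?_ ?_; assumption) | (with_reducible refine IntF.comp₂ ?_ ?_ ?_; assumption) | (with_reducible refine IntF.comp₃ ?_ ?_ ?_ ?_; assumption) | with_reducible apply IntF.pair)))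
        (fun q δ hδ => by
          obtain ⟨W, g1, g2, g3⟩ := he.cont i q δ hδ
          refine ⟨W, g1, g2, fun q' hq' => ?_⟩
          change |d (e q' i) (e p i) - d (e q i) (e p i)| < δ
          rw [hd, hd]
          refine (abs_abs_sub_abs_le_abs_sub _ _).trans_lt ?_
          rw [sub_sub_sub_cancel_right]
          exact g3 q' hq') 0 ε hε
      have hD1 : ∀ q, q ∈ sep N (fun q => q ∈ D ∧ q ∈ D') ↔ q ∈ D ∧ q ∈ D' := fun q =>
        mem_sep (by (repeat' (first | with_reducible exact IntF.id | with_reducible exact IntF.fst' | with_reducible exact IntF.snd' | with_reducible exact IntF.const _ | with_reducible exact Int.const _ | assumption | with_reducible apply Int.and | with_reducible apply Int.or | with_reducible apply Int.not | with_reducible apply Int.imp | with_reducible apply Int.iff | with_reducible apply Int.ne | with_reducible apply Int.eq | with_reducible apply Int.mem | with_reducible apply Int.subset | with_reducible apply Int.ltN | with_reducible apply Int.leN | with_reducible_and_instances apply Int.le | with_reducible_and_instances apply Int.lt | with_reducible apply Int.all | with_reducible apply Int.ex | with_reducible apply IntF.fst | with_reducible apply IntF.snd |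 with_reducible apply IntF.app | with_reducible apply IntF.inl | with_reducible apply IntF.inr | with_reducible_and_instances apply IntF.mul | with_reducible_and_instances apply IntF.inv | with_reducible_and_instances apply IntF.add | with_reducible_and_instances apply IntF.sub | with_reducible_and_instances apply IntF.neg | with_reducible_and_instances apply IntF.smul | with_reducible apply Int.fin | with_reducible apply IntF.sep | with_reducible apply IntF.lam | with_reducible apply IntF.insert | with_reducible apply IntF.singleton | with_reducible apply IntF.union | with_reducible apply IntF.iimage | with_reducible apply IntF.ite | with_reducible apply IntF.the | with_reducible apply IntF.irec | with_reducible apply IntF.succ | with_reducible apply IntF.val | with_reducible apply IntF.mk | (with_reducible refine Int.comp ?_ ?_; assumption) | (with_reducible refine Int.comp₂ ?_ ?_ ?_; assumption) | (with_reducible refine Int.comp₃ ?_ ?_ ?_ ?_; assumption) | (with_reducible refine Int.comp₄ ?_ ?_ ?_ ?_ ?_; assumption) | (with_reducible refine IntF.comp ?_ ?_; assumption) | (with_reducible refine IntF.comp₂ ?_ ?_ ?_; assumption) | (with_reducible refine IntF.comp₃ ?_ ?_ ?_ ?_; assumption)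 | with_reducible apply IntF.pair)))
      have hE1 : ∀ q, q ∈ sep N (fun q => ¬ (q ∈ D ∧ q ∈ D')) ↔ ¬ (q ∈ D ∧ q ∈ D') := fun q =>
        mem_sep (by (repeat' (first | with_reducible exact IntF.id | with_reducible exact IntF.fst' | with_reducible exact IntF.snd' | with_reducible exact IntF.const _ | with_reducible exact Int.const _ | assumption | with_reducible apply Int.and | with_reducible apply Int.or | with_reducible apply Int.not | with_reducible apply Int.imp | with_reducible apply Int.iff | with_reducible apply Int.ne | with_reducible apply Int.eq | with_reducible apply Int.mem | with_reducible apply Int.subset | with_reducible apply Int.ltN | with_reducible apply Int.leN | with_reducible_and_instances apply Int.le | with_reducible_and_instances apply Int.lt | with_reducible apply Int.all | with_reducible apply Int.ex | with_reducible apply IntF.fst | with_reducible apply IntF.snd | with_reducible apply IntF.app | with_reducible apply IntF.inl | with_reducible apply IntF.inr | with_reducible_and_instances apply IntF.mul | with_reducible_and_instances apply IntF.inv | with_reducible_and_instances apply IntF.add | with_reducible_and_instances apply IntF.sub | with_reducible_and_instances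 apply IntF.neg | with_reducible_and_instances apply IntF.smul | with_reducible apply Int.fin | with_reducible apply IntF.sep | with_reducible apply IntF.lam | with_reducible apply IntF.insert | with_reducible apply IntF.singleton | with_reducible apply IntF.union | with_reducible apply IntF.iimage | with_reducible apply IntF.ite | with_reducible apply IntF.the | with_reducible apply IntF.irec | with_reducible apply IntF.succ | with_reducible apply IntF.val | with_reducible apply IntF.mk | (with_reducible refine Int.comp ?_ ?_; assumption) | (with_reducible refine Int.comp₂ ?_ ?_ ?_; assumption) | (with_reducible refine Int.comp₃ ?_ ?_ ?_ ?_; assumption) | (with_reducible refine Int.comp₄ ?_ ?_ ?_ ?_ ?_; assumption) | (with_reducible refine IntF.comp ?_ ?_; assumption) | (with_reducible refine IntF.comp₂ ?_ ?_ ?_; assumption) | (with_reducible refine IntF.comp₃ ?_ ?_ ?_ ?_; assumption) | with_reducible apply IntF.pair)))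
      refine ⟨_, _, hO.inter _ _ _ h2 h2' hD1, TpO.local' hO (W := sep N (fun q =>
        ¬ (q ∈ D ∧ q ∈ D'))) fun q hq => ?_, fun q => by rw [hE1, hD1], (hD1 p).2 ⟨h5, h5' p ?_⟩,
        fun q hq k hk => ?_⟩
      · have hq1 := (hE1 q).1 hq
        by_cases hq2 : q ∈ D
        · exact ⟨E', h3', (h4' q).2 fun hq3 => hq1 ⟨hq2, hq3⟩, fun q' hq' => (hE1 q').2
            fun h => (h4' q').1 hq' h.2⟩
        · exact ⟨E, h3, (h4 q).2 hq2, fun q' hq' => (hE1 q').2 fun h => (h4 q').1 hq' h.1⟩
      · change d (e p i) (e p i) ≤ 0
        rw [hd, sub_self, abs_zero]
      · obtain ⟨h7, h8⟩ := (hD1 q).1 hq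
        rcases mem_insert.1 hk with rfl | hk
        · by_contra h9
          exact h6' q (not_lt.1 h9) h8
        · exact h6 q h7 k hk
  obtain ⟨D, E, h2, h3, h4, h5, h6⟩ := key
  refine ⟨D, E, h2, h3, h4, h5, fun q hq => h1 q fun i hi => ?_⟩
  rw [← hd]
  exact h6 q hq i hi

include hr he hR in
/-- Continuous functions are bounded on a large set. -/
theorem big_bdd {g : α → Helper672.Plain.El r} (hg : IntF N g) (hgc : Ct O g) :
    ∃ b, Big R Y (fun p => |g p| ≤ b) := by
  obtain ⟨ι, hι, hι0, hιs, harch⟩ := exists_iota hr
  obtain ⟨δ, hδ, h1, h2, h3⟩ := exists_delta hr hι
  have hO := he.top
  have hOI := hO.int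
  have habs := int_abs' hr
  have hlt := int_lt hr
  have hle := int_le hr
  have hadd := int_add hr
  obtain ⟨d, hdI, hd⟩ : ∃ d : Helper672.Plain.El r → Helper672.Plain.El r → Helper672.Plain.El r, IntF N (fun q : Helper672.Plain.El r × Helper672.Plain.El r => d q.1 q.2) ∧
      ∀ a b, d a b = |a - b| := ⟨fun a b => |a - b|, int_dist hr, fun _ _ => rfl⟩
  obtain ⟨v, hv, hv'⟩ : ∃ v : α → Helper672.Plain.El r, IntF N v ∧ ∀ p, v p = |g p| :=
    ⟨fun p => |g p|, IntF.comp (g := fun z : Helper672.Plain.El r => |z|) habs hg, fun _ => rfl⟩
  have hvc : Ct O v := by
    intro p ε hε
    obtain ⟨U, g1, g2, g3⟩ := hgc p ε hε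
    refine ⟨U, g1, g2, fun q hq => ?_⟩
    rw [hv', hv']
    exact (abs_abs_sub_abs_le_abs_sub _ _).trans_lt (g3 q hq)
  have hv0 : ∀ p, 0 ≤ v p := fun p => by
    rw [hv']
    exact abs_nonneg _
  have hmono : ∀ m n : INat N, m < n → ι m + 1 ≤ ι n := by
    intro m n
    refine INat.ind (p := fun n : INat N => m < n → ι m + 1 ≤ ι n) (by (repeat' (first | with_reducible exact IntF.id | with_reducible exact IntF.fst' | with_reducible exact IntF.snd' | with_reducible exact IntF.const _ | with_reducible exact Int.const _ | assumption | with_reducible apply Int.and | with_reducible apply Int.or | with_reducible apply Int.not | with_reducible apply Int.imp | with_reducible apply Int.iff | with_reducible apply Int.ne | with_reducible apply Int.eq | with_reducible apply Int.mem | with_reducible apply Int.subset | with_reducible apply Int.ltN | with_reducible apply Int.leN | with_reducible_and_instances apply Int.le | with_reducible_and_instances apply Int.lt | with_reducible apply Int.all | with_reducible apply Int.ex | with_reducible apply IntF.fst | with_reducible apply IntF.snd | with_reducible apply IntF.app | with_reducible apply IntF.inl | with_reducible apply IntF.inr | with_reducible_and_instances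 apply IntF.mul | with_reducible_and_instances apply IntF.inv | with_reducible_and_instances apply IntF.add | with_reducible_and_instances apply IntF.sub | with_reducible_and_instances apply IntF.neg | with_reducible_and_instances apply IntF.smul | with_reducible apply Int.fin | with_reducible apply IntF.sep | with_reducible apply IntF.lam | with_reducible apply IntF.insert | with_reducible apply IntF.singleton | with_reducible apply IntF.union | with_reducible apply IntF.iimage | with_reducible apply IntF.ite | with_reducible apply IntF.the | with_reducible apply IntF.irec | with_reducible apply IntF.succ | with_reducible apply IntF.val | with_reducible apply IntF.mk | (with_reducible refine Int.comp ?_ ?_; assumption) | (with_reducible refine Int.comp₂ ?_ ?_ ?_; assumption) | (with_reducible refine Int.comp₃ ?_ ?_ ?_ ?_; assumption) | (with_reducible refine Int.comp₄ ?_ ?_ ?_ ?_ ?_; assumption) | (with_reducible refine IntF.comp ?_ ?_; assumption) | (with_reducible refine IntF.comp₂ ?_ ?_ ?_; assumption) | (with_reducible refine IntF.comp₃ ?_ ?_ ?_ ?_; assumption) | with_reducible apply IntF.pair))) ?_ ?_ n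
    · intro h
      exact absurd h INat.not_lt_zero
    · intro n ih h
      rw [hιs]
      rcases INat.lt_succ_iff'.1 h with h | rfl
      · have := ih h
        linarith
      · exact le_rfl
  have hfar : ∀ m n : INat N, |ι m - ι n| < 1 → m = n := by
    intro m n h
    rcases lt_trichotomy m n with h1 | h1 | h1
    · have h2 := hmono m n h1
      rw [abs_lt] at h
      linarith [h.1]
    · exact h1
    · have h2 := hmono n m h1
      rw [abs_lt] at h
      linarith [h.2]
  obtain ⟨D, E, hD, hE, hDE, h4, h5⟩ := he.sz (fun p => δ (v p))
    (IntF.comp (g := δ) hδ hv) (hvc.comp h3) (1 / 8) (1 / 4) (by norm_num)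
  have hF : Int N (fun q : α × INat N => (q.1 ∈ D ∧ d (v q.1) (ι q.2) < 1 / 4) ∨
      (¬ q.1 ∈ D ∧ ι q.2 < v q.1 ∧ v q.1 < ι q.2 + 1)) := by (repeat' (first | with_reducible exact IntF.id | with_reducible exact IntF.fst' | with_reducible exact IntF.snd' | with_reducible exact IntF.const _ | with_reducible exact Int.const _ | assumption | with_reducible apply Int.and | with_reducible apply Int.or | with_reducible apply Int.not | with_reducible apply Int.imp | with_reducible apply Int.iff | with_reducible apply Int.ne | with_reducible apply Int.eq | with_reducible apply Int.mem | with_reducible apply Int.subset | with_reducible apply Int.ltN | with_reducible apply Int.leN | with_reducible_and_instances apply Int.le | with_reducible_and_instances apply Int.lt | with_reducible apply Int.all | with_reducible apply Int.ex | with_reducible apply IntF.fst | with_reducible apply IntF.snd | with_reducible apply IntF.app | with_reducible apply IntF.inl | with_reducible apply IntF.inr | with_reducible_and_instances apply IntF.mul | with_reducible_and_instances apply IntF.inv | with_reducible_and_instances apply IntF.add | with_reducible_and_instances apply IntF.sub | with_reducible_and_instances apply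 IntF.neg | with_reducible_and_instances apply IntF.smul | with_reducible apply Int.fin | with_reducible apply IntF.sep | with_reducible apply IntF.lam | with_reducible apply IntF.insert | with_reducible apply IntF.singleton | with_reducible apply IntF.union | with_reducible apply IntF.iimage | with_reducible apply IntF.ite | with_reducible apply IntF.the | with_reducible apply IntF.irec | with_reducible apply IntF.succ | with_reducible apply IntF.val | with_reducible apply IntF.mk | (with_reducible refine Int.comp ?_ ?_; assumption) | (with_reducible refine Int.comp₂ ?_ ?_ ?_; assumption) | (with_reducible refine Int.comp₃ ?_ ?_ ?_ ?_; assumption) | (with_reducible refine Int.comp₄ ?_ ?_ ?_ ?_ ?_; assumption) | (with_reducible refine IntF.comp ?_ ?_; assumption) | (with_reducible refine IntF.comp₂ ?_ ?_ ?_; assumption) | (with_reducible refine IntF.comp₃ ?_ ?_ ?_ ?_; assumption) | with_reducible apply IntF.pair))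
  obtain ⟨i, hi⟩ := hR.all _ hF (fun p => by
      by_cases hp : p ∈ D
      · by_contra hcon
        push Not at hcon
        refine h5 p (h2 _ _ fun k => ?_) hp
        have h6 := (hcon k).1 hp
        rw [hd] at h6
        exact h6
      · obtain ⟨m, hm⟩ := harch 1 one_pos (v p)
        obtain ⟨n, hn, hmin⟩ := INat.exists_least (p := fun m => v p < ι m) (by (repeat' (first | with_reducible exact IntF.id | with_reducible exact IntF.fst' | with_reducible exact IntF.snd' | with_reducible exact IntF.const _ | with_reducible exact Int.const _ | assumption | with_reducible apply Int.and | with_reducible apply Int.or | with_reducible apply Int.not | with_reducible apply Int.imp | with_reducible apply Int.iff | with_reducible apply Int.ne | with_reducible apply Int.eq | with_reducible apply Int.mem | with_reducible apply Int.subset | with_reducible apply Int.ltN | with_reducible apply Int.leN | with_reducible_and_instances apply Int.le | with_reducible_and_instances apply Int.lt | with_reducible apply Int.all | with_reducible apply Int.ex | with_reducible apply IntF.fst | with_reducible apply IntF.snd | with_reducible apply IntF.app | with_reducible apply IntF.inl | with_reducible apply IntF.inr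 | with_reducible_and_instances apply IntF.mul | with_reducible_and_instances apply IntF.inv | with_reducible_and_instances apply IntF.add | with_reducible_and_instances apply IntF.sub | with_reducible_and_instances apply IntF.neg | with_reducible_and_instances apply IntF.smul | with_reducible apply Int.fin | with_reducible apply IntF.sep | with_reducible apply IntF.lam | with_reducible apply IntF.insert | with_reducible apply IntF.singleton | with_reducible apply IntF.union | with_reducible apply IntF.iimage | with_reducible apply IntF.ite | with_reducible apply IntF.the | with_reducible apply IntF.irec | with_reducible apply IntF.succ | with_reducible apply IntF.val | with_reducible apply IntF.mk | (with_reducible refine Int.comp ?_ ?_; assumption) | (with_reducible refine Int.comp₂ ?_ ?_ ?_; assumption) | (with_reducible refine Int.comp₃ ?_ ?_ ?_ ?_; assumption) | (with_reducible refine Int.comp₄ ?_ ?_ ?_ ?_ ?_; assumption) | (with_reducible refine IntF.comp ?_ ?_; assumption) | (with_reducible refine IntF.comp₂ ?_ ?_ ?_; assumption) | (with_reducible refine IntF.comp₃ ?_ ?_ ?_ ?_; assumption) | with_reducible apply IntF.pair)))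
          ⟨m, by rwa [mul_one] at hm⟩
        rcases INat.eq_zero_or_succ n with rfl | ⟨k, rfl⟩
        · rw [hι0] at hn
          exact absurd hn (not_lt.2 (hv0 p))
        · refine ⟨k, Or.inr ⟨hp, ?_, ?_⟩⟩
          · have h6 : ι k ≤ v p := by
              by_contra h7
              exact absurd (hmin k (not_le.1 h7)) (not_le.2 (INat.lt_succ_self k))
            rcases h6.lt_or_eq with h7 | h7
            · exact h7
            · refine absurd (h4 p ?_) hp
              refine (h1 _ k).trans ?_
              rw [h7, sub_self, abs_zero]
              norm_num
          · rwa [hιs] at hn)
    (by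
      rintro p n n' (⟨h6, h7⟩ | ⟨h6, h7, h7'⟩) (⟨h8, h9⟩ | ⟨h8, h9, h9'⟩)
      · refine hfar _ _ ?_
        rw [hd] at h7 h9
        change |v p - ι n| < 1 / 4 at h7
        change |v p - ι n'| < 1 / 4 at h9
        have h10 := abs_sub_le (ι n) (v p) (ι n')
        rw [abs_sub_comm (ι n) (v p)] at h10
        linarith
      · exact absurd h6 h8
      · exact absurd h8 h6
      · refine hfar _ _ (abs_lt.2 ⟨?_, ?_⟩)
        · change ι n < v p at h7
          change v p < ι n + 1 at h7'
          change ι n' < v p at h9
          change v p < ι n' + 1 at h9'
          linarith
        · change ι n < v p at h7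
          change v p < ι n + 1 at h7'
          change ι n' < v p at h9
          change v p < ι n' + 1 at h9'
          linarith)
    (fun n U hU => TpO.local' hO fun p hp => by
      rcases (hU p).1 hp with ⟨h6, h7⟩ | ⟨h6, h7, h7'⟩
      · obtain ⟨W, h8, h9, h10⟩ := hvc p (1 / 4 - |v p - ι n|) (by
          rw [hd] at h7
          exact sub_pos.2 h7)
        have hWD : ∀ q, q ∈ sep N (fun q => q ∈ W ∧ q ∈ D) ↔ q ∈ W ∧ q ∈ D := fun q =>
          mem_sep (by (repeat' (first | with_reducible exact IntF.id | with_reducible exact IntF.fst' | with_reducible exact IntF.snd' | with_reducible exact IntF.const _ | with_reducible exact Int.const _ | assumption | with_reducible apply Int.and | with_reducible apply Int.or | with_reducible apply Int.not | with_reducible apply Int.imp | with_reducible apply Int.iff | with_reducible apply Int.ne | with_reducible apply Int.eq | with_reducible apply Int.mem | with_reducible apply Int.subset | with_reducible apply Int.ltN | with_reducible apply Int.leN | with_reducible_and_instances apply Int.le | with_reducible_and_instances apply Int.lt | with_reducible apply Int.all | with_reducible apply Int.ex | with_reducible apply IntF.fst | with_reducible apply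 IntF.snd | with_reducible apply IntF.app | with_reducible apply IntF.inl | with_reducible apply IntF.inr | with_reducible_and_instances apply IntF.mul | with_reducible_and_instances apply IntF.inv | with_reducible_and_instances apply IntF.add | with_reducible_and_instances apply IntF.sub | with_reducible_and_instances apply IntF.neg | with_reducible_and_instances apply IntF.smul | with_reducible apply Int.fin | with_reducible apply IntF.sep | with_reducible apply IntF.lam | with_reducible apply IntF.insert | with_reducible apply IntF.singleton | with_reducible apply IntF.union | with_reducible apply IntF.iimage | with_reducible apply IntF.ite | with_reducible apply IntF.the | with_reducible apply IntF.irec | with_reducible apply IntF.succ | with_reducible apply IntF.val | with_reducible apply IntF.mk | (with_reducible refine Int.comp ?_ ?_; assumption) | (with_reducible refine Int.comp₂ ?_ ?_ ?_; assumption) | (with_reducible refine Int.comp₃ ?_ ?_ ?_ ?_; assumption) | (with_reducible refine Int.comp₄ ?_ ?_ ?_ ?_ ?_; assumption) | (with_reducible refine IntF.comp ?_ ?_; assumption) | (with_reducible refine IntF.comp₂ ?_ ?_ ?_; assumption) | (with_reducible refine IntF.comp₃ ?_ ?_ ?_ ?_;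 assumption) | with_reducible apply IntF.pair)))
        refine ⟨_, hO.inter W D _ h8 hD hWD, (hWD p).2 ⟨h9, h6⟩, fun q hq => ?_⟩
        obtain ⟨h11, h12⟩ := (hWD q).1 hq
        refine (hU q).2 (Or.inl ⟨h12, ?_⟩)
        have h13 := h10 q h11
        have h14 := abs_sub_le (v q) (v p) (ι n)
        rw [hd]
        change |v q - ι n| < 1 / 4
        linarith
      · change ι n < v p at h7
        change v p < ι n + 1 at h7'
        obtain ⟨W, h8, h9, h10⟩ := hvc p (min (v p - ι n) (ι n + 1 - v p))
          (lt_min (sub_pos.2 h7) (sub_pos.2 h7'))
        have hWE : ∀ q, q ∈ sep N (fun q => q ∈ W ∧ q ∈ E) ↔ q ∈ W ∧ q ∈ E := fun q =>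
          mem_sep (by (repeat' (first | with_reducible exact IntF.id | with_reducible exact IntF.fst' | with_reducible exact IntF.snd' | with_reducible exact IntF.const _ | with_reducible exact Int.const _ | assumption | with_reducible apply Int.and | with_reducible apply Int.or | with_reducible apply Int.not | with_reducible apply Int.imp | with_reducible apply Int.iff | with_reducible apply Int.ne | with_reducible apply Int.eq | with_reducible apply Int.mem | with_reducible apply Int.subset | with_reducible apply Int.ltN | with_reducible apply Int.leN | with_reducible_and_instances apply Int.le | with_reducible_and_instances apply Int.lt | with_reducible apply Int.all | with_reducible apply Int.ex | with_reducible apply IntF.fst | with_reducible apply IntF.snd | with_reducible apply IntF.app | with_reducible apply IntF.inl | with_reducible apply IntF.inr | with_reducible_and_instances apply IntF.mul | with_reducible_and_instances apply IntF.inv | with_reducible_and_instances apply IntF.add | with_reducible_and_instances apply IntF.sub | with_reducible_and_instances apply IntF.neg | with_reducible_and_instances apply IntF.smul | with_reducible apply Int.fin | with_reducible apply IntF.sep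 | with_reducible apply IntF.lam | with_reducible apply IntF.insert | with_reducible apply IntF.singleton | with_reducible apply IntF.union | with_reducible apply IntF.iimage | with_reducible apply IntF.ite | with_reducible apply IntF.the | with_reducible apply IntF.irec | with_reducible apply IntF.succ | with_reducible apply IntF.val | with_reducible apply IntF.mk | (with_reducible refine Int.comp ?_ ?_; assumption) | (with_reducible refine Int.comp₂ ?_ ?_ ?_; assumption) | (with_reducible refine Int.comp₃ ?_ ?_ ?_ ?_; assumption) | (with_reducible refine Int.comp₄ ?_ ?_ ?_ ?_ ?_; assumption) | (with_reducible refine IntF.comp ?_ ?_; assumption) | (with_reducible refine IntF.comp₂ ?_ ?_ ?_; assumption) | (with_reducible refine IntF.comp₃ ?_ ?_ ?_ ?_; assumption) | with_reducible apply IntF.pair)))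
        refine ⟨_, hO.inter W E _ h8 hE hWE, (hWE p).2 ⟨h9, (hDE p).2 h6⟩, fun q hq => ?_⟩
        obtain ⟨h11, h12⟩ := (hWE q).1 hq
        have h13 := abs_lt.1 (h10 q h11)
        have h14 := min_le_left (v p - ι n) (ι n + 1 - v p)
        have h15 := min_le_right (v p - ι n) (ι n + 1 - v p)
        refine (hU q).2 (Or.inr ⟨(hDE q).1 h12, ?_, ?_⟩)
        · change ι n < v q
          linarith
        · change v q < ι n + 1
          linarith)
  refine ⟨ι (Y i) + 1, i, fun p hp => ?_⟩
  change |g p| ≤ ι (Y i) + 1
  rw [← hv']
  rcases (hi _ _).1 hp with ⟨-, h7⟩ | ⟨-, -, h7⟩
  · rw [hd] at h7
    have h8 := (abs_lt.1 h7).2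
    change v p - ι (Y i) < 1 / 4 at h8
    linarith
  · change v p < ι (Y i) + 1 at h7
    exact h7.le

include hr he hR in
/-- Continuous functions have limits along the ultrafilter. -/
theorem exists_lim {g : α → Helper672.Plain.El r} (hg : IntF N g) (hgc : Ct O g) :
    ∃ z, ∀ ε, 0 < ε → Big R Y (fun p => |g p - z| ≤ ε) := by
  have hO := he.top
  have hRI := hR.int
  have hYI := hR.intY
  have hle := int_le hr
  obtain ⟨b, hb⟩ := big_bdd hR hr he hg hgc
  have hS : Int N (fun a : Helper672.Plain.El r => ∃ i, ∀ p, R ((p, Y i), i) → a ≤ g p) := by (repeat' (first | with_reducible exact IntF.id | with_reducible exact IntF.fst' | with_reducible exact IntF.snd' | with_reducible exact IntF.const _ | with_reducible exact Int.const _ | assumption | with_reducible apply Int.and | with_reducible apply Int.or | with_reducible apply Int.not | with_reducible apply Int.imp | with_reducible apply Int.iff | with_reducible apply Int.ne | with_reducible apply Int.eq | with_reducible apply Int.mem | with_reducible apply Int.subset | with_reducible apply Int.ltN | with_reducible apply Int.leN | with_reducible_and_instances apply Int.le | with_reducible_and_instances apply Int.lt | with_reducible apply Int.all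 | with_reducible apply Int.ex | with_reducible apply IntF.fst | with_reducible apply IntF.snd | with_reducible apply IntF.app | with_reducible apply IntF.inl | with_reducible apply IntF.inr | with_reducible_and_instances apply IntF.mul | with_reducible_and_instances apply IntF.inv | with_reducible_and_instances apply IntF.add | with_reducible_and_instances apply IntF.sub | with_reducible_and_instances apply IntF.neg | with_reducible_and_instances apply IntF.smul | with_reducible apply Int.fin | with_reducible apply IntF.sep | with_reducible apply IntF.lam | with_reducible apply IntF.insert | with_reducible apply IntF.singleton | with_reducible apply IntF.union | with_reducible apply IntF.iimage | with_reducible apply IntF.ite | with_reducible apply IntF.the | with_reducible apply IntF.irec | with_reducible apply IntF.succ | with_reducible apply IntF.val | with_reducible apply IntF.mk | (with_reducible refine Int.comp ?_ ?_; assumption) | (with_reducible refine Int.comp₂ ?_ ?_ ?_; assumption) | (with_reducible refine Int.comp₃ ?_ ?_ ?_ ?_; assumption) | (with_reducible refine Int.comp₄ ?_ ?_ ?_ ?_ ?_; assumption) | (with_reducible refine IntF.comp ?_ ?_; assumption) | (with_reducible refine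 IntF.comp₂ ?_ ?_ ?_; assumption) | (with_reducible refine IntF.comp₃ ?_ ?_ ?_ ?_; assumption) | with_reducible apply IntF.pair))
  obtain ⟨S, hS1⟩ := exists_set hS
  obtain ⟨z, h2, h3⟩ := hr.complete ⟨S, fun z hz => ((hS1 z).1 hz).1⟩
    ⟨(-b : Helper672.Plain.El r).1, (hS1 _).2 ⟨(-b : Helper672.Plain.El r).2, hb.mono fun p hp => (abs_le.1 hp).1⟩⟩
    ⟨b, fun w hw => by
      obtain ⟨_, hn⟩ := (hS1 w.1).1 hw
      obtain ⟨p, h4, h5⟩ := (Big.and hO hR hb (ψ := fun p => w ≤ g p) hn).ex hR
      exact h5.trans (abs_le.1 h4).2⟩
  refine ⟨z, fun ε hε => ?_⟩
  have h4 : Big R Y (fun p => z - ε ≤ g p) := by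
    by_contra hcon
    have h5 : z ≤ z - ε := h3 fun w hw => by
      by_contra h6
      obtain ⟨_, hn⟩ := (hS1 w.1).1 hw
      refine hcon (Big.mono (φ := fun p => w ≤ g p) hn fun p hp => ?_)
      exact (not_le.1 h6).le.trans hp
    linarith
  have h5 : Big R Y (fun p => g p ≤ z + ε) := by
    obtain ⟨D, E, hD, hE, hDE, h6, h7⟩ := he.sz g hg hgc (z + ε / 2) (z + ε) (by linarith)
    rcases big_or hO hR hD hE hDE with h8 | h8
    · exact h8.mono fun p hp => le_of_lt (by
        by_contra h9
        exact h7 p (not_lt.1 h9) hp)
    · have h9 : Big R Y (fun p => z + ε / 2 ≤ g p) := h8.mono fun p hp => le_of_lt (by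
        by_contra h9
        exact hp (h6 p (not_lt.1 h9)))
      have h10 : z + ε / 2 ≤ z := h2 ((hS1 _).2 ⟨(z + ε / 2 : Helper672.Plain.El r).2, h9⟩)
      linarith
  refine (Big.and hO hR h4 h5).mono fun p hp => abs_le.2 ⟨?_, ?_⟩
  · linarith [hp.1]
  · linarith [hp.2]

include hr he hR in
/-- The ultrafilter is fixed. -/
theorem exists_point : ∃ p, ∀ i, R ((p, Y i), i) := by
  have hO := he.top
  have hOI := hO.int
  have hRI := hR.int
  have hYI := hR.intY
  have hle := int_le hr
  have hlt := int_lt hr
  have heI := he.int
  obtain ⟨d, hdI, hd⟩ : ∃ d : Helper672.Plain.El r → Helper672.Plain.El r → Helper672.Plain.El r, IntF N (fun q : Helper672.Plain.El r × Helper672.Plain.El r => d q.1 q.2) ∧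
      ∀ a b, d a b = |a - b| := ⟨fun a b => |a - b|, int_dist hr, fun _ _ => rfl⟩
  have hex : ∀ k : β, ∃ z, ∀ ε, 0 < ε → Big R Y (fun p => |e p k - z| ≤ ε) := fun k =>
    exists_lim hR hr he (by (repeat' (first | with_reducible exact IntF.id | with_reducible exact IntF.fst' | with_reducible exact IntF.snd' | with_reducible exact IntF.const _ | with_reducible exact Int.const _ | assumption | with_reducible apply Int.and | with_reducible apply Int.or | with_reducible apply Int.not | with_reducible apply Int.imp | with_reducible apply Int.iff | with_reducible apply Int.ne | with_reducible apply Int.eq | with_reducible apply Int.mem | with_reducible apply Int.subset | with_reducible apply Int.ltN | with_reducible apply Int.leN | with_reducible_and_instances apply Int.le | with_reducible_and_instances apply Int.lt | with_reducible apply Int.all | with_reducible apply Int.ex | with_reducible apply IntF.fst | with_reducible apply IntF.snd | with_reducible apply IntF.app | with_reducible apply IntF.inl | with_reducible apply IntF.inr | with_reducible_and_instances apply IntF.mul | with_reducible_and_instances apply IntF.inv | with_reducible_and_instances apply IntF.add | with_reducible_and_instances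 apply IntF.sub | with_reducible_and_instances apply IntF.neg | with_reducible_and_instances apply IntF.smul | with_reducible apply Int.fin | with_reducible apply IntF.sep | with_reducible apply IntF.lam | with_reducible apply IntF.insert | with_reducible apply IntF.singleton | with_reducible apply IntF.union | with_reducible apply IntF.iimage | with_reducible apply IntF.ite | with_reducible apply IntF.the | with_reducible apply IntF.irec | with_reducible apply IntF.succ | with_reducible apply IntF.val | with_reducible apply IntF.mk | (with_reducible refine Int.comp ?_ ?_; assumption) | (with_reducible refine Int.comp₂ ?_ ?_ ?_; assumption) | (with_reducible refine Int.comp₃ ?_ ?_ ?_ ?_; assumption) | (with_reducible refine Int.comp₄ ?_ ?_ ?_ ?_ ?_; assumption) | (with_reducible refine IntF.comp ?_ ?_; assumption) | (with_reducible refine IntF.comp₂ ?_ ?_ ?_; assumption) | (with_reducible refine IntF.comp₃ ?_ ?_ ?_ ?_; assumption) | with_reducible apply IntF.pair))) (he.cont k)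
  choose y hy using hex
  have hyI : IntF N y := by
    refine IntF.of_unique (p := fun (k : β) (z : Helper672.Plain.El r) => ∀ ε, 0 < ε → ∃ i, ∀ p, R ((p, Y i), i) →
      d (e p k) z ≤ ε) (by (repeat' (first | with_reducible exact IntF.id | with_reducible exact IntF.fst' | with_reducible exact IntF.snd' | with_reducible exact IntF.const _ | with_reducible exact Int.const _ | assumption | with_reducible apply Int.and | with_reducible apply Int.or | with_reducible apply Int.not | with_reducible apply Int.imp | with_reducible apply Int.iff | with_reducible apply Int.ne | with_reducible apply Int.eq | with_reducible apply Int.mem | with_reducible apply Int.subset | with_reducible apply Int.ltN | with_reducible apply Int.leN | with_reducible_and_instances apply Int.le | with_reducible_and_instances apply Int.lt | with_reducible apply Int.all | with_reducible apply Int.ex | with_reducible apply IntF.fst | with_reducible apply IntF.snd | with_reducible apply IntF.app | with_reducible apply IntF.inl | with_reducible apply IntF.inr | with_reducible_and_instances apply IntF.mul | with_reducible_and_instances apply IntF.inv | with_reducible_and_instances apply IntF.add | with_reducible_and_instances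 apply IntF.sub | with_reducible_and_instances apply IntF.neg | with_reducible_and_instances apply IntF.smul | with_reducible apply Int.fin | with_reducible apply IntF.sep | with_reducible apply IntF.lam | with_reducible apply IntF.insert | with_reducible apply IntF.singleton | with_reducible apply IntF.union | with_reducible apply IntF.iimage | with_reducible apply IntF.ite | with_reducible apply IntF.the | with_reducible apply IntF.irec | with_reducible apply IntF.succ | with_reducible apply IntF.val | with_reducible apply IntF.mk | (with_reducible refine Int.comp ?_ ?_; assumption) | (with_reducible refine Int.comp₂ ?_ ?_ ?_; assumption) | (with_reducible refine Int.comp₃ ?_ ?_ ?_ ?_; assumption) | (with_reducible refine Int.comp₄ ?_ ?_ ?_ ?_ ?_; assumption) | (with_reducible refine IntF.comp ?_ ?_; assumption) | (with_reducible refine IntF.comp₂ ?_ ?_ ?_; assumption) | (with_reducible refine IntF.comp₃ ?_ ?_ ?_ ?_; assumption) | with_reducible apply IntF.pair))) (fun k ε hε => by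
        obtain ⟨i, hi⟩ := hy k ε hε
        exact ⟨i, fun p hp => by
          rw [hd]
          exact hi p hp⟩) fun k z z' h h' => ?_
    simp only [hd] at h h'
    by_contra hne
    have h1 : 0 < |z - z'| := abs_pos.2 (sub_ne_zero.2 hne)
    obtain ⟨p, h2, h3⟩ := (Big.and hO hR (φ := fun p => |e p k - z| ≤ |z - z'| / 3)
      (ψ := fun p => |e p k - z'| ≤ |z - z'| / 3) (h _ (by linarith)) (h' _ (by linarith))).ex hR
    have h4 := abs_sub_le z (e p k) z'
    rw [abs_sub_comm z (e p k)] at h4
    linarith
  have key : ∀ (ε : Helper672.Plain.El r), 0 < ε → ∀ F : IPow N β, IFin F →
      Big R Y (fun p => ∀ k, k ∈ F → d (e p k) (y k) ≤ ε) := by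
    intro ε hε
    refine IFin.ind (p := fun F => ∃ i, ∀ p, R ((p, Y i), i) → ∀ k, k ∈ F → d (e p k) (y k) ≤ ε)
      (by (repeat' (first | with_reducible exact IntF.id | with_reducible exact IntF.fst' | with_reducible exact IntF.snd' | with_reducible exact IntF.const _ | with_reducible exact Int.const _ | assumption | with_reducible apply Int.and | with_reducible apply Int.or | with_reducible apply Int.not | with_reducible apply Int.imp | with_reducible apply Int.iff | with_reducible apply Int.ne | with_reducible apply Int.eq | with_reducible apply Int.mem | with_reducible apply Int.subset | with_reducible apply Int.ltN | with_reducible apply Int.leN | with_reducible_and_instances apply Int.le | with_reducible_and_instances apply Int.lt | with_reducible apply Int.all | with_reducible apply Int.ex | with_reducible apply IntF.fst | with_reducible apply IntF.snd | with_reducible apply IntF.app | with_reducible apply IntF.inl | with_reducible apply IntF.inr | with_reducible_and_instances apply IntF.mul | with_reducible_and_instances apply IntF.inv | with_reducible_and_instances apply IntF.add | with_reducible_and_instances apply IntF.sub | with_reducible_and_instances apply IntF.neg | with_reducible_and_instances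 apply IntF.smul | with_reducible apply Int.fin | with_reducible apply IntF.sep | with_reducible apply IntF.lam | with_reducible apply IntF.insert | with_reducible apply IntF.singleton | with_reducible apply IntF.union | with_reducible apply IntF.iimage | with_reducible apply IntF.ite | with_reducible apply IntF.the | with_reducible apply IntF.irec | with_reducible apply IntF.succ | with_reducible apply IntF.val | with_reducible apply IntF.mk | (with_reducible refine Int.comp ?_ ?_; assumption) | (with_reducible refine Int.comp₂ ?_ ?_ ?_; assumption) | (with_reducible refine Int.comp₃ ?_ ?_ ?_ ?_; assumption) | (with_reducible refine Int.comp₄ ?_ ?_ ?_ ?_ ?_; assumption) | (with_reducible refine IntF.comp ?_ ?_; assumption) | (with_reducible refine IntF.comp₂ ?_ ?_ ?_; assumption) | (with_reducible refine IntF.comp₃ ?_ ?_ ?_ ?_; assumption) | with_reducible apply IntF.pair))) ?_ ?_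
    · obtain ⟨i, -⟩ : Big R Y (fun p => p ∈ sep N (fun p : α => p = p)) := by
        have hD : ∀ p : α, p ∈ sep N (fun p : α => p = p) := fun p => (mem_sep (by (repeat' (first | with_reducible exact IntF.id | with_reducible exact IntF.fst' | with_reducible exact IntF.snd' | with_reducible exact IntF.const _ | with_reducible exact Int.const _ | assumption | with_reducible apply Int.and | with_reducible apply Int.or | with_reducible apply Int.not | with_reducible apply Int.imp | with_reducible apply Int.iff | with_reducible apply Int.ne | with_reducible apply Int.eq | with_reducible apply Int.mem | with_reducible apply Int.subset | with_reducible apply Int.ltN | with_reducible apply Int.leN | with_reducible_and_instances apply Int.le | with_reducible_and_instances apply Int.lt | with_reducible apply Int.all | with_reducible apply Int.ex | with_reducible apply IntF.fst | with_reducible apply IntF.snd | with_reducible apply IntF.app | with_reducible apply IntF.inl | with_reducible apply IntF.inr | with_reducible_and_instances apply IntF.mul | with_reducible_and_instances apply IntF.inv | with_reducible_and_instances apply IntF.add | with_reducible_and_instances apply IntF.sub | with_reducible_and_instances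 apply IntF.neg | with_reducible_and_instances apply IntF.smul | with_reducible apply Int.fin | with_reducible apply IntF.sep | with_reducible apply IntF.lam | with_reducible apply IntF.insert | with_reducible apply IntF.singleton | with_reducible apply IntF.union | with_reducible apply IntF.iimage | with_reducible apply IntF.ite | with_reducible apply IntF.the | with_reducible apply IntF.irec | with_reducible apply IntF.succ | with_reducible apply IntF.val | with_reducible apply IntF.mk | (with_reducible refine Int.comp ?_ ?_; assumption) | (with_reducible refine Int.comp₂ ?_ ?_ ?_; assumption) | (with_reducible refine Int.comp₃ ?_ ?_ ?_ ?_; assumption) | (with_reducible refine Int.comp₄ ?_ ?_ ?_ ?_ ?_; assumption) | (with_reducible refine IntF.comp ?_ ?_; assumption) | (with_reducible refine IntF.comp₂ ?_ ?_ ?_; assumption) | (with_reducible refine IntF.comp₃ ?_ ?_ ?_ ?_; assumption) | with_reducible apply IntF.pair)))).2 rfl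
        have hE : ∀ p : α, p ∈ sep N (fun p : α => ¬ p = p) ↔ ¬ p = p := fun p =>
          mem_sep (by (repeat' (first | with_reducible exact IntF.id | with_reducible exact IntF.fst' | with_reducible exact IntF.snd' | with_reducible exact IntF.const _ | with_reducible exact Int.const _ | assumption | with_reducible apply Int.and | with_reducible apply Int.or | with_reducible apply Int.not | with_reducible apply Int.imp | with_reducible apply Int.iff | with_reducible apply Int.ne | with_reducible apply Int.eq | with_reducible apply Int.mem | with_reducible apply Int.subset | with_reducible apply Int.ltN | with_reducible apply Int.leN | with_reducible_and_instances apply Int.le | with_reducible_and_instances apply Int.lt | with_reducible apply Int.all | with_reducible apply Int.ex | with_reducible apply IntF.fst | with_reducible apply IntF.snd | with_reducible apply IntF.app | with_reducible apply IntF.inl | with_reducible apply IntF.inr | with_reducible_and_instances apply IntF.mul | with_reducible_and_instances apply IntF.inv | with_reducible_and_instances apply IntF.add | with_reducible_and_instances apply IntF.sub | with_reducible_and_instances apply IntF.neg | with_reducible_and_instances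 apply IntF.smul | with_reducible apply Int.fin | with_reducible apply IntF.sep | with_reducible apply IntF.lam | with_reducible apply IntF.insert | with_reducible apply IntF.singleton | with_reducible apply IntF.union | with_reducible apply IntF.iimage | with_reducible apply IntF.ite | with_reducible apply IntF.the | with_reducible apply IntF.irec | with_reducible apply IntF.succ | with_reducible apply IntF.val | with_reducible apply IntF.mk | (with_reducible refine Int.comp ?_ ?_; assumption) | (with_reducible refine Int.comp₂ ?_ ?_ ?_; assumption) | (with_reducible refine Int.comp₃ ?_ ?_ ?_ ?_; assumption) | (with_reducible refine Int.comp₄ ?_ ?_ ?_ ?_ ?_; assumption) | (with_reducible refine IntF.comp ?_ ?_; assumption) | (with_reducible refine IntF.comp₂ ?_ ?_ ?_; assumption) | (with_reducible refine IntF.comp₃ ?_ ?_ ?_ ?_; assumption) | with_reducible apply IntF.pair)))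
        rcases big_or hO hR (hO.univ _ hD) (TpO.local' hO (W := sep N (fun p : α => ¬ p = p))
          fun p hp => absurd rfl ((hE p).1 hp)) (fun p => by
            rw [hE p]
            exact ⟨fun h => absurd rfl h, fun h => absurd (hD p) h⟩) with h | h
        · exact h
        · exact h.mono fun p hp => absurd (hD p) hp
      exact ⟨i, fun p _ k hk => absurd hk (by simp)⟩
    · intro F k _ _ ih
      have h1 : Big R Y (fun p => ∀ k, k ∈ F → d (e p k) (y k) ≤ ε) := ih
      refine (Big.and hO hR h1 (hy k ε hε)).mono fun p hp k' hk' => ?_
      rcases mem_insert.1 hk' with rfl | hk'
      · rw [hd]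
        exact hp.2
      · exact hp.1 k' hk'
  obtain ⟨p, hp⟩ := he.closed y hyI fun F ε hF hε => by
    obtain ⟨p, hp⟩ := (key (ε / 2) (half_pos hε) F hF).ex hR
    refine ⟨p, fun k hk => ?_⟩
    have h1 := hp k hk
    rw [hd] at h1
    linarith
  refine ⟨p, fun i => ?_⟩
  by_contra hcon
  obtain ⟨n, hn⟩ := hR.ex i p
  have hU : ∀ q, q ∈ sep N (fun q => R ((q, n), i)) ↔ R ((q, n), i) := fun q =>
    mem_sep (by (repeat' (first | with_reducible exact IntF.id | with_reducible exact IntF.fst' | with_reducible exact IntF.snd' | with_reducible exact IntF.const _ | with_reducible exact Int.const _ | assumption | with_reducible apply Int.and | with_reducible apply Int.or | with_reducible apply Int.not | with_reducible apply Int.imp | with_reducible apply Int.iff | with_reducible apply Int.ne | with_reducible apply Int.eq | with_reducible apply Int.mem | with_reducible apply Int.subset | with_reducible apply Int.ltN | with_reducible apply Int.leN | with_reducible_and_instances apply Int.le | with_reducible_and_instances apply Int.lt | with_reducible apply Int.all | with_reducible apply Int.ex | with_reducible apply IntF.fst | with_reducible apply IntF.snd | with_reducible apply IntF.app | with_reducible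 apply IntF.inl | with_reducible apply IntF.inr | with_reducible_and_instances apply IntF.mul | with_reducible_and_instances apply IntF.inv | with_reducible_and_instances apply IntF.add | with_reducible_and_instances apply IntF.sub | with_reducible_and_instances apply IntF.neg | with_reducible_and_instances apply IntF.smul | with_reducible apply Int.fin | with_reducible apply IntF.sep | with_reducible apply IntF.lam | with_reducible apply IntF.insert | with_reducible apply IntF.singleton | with_reducible apply IntF.union | with_reducible apply IntF.iimage | with_reducible apply IntF.ite | with_reducible apply IntF.the | with_reducible apply IntF.irec | with_reducible apply IntF.succ | with_reducible apply IntF.val | with_reducible apply IntF.mk | (with_reducible refine Int.comp ?_ ?_; assumption) | (with_reducible refine Int.comp₂ ?_ ?_ ?_; assumption) | (with_reducible refine Int.comp₃ ?_ ?_ ?_ ?_; assumption) | (with_reducible refine Int.comp₄ ?_ ?_ ?_ ?_ ?_; assumption) | (with_reducible refine IntF.comp ?_ ?_; assumption) | (with_reducible refine IntF.comp₂ ?_ ?_ ?_; assumption) | (with_reducible refine IntF.comp₃ ?_ ?_ ?_ ?_; assumption) | with_reducible apply IntF.pair)))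
  obtain ⟨F, ε, hF, hε, h1⟩ := he.nb _ (hR.op i n _ hU) p ((hU p).2 hn)
  obtain ⟨q, h2, h3⟩ := (Big.and hO hR (key (ε / 2) (half_pos hε) F hF)
    (ψ := fun q => R ((q, Y i), i)) ⟨i, fun q hq => hq⟩).ex hR
  have h4 : R ((q, n), i) := (hU q).1 (h1 q fun k hk => by
    have h5 := h2 k hk
    rw [hd] at h5
    rw [hp k]
    linarith)
  have h5 := hR.uniq i q n (Y i) h4 h3
  rw [h5] at hn
  exact hcon hn

end

end Pool.Agent.Q301.SZ
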