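import Pool.Agent.Q301.SZ.NC

/-!
# Strongly zero-dimensional realcompact spaces are `ℕ`-compact
-/

set_option maxHeartbeats 1000000
set_option linter.all false
set_option synthInstance.maxSize 2000

namespace Pool.Agent.Q301.SZ

open FirstOrder FirstOrder.Language
open Pool.Agent.Helper672.ZFA
open Pool.Agent.Helper672.Plain (LSet)
open Pool.Agent.Helper672.ZFA.H635 (toL plainN_ordPair plainN_graph plainN_opGraph)
open Pool.Agent.H635Amen (IsReals)
open Pool.Agent.H310Cards (IsOmega IsFinite IsFun App IsInj IsNat)
open Pool.Agent.H310Top (IsTopology IsClosed IsCompact IsHausdorff)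
open Pool.Agent.H310 (FinP finP_iff finP_le finP_lt exists_BN mem_nat nat_iff appN finite_of_finP
  mem_cp extN exists_code instPEl)
open Pool.Agent.Q301.TM
open Pool.Agent.Q301.BM (TpO tp mem_tp mem_tp' isTopology_tp tpO_of mem_cp' mem_domP)

universe u u₁

attribute [local instance] toL instPEl

section

variable {N : Type u} [LSet.Structure N] [hM : IsModel N] {x t : N}

/-- Topologies as internal families. -/
theorem tpO_of_topology (ht : IsTopology t x) :
    TpO (fun U : IPow N (Helper672.Plain.El x) => Helper672.Plain.Mem (code U) t) := by
  refine ⟨⟨t, fun _ => Iff.rfl⟩, fun U hU => ?_, fun U V W hU hV hW => ?_, fun C hC hCt W hW => ?_⟩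
  · exact open_of_local ht fun z hz => ⟨x, ht.univ, (mem_cpE.1 hz).1, fun z' hz' =>
      mem_cpE.2 ⟨hz', hU _⟩⟩
  · refine ht.inter _ _ _ hU hV fun z => ?_
    rw [show Helper672.Plain.Mem z (code W) ↔ _ from mem_cpE,
      show Helper672.Plain.Mem z (code U) ↔ _ from mem_cpE,
      show Helper672.Plain.Mem z (code V) ↔ _ from mem_cpE]
    constructor
    · rintro ⟨h1, h2⟩
      exact ⟨⟨h1, ((hW _).1 h2).1⟩, h1, ((hW _).1 h2).2⟩
    · rintro ⟨⟨h1, h2⟩, h3, h4⟩
      exact ⟨h1, (hW _).2 ⟨h2, h4⟩⟩
  · refine open_of_local ht fun z hz => ?_
    obtain ⟨h1, h2⟩ := mem_cpE.1 hz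
    obtain ⟨U, h3, h4⟩ := (hW _).1 h2
    refine ⟨code U, hCt U h3, mem_cpE.2 ⟨h1, h4⟩, fun z' hz' => ?_⟩
    obtain ⟨h5, h6⟩ := mem_cpE.1 hz'
    exact mem_cpE.2 ⟨h5, (hW _).2 ⟨U, h3, h6⟩⟩

variable {r : N} [Field (Helper672.Plain.El r)] [LinearOrder (Helper672.Plain.El r)] [IsStrictOrderedRing (Helper672.Plain.El r)]
variable (hr : IsReals r)
include hr

/-- Cutting off. -/
theorem exists_clamp : ∃ κ : Helper672.Plain.El r → Helper672.Plain.El r, IntF N κ ∧ (∀ s, 0 ≤ κ s ∧ κ s ≤ 1) ∧
    (∀ s, s ≤ 0 → κ s = 0) ∧ (∀ s, 1 ≤ s → κ s = 1) ∧ ∀ s s', |κ s - κ s'| ≤ |s - s'| := by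
  have hle := int_le hr
  refine ⟨fun s => max 0 (min 1 s), ?_, fun s => ⟨le_max_left _ _, max_le zero_le_one
    (min_le_left _ _)⟩, fun s hs => ?_, fun s hs => ?_, fun s s' => ?_⟩
  · refine IntF.of_rel (r := fun s z => (s ≤ 0 ∧ z = 0) ∨ (¬ s ≤ 0 ∧ 1 ≤ s ∧ z = 1) ∨
      (¬ s ≤ 0 ∧ ¬ 1 ≤ s ∧ z = s)) (by (repeat' (first | with_reducible exact IntF.id | with_reducible exact IntF.fst' | with_reducible exact IntF.snd' | with_reducible exact IntF.const _ | with_reducible exact Int.const _ | assumption | with_reducible apply Int.and | with_reducible apply Int.or | with_reducible apply Int.not | with_reducible apply Int.imp | with_reducible apply Int.iff | with_reducible apply Int.ne | with_reducible apply Int.eq | with_reducible apply Int.mem | with_reducible apply Int.subset | with_reducible apply Int.ltN | with_reducible apply Int.leN | with_reducible_and_instances apply Int.le | with_reducible_and_instances apply Int.lt | with_reducible apply Int.all | with_reducible apply Int.ex | with_reducible apply IntF.fst | with_reducible apply IntF.snd | with_reducible apply IntF.app | with_reducible apply IntF.inl |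 with_reducible apply IntF.inr | with_reducible_and_instances apply IntF.mul | with_reducible_and_instances apply IntF.inv | with_reducible_and_instances apply IntF.add | with_reducible_and_instances apply IntF.sub | with_reducible_and_instances apply IntF.neg | with_reducible_and_instances apply IntF.smul | with_reducible apply Int.fin | with_reducible apply IntF.sep | with_reducible apply IntF.lam | with_reducible apply IntF.insert | with_reducible apply IntF.singleton | with_reducible apply IntF.union | with_reducible apply IntF.iimage | with_reducible apply IntF.ite | with_reducible apply IntF.the | with_reducible apply IntF.irec | with_reducible apply IntF.succ | with_reducible apply IntF.val | with_reducible apply IntF.mk | (with_reducible refine Int.comp ?_ ?_; assumption) | (with_reducible refine Int.comp₂ ?_ ?_ ?_; assumption) | (with_reducible refine Int.comp₃ ?_ ?_ ?_ ?_; assumption) | (with_reducible refine Int.comp₄ ?_ ?_ ?_ ?_ ?_; assumption) | (with_reducible refine IntF.comp ?_ ?_; assumption) | (with_reducible refine IntF.comp₂ ?_ ?_ ?_; assumption) | (with_reducible refine IntF.comp₃ ?_ ?_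 ?_ ?_; assumption) | with_reducible apply IntF.pair))) fun s z => ?_
    by_cases h1 : s ≤ 0
    · have h2 : max 0 (min 1 s) = 0 := max_eq_left ((min_le_right _ _).trans h1)
      rw [h2]
      simp only [h1, true_and, not_true_eq_false, false_and, or_false]
      exact eq_comm
    · by_cases h3 : 1 ≤ s
      · have h2 : max 0 (min 1 s) = 1 := by
          rw [min_eq_left h3]
          exact max_eq_right zero_le_one
        rw [h2]
        simp only [h1, h3, true_and, not_true_eq_false, not_false_eq_true, false_and, or_false,
          false_or]
        exact eq_comm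
      · have h2 : max 0 (min 1 s) = s := by
          rw [min_eq_right (not_le.1 h3).le]
          exact max_eq_right (not_le.1 h1).le
        rw [h2]
        simp only [h1, h3, true_and, not_false_eq_true, false_and, or_false, false_or]
        exact eq_comm
  · exact max_eq_left ((min_le_right _ _).trans hs)
  · change max 0 (min 1 s) = 1
    rw [min_eq_left hs]
    exact max_eq_right zero_le_one
  · have h1 : |max 0 (min 1 s) - max 0 (min 1 s')| ≤ |min 1 s - min 1 s'| := by
      rw [max_comm 0, max_comm 0]
      exact abs_max_sub_max_le_abs _ _ _
    refine h1.trans ?_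
    rcases le_total 1 s with h2 | h2 <;> rcases le_total 1 s' with h3 | h3
    · rw [min_eq_left h2, min_eq_left h3, sub_self, abs_zero]
      exact abs_nonneg _
    · rw [min_eq_left h2, min_eq_right h3, abs_of_nonneg (by linarith), abs_of_nonneg (by linarith)]
      linarith
    · rw [min_eq_right h2, min_eq_left h3, abs_of_nonpos (by linarith), abs_of_nonpos (by linarith)]
      linarith
    · rw [min_eq_right h2, min_eq_right h3]

/-- Level sets are separated by clopen sets. -/
theorem exists_sep_level (ht : IsTopology t x) (hz : IsStronglyZeroDim t x r) {g : Helper672.Plain.El x → Helper672.Plain.El r}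
    (hg : IntF N g) (hgc : Ct (fun U : IPow N (Helper672.Plain.El x) => Helper672.Plain.Mem (code U) t) g) {a b : Helper672.Plain.El r}
    (hab : a < b) : ∃ D E : IPow N (Helper672.Plain.El x), Helper672.Plain.Mem (code D) t ∧ Helper672.Plain.Mem (code E) t ∧
      (∀ p, p ∈ E ↔ ¬ p ∈ D) ∧ (∀ p, g p ≤ a → p ∈ D) ∧ ∀ p, b ≤ g p → ¬ p ∈ D := by
  obtain ⟨κ, hκ, h1, h2, h3, h4⟩ := exists_clamp hr
  have hmu := int_mul hr
  have hsu := int_sub' hr
  have hle := int_le hr
  have hpos : 0 < (b - a)⁻¹ := inv_pos.2 (sub_pos.2 hab)
  obtain ⟨A, hA⟩ := exists_set (p := fun p : Helper672.Plain.El x => g p ≤ a) (by (repeat' (first | with_reducible exact IntF.id | with_reducible exact IntF.fst' | with_reducible exact IntF.snd' | with_reducible exact IntF.const _ | with_reducible exact Int.const _ | assumption | with_reducible apply Int.and | with_reducible apply Int.or | with_reducible apply Int.not | with_reducible apply Int.imp | with_reducible apply Int.iff | with_reducible apply Int.ne | with_reducible apply Int.eq | with_reducible apply Int.mem | with_reducible apply Int.subset | with_reducible apply Int.ltN | with_reducible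 apply Int.leN | with_reducible_and_instances apply Int.le | with_reducible_and_instances apply Int.lt | with_reducible apply Int.all | with_reducible apply Int.ex | with_reducible apply IntF.fst | with_reducible apply IntF.snd | with_reducible apply IntF.app | with_reducible apply IntF.inl | with_reducible apply IntF.inr | with_reducible_and_instances apply IntF.mul | with_reducible_and_instances apply IntF.inv | with_reducible_and_instances apply IntF.add | with_reducible_and_instances apply IntF.sub | with_reducible_and_instances apply IntF.neg | with_reducible_and_instances apply IntF.smul | with_reducible apply Int.fin | with_reducible apply IntF.sep | with_reducible apply IntF.lam | with_reducible apply IntF.insert | with_reducible apply IntF.singleton | with_reducible apply IntF.union | with_reducible apply IntF.iimage | with_reducible apply IntF.ite | with_reducible apply IntF.the | with_reducible apply IntF.irec | with_reducible apply IntF.succ | with_reducible apply IntF.val | with_reducible apply IntF.mk | (with_reducible refine Int.comp ?_ ?_; assumption) | (with_reducible refine Int.comp₂ ?_ ?_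 ?_; assumption) | (with_reducible refine Int.comp₃ ?_ ?_ ?_ ?_; assumption) | (with_reducible refine Int.comp₄ ?_ ?_ ?_ ?_ ?_; assumption) | (with_reducible refine IntF.comp ?_ ?_; assumption) | (with_reducible refine IntF.comp₂ ?_ ?_ ?_; assumption) | (with_reducible refine IntF.comp₃ ?_ ?_ ?_ ?_; assumption) | with_reducible apply IntF.pair)))
  obtain ⟨B, hB⟩ := exists_set (p := fun p : Helper672.Plain.El x => b ≤ g p) (by (repeat' (first | with_reducible exact IntF.id | with_reducible exact IntF.fst' | with_reducible exact IntF.snd' | with_reducible exact IntF.const _ | with_reducible exact Int.const _ | assumption | with_reducible apply Int.and | with_reducible apply Int.or | with_reducible apply Int.not | with_reducible apply Int.imp | with_reducible apply Int.iff | with_reducible apply Int.ne | with_reducible apply Int.eq | with_reducible apply Int.mem | with_reducible apply Int.subset | with_reducible apply Int.ltN | with_reducible apply Int.leN | with_reducible_and_instances apply Int.le | with_reducible_and_instances apply Int.lt | with_reducible apply Int.all | with_reducible apply Int.ex | with_reducible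 apply IntF.fst | with_reducible apply IntF.snd | with_reducible apply IntF.app | with_reducible apply IntF.inl | with_reducible apply IntF.inr | with_reducible_and_instances apply IntF.mul | with_reducible_and_instances apply IntF.inv | with_reducible_and_instances apply IntF.add | with_reducible_and_instances apply IntF.sub | with_reducible_and_instances apply IntF.neg | with_reducible_and_instances apply IntF.smul | with_reducible apply Int.fin | with_reducible apply IntF.sep | with_reducible apply IntF.lam | with_reducible apply IntF.insert | with_reducible apply IntF.singleton | with_reducible apply IntF.union | with_reducible apply IntF.iimage | with_reducible apply IntF.ite | with_reducible apply IntF.the | with_reducible apply IntF.irec | with_reducible apply IntF.succ | with_reducible apply IntF.val | with_reducible apply IntF.mk | (with_reducible refine Int.comp ?_ ?_; assumption) | (with_reducible refine Int.comp₂ ?_ ?_ ?_; assumption) | (with_reducible refine Int.comp₃ ?_ ?_ ?_ ?_; assumption) | (with_reducible refine Int.comp₄ ?_ ?_ ?_ ?_ ?_; assumption) | (with_reducible refine IntF.comp ?_ ?_;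 assumption) | (with_reducible refine IntF.comp₂ ?_ ?_ ?_; assumption) | (with_reducible refine IntF.comp₃ ?_ ?_ ?_ ?_; assumption) | with_reducible apply IntF.pair)))
  have hI1 : IntF N (fun s : Helper672.Plain.El r => s - a) :=
    IntF.comp₂ (p := fun a b : Helper672.Plain.El r => a - b) hsu IntF.id (IntF.const _)
  have hI2 : IntF N (fun s : Helper672.Plain.El r => s * (b - a)⁻¹) :=
    IntF.comp₂ (p := fun a b : Helper672.Plain.El r => a * b) hmu IntF.id (IntF.const _)
  have hI : IntF N (fun p : Helper672.Plain.El x => κ ((g p - a) * (b - a)⁻¹)) :=
    IntF.comp (g := κ) hκ (IntF.comp (g := fun s : Helper672.Plain.El r => s * (b - a)⁻¹) hI2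
      (IntF.comp (g := fun s : Helper672.Plain.El r => s - a) hI1 hg))
  have hsep : IsCompletelySeparated t x r A B := by
    refine ⟨fun p => κ ((g p - a) * (b - a)⁻¹), ⟨isMap_iff.2 hI,
      fun p ε hε => ?_⟩, fun p => h1 _, fun p hp => ?_, fun p hp => ?_⟩
    · obtain ⟨U, h5, h6, h7⟩ := hgc p (ε * (b - a)) (mul_pos hε (sub_pos.2 hab))
      refine ⟨code U, h5, mem_cpE'.2 h6, fun q hq => (h4 _ _).trans_lt ?_⟩
      have h8 := h7 q (mem_cpE'.1 hq)
      rw [← sub_mul, sub_sub_sub_cancel_right, abs_mul, abs_of_pos hpos]
      calc |g q - g p| * (b - a)⁻¹ < (ε * (b - a)) * (b - a)⁻¹ := mul_lt_mul_of_pos_right h8 hpos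
        _ = ε := by rw [mul_assoc, mul_inv_cancel₀ (sub_pos.2 hab).ne', mul_one]
    · obtain ⟨_, h5⟩ := (hA _).1 hp
      exact h2 _ (mul_nonpos_of_nonpos_of_nonneg (sub_nonpos.2 h5) hpos.le)
    · obtain ⟨_, h5⟩ := (hB _).1 hp
      refine h3 _ ?_
      have h6 : b - a ≤ g p - a := sub_le_sub_right h5 a
      calc (1 : Helper672.Plain.El r) = (b - a) * (b - a)⁻¹ := (mul_inv_cancel₀ (sub_pos.2 hab).ne').symm
        _ ≤ (g p - a) * (b - a)⁻¹ := mul_le_mul_of_nonneg_right h6 hpos.le
  obtain ⟨c, ⟨hc1, hc2, u, hu, hc3⟩, hc4, hc5⟩ := hz A B (fun z hz => ((hA z).1 hz).1)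
    (fun z hz => ((hB z).1 hz).1) hsep
  obtain ⟨D, rfl, hD⟩ := exists_code (a := x) (u := c) hc2
  obtain ⟨E, rfl, hE⟩ := exists_code (a := x) (u := u) fun z hz => ((hc3 z).1 hz).1
  refine ⟨D, E, hc1, hu, fun p => ?_, fun p hp => (hD p).2 (hc4 p.1 ((hA _).2 ⟨p.2, hp⟩)),
    fun p hp hpD => hc5 p.1 ((hD p).1 hpD) ((hB _).2 ⟨p.2, hp⟩)⟩
  rw [hE p, hc3 p.1, hD p]
  exact ⟨fun h => h.2, fun h => ⟨p.2, h⟩⟩

/-- Strongly zero-dimensional realcompact spaces are `ℕ`-compact. -/
theorem isNCompact_of (ht : IsTopology t x) (hz : IsStronglyZeroDim t x r)
    (hrc : IsRealcompact t x r) : IsNCompact t x := by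
  obtain ⟨j, e, heM, hinj, htop, hcl⟩ := hrc
  have heI := isMap₂_iff.1 heM
  have hlt := int_lt hr
  obtain ⟨d, hdI, hd⟩ : ∃ d : Helper672.Plain.El r → Helper672.Plain.El r → Helper672.Plain.El r, IntF N (fun q : Helper672.Plain.El r × Helper672.Plain.El r => d q.1 q.2) ∧
      ∀ a b, d a b = |a - b| := ⟨fun a b => |a - b|, int_dist hr, fun _ _ => rfl⟩
  obtain ⟨O, hOe⟩ : ∃ O : IPow N (Helper672.Plain.El x) → Prop, O = fun U => Helper672.Plain.Mem (code U) t := ⟨_, rfl⟩
  have hOt : ∀ U, O U ↔ Helper672.Plain.Mem (code U) t := fun U => by rw [hOe]
  have hO : TpO O := by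
    rw [hOe]
    exact tpO_of_topology ht
  have hOI := hO.int
  have he : Emb O e := by
    refine ⟨heI, hO, fun i p ε hε => ?_, fun U hU p hp => ?_, fun y hy h => ?_, fun g hg hgc a b hab => ?_⟩
    · have hI : ∀ q, q ∈ sep N (fun q : Helper672.Plain.El x => d (e q i) (e p i) < ε) ↔ d (e q i) (e p i) < ε :=
        fun q => mem_sep (by (repeat' (first | with_reducible exact IntF.id | with_reducible exact IntF.fst' | with_reducible exact IntF.snd' | with_reducible exact IntF.const _ | with_reducible exact Int.const _ | assumption | with_reducible apply Int.and | with_reducible apply Int.or | with_reducible apply Int.not | with_reducible apply Int.imp | with_reducible apply Int.iff | with_reducible apply Int.ne | with_reducible apply Int.eq | with_reducible apply Int.mem | with_reducible apply Int.subset | with_reducible apply Int.ltN | with_reducible apply Int.leN | with_reducible_and_instances apply Int.le | with_reducible_and_instances apply Int.lt | with_reducible apply Int.all | with_reducible apply Int.ex | with_reducible apply IntF.fst | with_reducible apply IntF.snd | with_reducible apply IntF.app |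 with_reducible apply IntF.inl | with_reducible apply IntF.inr | with_reducible_and_instances apply IntF.mul | with_reducible_and_instances apply IntF.inv | with_reducible_and_instances apply IntF.add | with_reducible_and_instances apply IntF.sub | with_reducible_and_instances apply IntF.neg | with_reducible_and_instances apply IntF.smul | with_reducible apply Int.fin | with_reducible apply IntF.sep | with_reducible apply IntF.lam | with_reducible apply IntF.insert | with_reducible apply IntF.singleton | with_reducible apply IntF.union | with_reducible apply IntF.iimage | with_reducible apply IntF.ite | with_reducible apply IntF.the | with_reducible apply IntF.irec | with_reducible apply IntF.succ | with_reducible apply IntF.val | with_reducible apply IntF.mk | (with_reducible refine Int.comp ?_ ?_; assumption) | (with_reducible refine Int.comp₂ ?_ ?_ ?_; assumption) | (with_reducible refine Int.comp₃ ?_ ?_ ?_ ?_; assumption) | (with_reducible refine Int.comp₄ ?_ ?_ ?_ ?_ ?_; assumption) | (with_reducible refine IntF.comp ?_ ?_; assumption) | (with_reducible refine IntF.comp₂ ?_ ?_ ?_; assumption) | (with_reducible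 refine IntF.comp₃ ?_ ?_ ?_ ?_; assumption) | with_reducible apply IntF.pair)))
      refine ⟨_, (hOt _).2 ((htop _ fun z hz => (mem_cpE.1 hz).1).2 fun q hq => ?_), (hI p).2 ?_,
        fun q hq => ?_⟩
      · have h1 := (hI q).1 (mem_cpE'.1 hq)
        rw [hd] at h1
        refine ⟨code ({i} : IPow N (Helper672.Plain.El j)), ε - |e q i - e p i|, finite_code (IFin.singleton _),
          sub_pos.2 h1, fun q' hq' => mem_cpE'.2 ((hI q').2 ?_)⟩
        have h2 := hq' i (mem_cpE'.2 (mem_singleton.2 rfl))
        rw [hd]
        have h3 := abs_sub_le (e q' i) (e q i) (e p i)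
        linarith
      · rw [hd, sub_self, abs_zero]
        exact hε
      · have h1 := (hI q).1 hq
        rw [hd] at h1
        exact h1
    · obtain ⟨F, ε, hF, hε, h1⟩ := (htop _ fun z hz => (mem_cpE.1 hz).1).1 ((hOt U).1 hU) p
        (mem_cpE'.2 hp)
      exact ⟨_, ε, ifin_of_finite hF j, hε, fun q hq => mem_cpE'.1 (h1 q fun i hi =>
        hq i ((mem_sep (memI' _ _)).2 hi))⟩
    · refine hcl y (isMap_iff.2 hy) fun F ε hF hε => ?_
      obtain ⟨p, hp⟩ := h _ ε (ifin_of_finite hF j) hε
      exact ⟨p, fun i hi => hp i ((mem_sep (memI' _ _)).2 hi)⟩
    · have hgc' : Ct (fun U : IPow N (Helper672.Plain.El x) => Helper672.Plain.Mem (code U) t) g := hOe ▸ hgc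
      obtain ⟨D, E, h1, h2, h3⟩ := exists_sep_level hr ht hz hg hgc' hab
      exact ⟨D, E, (hOt _).2 h1, (hOt _).2 h2, h3⟩
  obtain ⟨w, hw⟩ := exists_omega (N := N)
  obtain ⟨ν, hν, hν', -⟩ := omega_equiv hw
  -- the continuous functions to `ω`
  have hP : Int N (fun F : IPow N (Helper672.Plain.El x × INat N) => (∀ p, ∃ n, (p, n) ∈ F) ∧
      (∀ p n n', (p, n) ∈ F → (p, n') ∈ F → n = n') ∧ ∀ n, ∃ U, O U ∧ ∀ p, p ∈ U ↔ (p, n) ∈ F) := by
    (repeat' (first | with_reducible exact IntF.id | with_reducible exact IntF.fst' | with_reducible exact IntF.snd' | with_reducible exact IntF.const _ | with_reducible exact Int.const _ | assumption | with_reducible apply Int.and | with_reducible apply Int.or | with_reducible apply Int.not | with_reducible apply Int.imp | with_reducible apply Int.iff | with_reducible apply Int.ne | with_reducible apply Int.eq | with_reducible apply Int.mem | with_reducible apply Int.subset | with_reducible apply Int.ltN | with_reducible apply Int.leN | with_reducible_and_instances apply Int.le | with_reducible_and_instances apply Int.lt | with_reducible apply Int.all | with_reducible apply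 Int.ex | with_reducible apply IntF.fst | with_reducible apply IntF.snd | with_reducible apply IntF.app | with_reducible apply IntF.inl | with_reducible apply IntF.inr | with_reducible_and_instances apply IntF.mul | with_reducible_and_instances apply IntF.inv | with_reducible_and_instances apply IntF.add | with_reducible_and_instances apply IntF.sub | with_reducible_and_instances apply IntF.neg | with_reducible_and_instances apply IntF.smul | with_reducible apply Int.fin | with_reducible apply IntF.sep | with_reducible apply IntF.lam | with_reducible apply IntF.insert | with_reducible apply IntF.singleton | with_reducible apply IntF.union | with_reducible apply IntF.iimage | with_reducible apply IntF.ite | with_reducible apply IntF.the | with_reducible apply IntF.irec | with_reducible apply IntF.succ | with_reducible apply IntF.val | with_reducible apply IntF.mk | (with_reducible refine Int.comp ?_ ?_; assumption) | (with_reducible refine Int.comp₂ ?_ ?_ ?_; assumption) | (with_reducible refine Int.comp₃ ?_ ?_ ?_ ?_; assumption) | (with_reducible refine Int.comp₄ ?_ ?_ ?_ ?_ ?_; assumption) | (with_reducible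 refine IntF.comp ?_ ?_; assumption) | (with_reducible refine IntF.comp₂ ?_ ?_ ?_; assumption) | (with_reducible refine IntF.comp₃ ?_ ?_ ?_ ?_; assumption) | with_reducible apply IntF.pair))
  obtain ⟨P, hPI, hP'⟩ : ∃ P : IPow N (Helper672.Plain.El x × INat N) → Prop, Int N P ∧ ∀ F, P F ↔
      ((∀ p, ∃ n, (p, n) ∈ F) ∧ (∀ p n n', (p, n) ∈ F → (p, n') ∈ F → n = n') ∧
        ∀ n, ∃ U, O U ∧ ∀ p, p ∈ U ↔ (p, n) ∈ F) := ⟨_, hP, fun _ => Iff.rfl⟩
  obtain ⟨k, hk⟩ : ∃ k : N, ∀ z, Helper672.Plain.Mem z k ↔ ∃ F, P F ∧ code F = z := ⟨tp P hPI, fun z => mem_tp⟩
  have hRI : Int N (fun q : (Helper672.Plain.El x × INat N) × Helper672.Plain.El k => Helper672.Plain.Mem (code q.1) q.2.1) :=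
    Int.of_D₂ (S := fun v => Mem (v 0) (v 1)) (D.memf (DF.var _) (DF.var _)) fun _ _ => Iff.rfl
  obtain ⟨R, hR, hR'⟩ : ∃ R : (Helper672.Plain.El x × INat N) × Helper672.Plain.El k → Prop, Int N R ∧ ∀ q i, R (q, i) ↔
      Helper672.Plain.Mem (code q) i.1 := ⟨_, hRI, fun _ _ => Iff.rfl⟩
  have hRF : ∀ i : Helper672.Plain.El k, ∃ F, P F ∧ ∀ q, R (q, i) ↔ q ∈ F := by
    intro i
    obtain ⟨F, h1, h2⟩ := (hk _).1 i.2
    refine ⟨F, h1, fun q => ?_⟩
    rw [hR', ← h2]
    exact mem_cp'
  have hV0 : Val0 O R := by
    refine ⟨hR, fun i p => ?_, fun i p n n' h1 h2 => ?_, fun i n U hU => ?_, fun F hF h1 h2 h3 => ?_⟩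
    · obtain ⟨F, h1, h2⟩ := hRF i
      obtain ⟨n, hn⟩ := ((hP' F).1 h1).1 p
      exact ⟨n, (h2 _).2 hn⟩
    · obtain ⟨F, h3, h4⟩ := hRF i
      exact ((hP' F).1 h3).2.1 p n n' ((h4 _).1 h1) ((h4 _).1 h2)
    · obtain ⟨F, h3, h4⟩ := hRF i
      obtain ⟨V, h5, h6⟩ := ((hP' F).1 h3).2.2 n
      have h7 : U = V := IPow.ext' fun p => by rw [hU p, h4, h6 p]
      rw [h7]
      exact h5
    · have h4 : ∀ q, q ∈ sep N F ↔ F q := fun q => mem_sep hF
      have h5 : P (sep N F) := (hP' _).2 ⟨fun p => by
          obtain ⟨n, hn⟩ := h1 p
          exact ⟨n, (h4 _).2 hn⟩, fun p n n' h5 h6 => h2 p n n' ((h4 _).1 h5) ((h4 _).1 h6),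
        fun n => by
          have h6 : ∀ p, p ∈ sep N (fun p => F (p, n)) ↔ F (p, n) := fun p => mem_sep (by (repeat' (first | with_reducible exact IntF.id | with_reducible exact IntF.fst' | with_reducible exact IntF.snd' | with_reducible exact IntF.const _ | with_reducible exact Int.const _ | assumption | with_reducible apply Int.and | with_reducible apply Int.or | with_reducible apply Int.not | with_reducible apply Int.imp | with_reducible apply Int.iff | with_reducible apply Int.ne | with_reducible apply Int.eq | with_reducible apply Int.mem | with_reducible apply Int.subset | with_reducible apply Int.ltN | with_reducible apply Int.leN | with_reducible_and_instances apply Int.le | with_reducible_and_instances apply Int.lt | with_reducible apply Int.all | with_reducible apply Int.ex | with_reducible apply IntF.fst | with_reducible apply IntF.snd | with_reducible apply IntF.app | with_reducible apply IntF.inl | with_reducible apply IntF.inr | with_reducible_and_instances apply IntF.mul | with_reducible_and_instances apply IntF.inv | with_reducible_and_instances apply IntF.add | with_reducible_and_instances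 apply IntF.sub | with_reducible_and_instances apply IntF.neg | with_reducible_and_instances apply IntF.smul | with_reducible apply Int.fin | with_reducible apply IntF.sep | with_reducible apply IntF.lam | with_reducible apply IntF.insert | with_reducible apply IntF.singleton | with_reducible apply IntF.union | with_reducible apply IntF.iimage | with_reducible apply IntF.ite | with_reducible apply IntF.the | with_reducible apply IntF.irec | with_reducible apply IntF.succ | with_reducible apply IntF.val | with_reducible apply IntF.mk | (with_reducible refine Int.comp ?_ ?_; assumption) | (with_reducible refine Int.comp₂ ?_ ?_ ?_; assumption) | (with_reducible refine Int.comp₃ ?_ ?_ ?_ ?_; assumption) | (with_reducible refine Int.comp₄ ?_ ?_ ?_ ?_ ?_; assumption) | (with_reducible refine IntF.comp ?_ ?_; assumption) | (with_reducible refine IntF.comp₂ ?_ ?_ ?_; assumption) | (with_reducible refine IntF.comp₃ ?_ ?_ ?_ ?_; assumption) | with_reducible apply IntF.pair)))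
          exact ⟨_, h3 n _ h6, fun p => by rw [h6 p, h4]⟩⟩
      refine ⟨mkE (code (sep N F)) ((hk _).2 ⟨_, h5, rfl⟩), fun p n => ?_⟩
      rw [hR', ← h4]
      exact mem_cp'
  choose ρ hρ using hV0.ex
  have hρI : IntF N (fun q : Helper672.Plain.El k × Helper672.Plain.El x => ρ q.1 q.2) :=
    IntF.of_unique (p := fun (q : Helper672.Plain.El k × Helper672.Plain.El x) (n : INat N) => R ((q.2, n), q.1)) (by (repeat' (first | with_reducible exact IntF.id | with_reducible exact IntF.fst' | with_reducible exact IntF.snd' | with_reducible exact IntF.const _ | with_reducible exact Int.const _ | assumption | with_reducible apply Int.and | with_reducible apply Int.or | with_reducible apply Int.not | with_reducible apply Int.imp | with_reducible apply Int.iff | with_reducible apply Int.ne | with_reducible apply Int.eq | with_reducible apply Int.mem | with_reducible apply Int.subset | with_reducible apply Int.ltN | with_reducible apply Int.leN | with_reducible_and_instances apply Int.le | with_reducible_and_instances apply Int.lt | with_reducible apply Int.all | with_reducible apply Int.ex | with_reducible apply IntF.fst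 | with_reducible apply IntF.snd | with_reducible apply IntF.app | with_reducible apply IntF.inl | with_reducible apply IntF.inr | with_reducible_and_instances apply IntF.mul | with_reducible_and_instances apply IntF.inv | with_reducible_and_instances apply IntF.add | with_reducible_and_instances apply IntF.sub | with_reducible_and_instances apply IntF.neg | with_reducible_and_instances apply IntF.smul | with_reducible apply Int.fin | with_reducible apply IntF.sep | with_reducible apply IntF.lam | with_reducible apply IntF.insert | with_reducible apply IntF.singleton | with_reducible apply IntF.union | with_reducible apply IntF.iimage | with_reducible apply IntF.ite | with_reducible apply IntF.the | with_reducible apply IntF.irec | with_reducible apply IntF.succ | with_reducible apply IntF.val | with_reducible apply IntF.mk | (with_reducible refine Int.comp ?_ ?_; assumption) | (with_reducible refine Int.comp₂ ?_ ?_ ?_; assumption) | (with_reducible refine Int.comp₃ ?_ ?_ ?_ ?_; assumption) | (with_reducible refine Int.comp₄ ?_ ?_ ?_ ?_ ?_; assumption) | (with_reducible refine IntF.comp ?_ ?_; assumption) |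 (with_reducible refine IntF.comp₂ ?_ ?_ ?_; assumption) | (with_reducible refine IntF.comp₃ ?_ ?_ ?_ ?_; assumption) | with_reducible apply IntF.pair)))
      (fun q => hρ q.1 q.2) fun q n n' h1 h2 => hV0.uniq _ _ _ _ h1 h2
  have hρ' : ∀ i p n, ρ i p = n ↔ R ((p, n), i) := fun i p n =>
    ⟨fun h => h ▸ hρ i p, fun h => hV0.uniq _ _ _ _ (hρ i p) h⟩
  have hεI : IntF N (fun q : Helper672.Plain.El x × Helper672.Plain.El k => ν.symm (ρ q.2 q.1)) :=
    IntF.comp (g := fun n => ν.symm n) hν' (IntF.comp₂ (p := fun (i : Helper672.Plain.El k) (p : Helper672.Plain.El x) => ρ i p)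
      hρI IntF.snd' IntF.fst')
  have hclop : ∀ U, O U → ∀ p, p ∈ U → ∃ i : Helper672.Plain.El k, ρ i p = INat.succ 0 ∧
      ∀ q, ρ i q = INat.succ 0 → q ∈ U := by
    intro U hU p hp
    obtain ⟨D, E, h1, h2, h3, h4, h5⟩ := exists_clopen hr he hU hp
    obtain ⟨i, hi⟩ := exists_ind hO hV0 h1 h2 h3
    refine ⟨i, (hρ' _ _ _).2 ((hi _ _).2 (Or.inl ⟨h4, rfl⟩)), fun q hq => h5 q ?_⟩
    rcases (hi _ _).1 ((hρ' _ _ _).1 hq) with h6 | h6
    · exact h6.1
    · exact absurd h6.2 (INat.succ_ne_zero _)
  refine ⟨w, k, fun p i => ν.symm (ρ i p), hw, ?_, isMap₂_iff.2 hεI, fun p q hpq => ?_,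
    fun u hu => ⟨fun hut p hp => ?_, fun h => ?_⟩, fun y hy hyc => ?_⟩
  · have hD : ∀ p : Helper672.Plain.El x, p ∈ sep N (fun p : Helper672.Plain.El x => p = p) := fun p => (mem_sep (by (repeat' (first | with_reducible exact IntF.id | with_reducible exact IntF.fst' | with_reducible exact IntF.snd' | with_reducible exact IntF.const _ | with_reducible exact Int.const _ | assumption | with_reducible apply Int.and | with_reducible apply Int.or | with_reducible apply Int.not | with_reducible apply Int.imp | with_reducible apply Int.iff | with_reducible apply Int.ne | with_reducible apply Int.eq | with_reducible apply Int.mem | with_reducible apply Int.subset | with_reducible apply Int.ltN | with_reducible apply Int.leN | with_reducible_and_instances apply Int.le | with_reducible_and_instances apply Int.lt | with_reducible apply Int.all | with_reducible apply Int.ex | with_reducible apply IntF.fst | with_reducible apply IntF.snd | with_reducible apply IntF.app | with_reducible apply IntF.inl | with_reducible apply IntF.inr | with_reducible_and_instances apply IntF.mul | with_reducible_and_instances apply IntF.inv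 | with_reducible_and_instances apply IntF.add | with_reducible_and_instances apply IntF.sub | with_reducible_and_instances apply IntF.neg | with_reducible_and_instances apply IntF.smul | with_reducible apply Int.fin | with_reducible apply IntF.sep | with_reducible apply IntF.lam | with_reducible apply IntF.insert | with_reducible apply IntF.singleton | with_reducible apply IntF.union | with_reducible apply IntF.iimage | with_reducible apply IntF.ite | with_reducible apply IntF.the | with_reducible apply IntF.irec | with_reducible apply IntF.succ | with_reducible apply IntF.val | with_reducible apply IntF.mk | (with_reducible refine Int.comp ?_ ?_; assumption) | (with_reducible refine Int.comp₂ ?_ ?_ ?_; assumption) | (with_reducible refine Int.comp₃ ?_ ?_ ?_ ?_; assumption) | (with_reducible refine Int.comp₄ ?_ ?_ ?_ ?_ ?_; assumption) | (with_reducible refine IntF.comp ?_ ?_; assumption) | (with_reducible refine IntF.comp₂ ?_ ?_ ?_; assumption) | (with_reducible refine IntF.comp₃ ?_ ?_ ?_ ?_; assumption) | with_reducible apply IntF.pair)))).2 rfl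
    have hE : ∀ p : Helper672.Plain.El x, p ∈ sep N (fun p : Helper672.Plain.El x => ¬ p = p) ↔ ¬ p = p := fun p =>
      mem_sep (by (repeat' (first | with_reducible exact IntF.id | with_reducible exact IntF.fst' | with_reducible exact IntF.snd' | with_reducible exact IntF.const _ | with_reducible exact Int.const _ | assumption | with_reducible apply Int.and | with_reducible apply Int.or | with_reducible apply Int.not | with_reducible apply Int.imp | with_reducible apply Int.iff | with_reducible apply Int.ne | with_reducible apply Int.eq | with_reducible apply Int.mem | with_reducible apply Int.subset | with_reducible apply Int.ltN | with_reducible apply Int.leN | with_reducible_and_instances apply Int.le | with_reducible_and_instances apply Int.lt | with_reducible apply Int.all | with_reducible apply Int.ex | with_reducible apply IntF.fst | with_reducible apply IntF.snd | with_reducible apply IntF.app | with_reducible apply IntF.inl | with_reducible apply IntF.inr | with_reducible_and_instances apply IntF.mul | with_reducible_and_instances apply IntF.inv | with_reducible_and_instances apply IntF.add | with_reducible_and_instances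 apply IntF.sub | with_reducible_and_instances apply IntF.neg | with_reducible_and_instances apply IntF.smul | with_reducible apply Int.fin | with_reducible apply IntF.sep | with_reducible apply IntF.lam | with_reducible apply IntF.insert | with_reducible apply IntF.singleton | with_reducible apply IntF.union | with_reducible apply IntF.iimage | with_reducible apply IntF.ite | with_reducible apply IntF.the | with_reducible apply IntF.irec | with_reducible apply IntF.succ | with_reducible apply IntF.val | with_reducible apply IntF.mk | (with_reducible refine Int.comp ?_ ?_; assumption) | (with_reducible refine Int.comp₂ ?_ ?_ ?_; assumption) | (with_reducible refine Int.comp₃ ?_ ?_ ?_ ?_; assumption) | (with_reducible refine Int.comp₄ ?_ ?_ ?_ ?_ ?_; assumption) | (with_reducible refine IntF.comp ?_ ?_; assumption) | (with_reducible refine IntF.comp₂ ?_ ?_ ?_; assumption) | (with_reducible refine IntF.comp₃ ?_ ?_ ?_ ?_; assumption) | with_reducible apply IntF.pair)))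
    obtain ⟨i, -⟩ := exists_ind hO hV0 (hO.univ _ hD) (TpO.local' hO
      (W := sep N (fun p : Helper672.Plain.El x => ¬ p = p)) fun p hp => absurd rfl ((hE p).1 hp)) fun p => by
        rw [hE p]
        exact ⟨fun h => absurd rfl h, fun h => absurd (hD p) h⟩
    exact ⟨i.1, i.2⟩
  · refine hinj p q fun i => ?_
    by_contra hne
    have hpq' : ∀ i, ρ i p = ρ i q := fun i => ν.symm.injective (hpq i)
    have hI : ∀ q', q' ∈ sep N (fun q' : Helper672.Plain.El x => d (e q' i) (e p i) < d (e q i) (e p i)) ↔
        d (e q' i) (e p i) < d (e q i) (e p i) := fun q' => mem_sep (by (repeat' (first | with_reducible exact IntF.id | with_reducible exact IntF.fst' | with_reducible exact IntF.snd' | with_reducible exact IntF.const _ | with_reducible exact Int.const _ | assumption | with_reducible apply Int.and | with_reducible apply Int.or | with_reducible apply Int.not | with_reducible apply Int.imp | with_reducible apply Int.iff | with_reducible apply Int.ne | with_reducible apply Int.eq | with_reducible apply Int.mem | with_reducible apply Int.subset | with_reducible apply Int.ltN | with_reducible apply Int.leN |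 with_reducible_and_instances apply Int.le | with_reducible_and_instances apply Int.lt | with_reducible apply Int.all | with_reducible apply Int.ex | with_reducible apply IntF.fst | with_reducible apply IntF.snd | with_reducible apply IntF.app | with_reducible apply IntF.inl | with_reducible apply IntF.inr | with_reducible_and_instances apply IntF.mul | with_reducible_and_instances apply IntF.inv | with_reducible_and_instances apply IntF.add | with_reducible_and_instances apply IntF.sub | with_reducible_and_instances apply IntF.neg | with_reducible_and_instances apply IntF.smul | with_reducible apply Int.fin | with_reducible apply IntF.sep | with_reducible apply IntF.lam | with_reducible apply IntF.insert | with_reducible apply IntF.singleton | with_reducible apply IntF.union | with_reducible apply IntF.iimage | with_reducible apply IntF.ite | with_reducible apply IntF.the | with_reducible apply IntF.irec | with_reducible apply IntF.succ | with_reducible apply IntF.val | with_reducible apply IntF.mk | (with_reducible refine Int.comp ?_ ?_; assumption) | (with_reducible refine Int.comp₂ ?_ ?_ ?_; assumption)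 | (with_reducible refine Int.comp₃ ?_ ?_ ?_ ?_; assumption) | (with_reducible refine Int.comp₄ ?_ ?_ ?_ ?_ ?_; assumption) | (with_reducible refine IntF.comp ?_ ?_; assumption) | (with_reducible refine IntF.comp₂ ?_ ?_ ?_; assumption) | (with_reducible refine IntF.comp₃ ?_ ?_ ?_ ?_; assumption) | with_reducible apply IntF.pair)))
    have hop : O (sep N (fun q' : Helper672.Plain.El x => d (e q' i) (e p i) < d (e q i) (e p i))) := by
      refine TpO.local' hO fun p' hp' => ?_
      have h1 := (hI p').1 hp'
      obtain ⟨W, h2, h3, h4⟩ := he.cont i p' (d (e q i) (e p i) - d (e p' i) (e p i))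
        (sub_pos.2 h1)
      refine ⟨W, h2, h3, fun q' hq' => (hI q').2 ?_⟩
      have h5 : |e q' i - e p' i| < d (e q i) (e p i) - d (e p' i) (e p i) := h4 q' hq'
      rw [hd, hd] at h5
      rw [hd, hd]
      have h6 := abs_sub_le (e q' i) (e p' i) (e p i)
      linarith
    obtain ⟨m, h1, h2⟩ := hclop _ hop p ((hI p).2 (by
      rw [hd, hd, sub_self, abs_zero]
      exact abs_pos.2 (sub_ne_zero.2 fun h => hne h.symm)))
    exact absurd ((hI q).1 (h2 q ((hpq' m).symm.trans h1))) (lt_irrefl _)
  · obtain ⟨U, rfl, hU⟩ := exists_code (a := x) (u := u) hu
    obtain ⟨i, h1, h2⟩ := hclop U ((hOt U).2 hut) p ((hU p).2 hp)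
    refine ⟨code ({i} : IPow N (Helper672.Plain.El k)), finite_code (IFin.singleton _), fun q hq => (hU q).1
      (h2 q ?_)⟩
    have h3 := ν.symm.injective (hq i (mem_cpE'.2 (mem_singleton.2 rfl)))
    exact h3.trans h1
  · refine open_of_local ht fun z hz' => ?_
    obtain ⟨p, rfl⟩ : ∃ p : Helper672.Plain.El x, p.1 = z := ⟨⟨z, hu z hz'⟩, rfl⟩
    obtain ⟨F, hF, h1⟩ := h p hz'
    obtain ⟨U, h2, h3, h4⟩ := exists_open_fin hO hV0 _ (ifin_of_finite hF k) p
    refine ⟨code U, (hOt U).1 h2, mem_cpE'.2 h3, fun z' hz' => ?_⟩
    obtain ⟨h5, h6⟩ := mem_cpE.1 hz'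
    refine h1 ⟨z', h5⟩ fun i hi => ?_
    change ν.symm _ = ν.symm _
    rw [(hρ' i (⟨z', h5⟩ : Helper672.Plain.El x) (ρ i p)).2 (h4 _ h6 i ((mem_sep (memI' _ _)).2 hi) _ (hρ i p))]
  · have hyI := isMap_iff.1 hy
    have hYI : IntF N (fun i : Helper672.Plain.El k => ν (y i)) := IntF.comp (g := fun n => ν n) hν hyI
    have hV : Val O R (fun i => ν (y i)) := by
      refine ⟨hV0, hYI, fun F hF => ?_⟩
      obtain ⟨p, hp⟩ := hyc (code F) (finite_code hF)
      refine ⟨p, fun i hi => ?_⟩
      have h1 := hp i (mem_cpE'.2 hi)
      change R ((p, ν (y i)), i)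
      rw [← h1, Equiv.apply_symm_apply]
      exact hρ i p
    obtain ⟨p, hp⟩ := exists_point hV hr he
    refine ⟨p, fun i => ?_⟩
    change ν.symm (ρ i p) = y i
    rw [(hρ' _ _ _).2 (hp i), Equiv.symm_apply_apply]

end

end Pool.Agent.Q301.SZ
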